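import Pool.Agent.MP_9d3c7b_al.Graded
import Mathlib

section

namespace Pool.Agent.MP_9d3c7b_al

open Matrix

universe u

variable {k : Type u} [Field k] {S : Type u} [CommRing S] [Algebra k S] {L : Type} [AddCommGroup L]
  {xx : Fin 3 → S} {ww : Fin 3 → L}

variable (k xx ww) in
/-- A periodic totally acyclic complex given by one matrix. -/
structure MF (I : Type) [Fintype I] where
  D : Matrix I I S
  g : I → L
  τ : L
  hom : ∀ i j, HS k xx ww (g j + τ - g i) (D i j)
  sq : D * D = 0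
  ex : ∀ v, D *ᵥ v = 0 → ∃ t, v = D *ᵥ t
  coex : ∀ v, v ᵥ* D = 0 → ∃ t, v = t ᵥ* D

namespace MF

variable {I : Type} [Fintype I] (T : MF k xx ww I)

/-- The differential on cochains. -/
noncomputable def dd (N : GrMod k xx ww) (w : I → N.car) : I → N.car := fun j => ∑ i, T.D i j • w i

/-- Homogeneous cochains. -/
def Cm (N : GrMod k xx ww) (l : L) (w : I → N.car) : Prop := ∀ i, w i ∈ N.gr (T.g i + l)

/-- Boundaries. -/
def Bd (N : GrMod k xx ww) (l : L) (w : I → N.car) : Prop :=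
  ∃ v, T.Cm N (l - T.τ) v ∧ w = T.dd N v

/-- Vanishing of cohomology. -/
def Van (N : GrMod k xx ww) (l : L) : Prop :=
  ∀ w, T.Cm N l w → T.dd N w = 0 → T.Bd N l w

/-- Cohomology of dimension at most one. -/
def One (N : GrMod k xx ww) (l : L) : Prop :=
  ∀ w w', T.Cm N l w → T.dd N w = 0 → T.Cm N l w' → T.dd N w' = 0 →
    ∃ a b : k, (a ≠ 0 ∨ b ≠ 0) ∧
      T.Bd N l (algebraMap k S a • w + algebraMap k S b • w')

variable {T}

theorem dd_add (N : GrMod k xx ww) (w w' : I → N.car) :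
    T.dd N (w + w') = T.dd N w + T.dd N w' := by
  funext j; simp [dd, Finset.sum_add_distrib]

theorem dd_sub (N : GrMod k xx ww) (w w' : I → N.car) :
    T.dd N (w - w') = T.dd N w - T.dd N w' := by
  funext j; simp [dd, smul_sub, Finset.sum_sub_distrib]

theorem dd_smul (N : GrMod k xx ww) (s : S) (w : I → N.car) :
    T.dd N (s • w) = s • T.dd N w := by
  funext j
  simp only [dd, Pi.smul_apply, Finset.smul_sum]
  exact Finset.sum_congr rfl fun i _ => smul_comm _ _ _

theorem dd_map {N N' : GrMod k xx ww} (φ : N.car →ₗ[S] N'.car) (w : I → N.car) :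
    T.dd N' (φ ∘ w) = φ ∘ T.dd N w := by
  funext j; simp [dd]

theorem dd_dd (N : GrMod k xx ww) (w : I → N.car) : T.dd N (T.dd N w) = 0 := by
  funext j
  simp only [dd, Finset.smul_sum, smul_smul]
  rw [Finset.sum_comm]
  refine Finset.sum_eq_zero fun i _ => ?_
  rw [← Finset.sum_smul]
  have : ∑ x, T.D x j * T.D i x = (T.D * T.D) i j := by
    rw [Matrix.mul_apply]; exact Finset.sum_congr rfl fun x _ => mul_comm _ _
  rw [this, T.sq]
  simp

theorem Cm.dd {N : GrMod k xx ww} {l : L} {w : I → N.car} (h : T.Cm N l w) :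
    T.Cm N (l + T.τ) (T.dd N w) := by
  intro j
  refine sum_mem fun i _ => ?_
  have := T.hom i j N _ _ (h i)
  convert this using 2
  abel

theorem Cm.map {N N' : GrMod k xx ww} {φ : N.car →ₗ[S] N'.car} (hφ : IsHom N N' φ)
    {l : L} {w : I → N.car} (h : T.Cm N l w) : T.Cm N' l (φ ∘ w) := fun i => hφ _ _ (h i)

theorem Cm.add {N : GrMod k xx ww} {l : L} {w w' : I → N.car} (h : T.Cm N l w)
    (h' : T.Cm N l w') : T.Cm N l (w + w') := fun i => add_mem (h i) (h' i)

theorem Cm.sub {N : GrMod k xx ww} {l : L} {w w' : I → N.car} (h : T.Cm N l w)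
    (h' : T.Cm N l w') : T.Cm N l (w - w') := fun i => sub_mem (h i) (h' i)

theorem Cm.smul {N : GrMod k xx ww} {l : L} {w : I → N.car} (h : T.Cm N l w) (a : k) :
    T.Cm N l (algebraMap k S a • w) := fun i => N.const_mem a _ _ (h i)

theorem Bd.map {N N' : GrMod k xx ww} {φ : N.car →ₗ[S] N'.car} (hφ : IsHom N N' φ)
    {l : L} {w : I → N.car} (h : T.Bd N l w) : T.Bd N' l (φ ∘ w) := by
  obtain ⟨v, hv, rfl⟩ := h
  exact ⟨φ ∘ v, hv.map hφ, (dd_map φ v).symm⟩

theorem Bd.sub {N : GrMod k xx ww} {l : L} {w w' : I → N.car} (h : T.Bd N l w)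
    (h' : T.Bd N l w') : T.Bd N l (w - w') := by
  obtain ⟨v, hv, rfl⟩ := h
  obtain ⟨v', hv', rfl⟩ := h'
  exact ⟨v - v', hv.sub hv', (dd_sub N v v').symm⟩

theorem Bd.smul {N : GrMod k xx ww} {l : L} {w : I → N.car} (h : T.Bd N l w) (a : k) :
    T.Bd N l (algebraMap k S a • w) := by
  obtain ⟨v, hv, rfl⟩ := h
  exact ⟨_, hv.smul a, (dd_smul N _ v).symm⟩

theorem bd_of_eq_dd {N : GrMod k xx ww} {l : L} {w v : I → N.car} (hw : T.Cm N l w)
    (h : w = T.dd N v) : T.Bd N l w := by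
  refine ⟨fun i => N.pr (T.g i + (l - T.τ)) (v i), fun i => N.pr_mem _ _, ?_⟩
  funext j
  rw [← N.pr_same (hw j), h]
  simp only [dd, map_sum]
  refine Finset.sum_congr rfl fun i _ => ?_
  rw [← (T.hom i j).pr N]
  congr 2
  abel

theorem van_lineSum {G : GrMod k xx ww} (hG : IsLineSum G) (l : L) : T.Van G l := by
  obtain ⟨n, b, h, -⟩ := hG
  intro w hw hd
  have h1 : ∀ t : Fin n, ∃ s : I → S, (fun i => b.repr (w i) t) = s ᵥ* T.D := by
    intro t
    refine T.coex _ ?_
    funext j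
    have := congrArg (fun x => b.repr x t) (congrFun hd j)
    simp only [dd, map_sum, map_smul, Finsupp.coe_finsetSum, Finset.sum_apply,
      Finsupp.smul_apply, smul_eq_mul, Pi.zero_apply, map_zero, Finsupp.coe_zero] at this
    rw [Pi.zero_apply, ← this]
    simp only [vecMul, dotProduct]
    exact Finset.sum_congr rfl fun i _ => mul_comm _ _
  choose s hs using h1
  refine bd_of_eq_dd (v := fun i => ∑ t, s t i • b t) hw ?_
  funext j
  rw [← b.sum_repr (w j)]
  simp only [dd, Finset.smul_sum, smul_smul]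
  rw [Finset.sum_comm]
  refine Finset.sum_congr rfl fun t _ => ?_
  rw [← Finset.sum_smul, congrFun (hs t) j]
  simp only [vecMul, dotProduct]
  congr 1
  exact Finset.sum_congr rfl fun i _ => mul_comm _ _

theorem lift_surj {G Y : GrMod k xx ww} {β : G.car →ₗ[S] Y.car} (hβ : IsHom G Y β)
    (hs : Function.Surjective β) {l : L} {y : I → Y.car} (hy : T.Cm Y l y) :
    ∃ v, T.Cm G l v ∧ β ∘ v = y := by
  choose v hv using fun i => hs (y i)
  refine ⟨fun i => G.pr (T.g i + l) (v i), fun i => G.pr_mem _ _, ?_⟩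
  funext i
  simp only [Function.comp]
  rw [← hβ.pr, hv, Y.pr_same (hy i)]

theorem lift_inj {X G : GrMod k xx ww} {α : X.car →ₗ[S] G.car} (hα : IsHom X G α)
    {l : L} {v : I → G.car} (hv : T.Cm G l v) (hr : ∀ i, ∃ x, α x = v i) :
    ∃ x, T.Cm X l x ∧ α ∘ x = v := by
  choose x hx using hr
  refine ⟨fun i => X.pr (T.g i + l) (x i), fun i => X.pr_mem _ _, ?_⟩
  funext i
  simp only [Function.comp]
  rw [← hα.pr, hx, G.pr_same (hv i)]

section ses

variable {X G Y : GrMod k xx ww} {α : X.car →ₗ[S] G.car} {β : G.car →ₗ[S] Y.car}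

theorem core (hα : IsHom X G α) (hβ : IsHom G Y β) (hi : Function.Injective α)
    (he : Function.Exact α β) (hs : Function.Surjective β) {l : L} {w : I → X.car}
    {v : I → G.car} (hv : T.Cm G l v) (hw : α ∘ w = T.dd G v) (hb : T.Bd Y l (β ∘ v)) :
    T.Bd X (l + T.τ) w := by
  obtain ⟨y1, hy1, hy⟩ := hb
  obtain ⟨v1, hv1, rfl⟩ := lift_surj hβ hs hy1
  have h2 : T.Cm G l (v - T.dd G v1) := hv.sub (by simpa using hv1.dd)
  obtain ⟨x1, hx1, hx⟩ := lift_inj hα h2 (fun i => (he _).1 (by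
    have := congrFun hy i
    rw [dd_map] at this
    simp only [Function.comp] at this
    rw [Pi.sub_apply, map_sub, this, sub_self]))
  refine ⟨x1, by simpa using hx1, ?_⟩
  funext j
  apply hi
  have h3 : α ∘ w = α ∘ T.dd X x1 := by
    rw [← dd_map, hx, dd_sub, dd_dd, sub_zero, hw]
  exact congrFun h3 j

theorem up (hα : IsHom X G α) (hβ : IsHom G Y β) (he : Function.Exact α β)
    (hG : IsLineSum G) {l : L} {w : I → X.car} (hw : T.Cm X (l + T.τ) w)
    (hd : T.dd X w = 0) :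
    ∃ v, T.Cm G l v ∧ α ∘ w = T.dd G v ∧ T.Cm Y l (β ∘ v) ∧ T.dd Y (β ∘ v) = 0 := by
  obtain ⟨v, hv, h⟩ := van_lineSum hG _ (α ∘ w) (hw.map hα) (by
    rw [dd_map, hd]; funext i; simp)
  rw [add_sub_cancel_right] at hv
  refine ⟨v, hv, h, hv.map hβ, ?_⟩
  rw [dd_map, ← h]
  funext i
  exact he.apply_apply_eq_zero _

end ses

theorem van_ses {X G Y : GrMod k xx ww} (hG : IsLineSum G) (h : SES X G Y) (l : L) :
    T.Van Y l ↔ T.Van X (l + T.τ) := by
  obtain ⟨α, β, hα, hβ, hi, he, hs⟩ := h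
  constructor
  · intro hY w hw hd
    obtain ⟨v, hv, h1, h2, h3⟩ := up hα hβ he hG hw hd
    exact core hα hβ hi he hs hv h1 (hY _ h2 h3)
  · intro hX y hy hd
    obtain ⟨v, hv, rfl⟩ := lift_surj hβ hs hy
    obtain ⟨w, hw, hαw⟩ := lift_inj hα hv.dd (fun i => (he _).1 (by
      rw [dd_map] at hd
      exact congrFun hd i))
    have hdw : T.dd X w = 0 := by
      funext j
      apply hi
      have : α ∘ T.dd X w = 0 := by rw [← dd_map, hαw, dd_dd]
      rw [Pi.zero_apply, map_zero]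
      exact congrFun this j
    obtain ⟨x1, hx1, rfl⟩ := hX w hw hdw
    rw [add_sub_cancel_right] at hx1
    have h4 := van_lineSum hG l (v - α ∘ x1) (hv.sub (hx1.map hα)) (by
      rw [dd_sub, dd_map, hαw, sub_self])
    have h5 := h4.map hβ
    have h6 : β ∘ (v - α ∘ x1) = β ∘ v := by
      funext i
      simp [he.apply_apply_eq_zero]
    rwa [h6] at h5

theorem one_ses {X G Y : GrMod k xx ww} (hG : IsLineSum G) (h : SES X G Y) (l : L)
    (hY : T.One Y l) : T.One X (l + T.τ) := by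
  obtain ⟨α, β, hα, hβ, hi, he, hs⟩ := h
  intro w w' hw hd hw' hd'
  obtain ⟨v, hv, h1, h2, h3⟩ := up hα hβ he hG hw hd
  obtain ⟨v', hv', h1', h2', h3'⟩ := up hα hβ he hG hw' hd'
  obtain ⟨a, b, hab, hb⟩ := hY _ _ h2 h3 h2' h3'
  refine ⟨a, b, hab, core hα hβ hi he hs ((hv.smul a).add (hv'.smul b)) ?_ ?_⟩
  · rw [dd_add, dd_smul, dd_smul, ← h1, ← h1']
    funext i
    simp
  · convert hb using 1
    funext i
    simp

variable (T) in
/-- A presentation of a module by the matrix. -/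
structure Pres (X : GrMod k xx ww) (d : L) (e : I → X.car) : Prop where
  cm : T.Cm X d e
  cyc : T.dd X e = 0
  span : ∀ x, ∃ s : I → S, x = ∑ i, s i • e i
  rel : ∀ s : I → S, ∑ i, s i • e i = 0 → T.D *ᵥ s = 0

theorem Pres.twist {X : GrMod k xx ww} {d : L} {e : I → X.car} (h : T.Pres X d e) (t : L) :
    T.Pres (X.twist t) (d - t) e where
  cm i := by
    have := h.cm i
    change e i ∈ X.gr (T.g i + (d - t) + t)
    rwa [add_assoc, sub_add_cancel]
  cyc := h.cyc
  span := h.span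
  rel := h.rel

theorem Pres.ext {X N : GrMod k xx ww} {d : L} {e : I → X.car} (h : T.Pres X d e)
    {φ ψ : X.car →ₗ[S] N.car} (he : ∀ i, φ (e i) = ψ (e i)) : φ = ψ := by
  ext x
  obtain ⟨s, rfl⟩ := h.span x
  simp [he]

theorem Pres.hom_of_cocycle [Gd k xx ww] {X N : GrMod k xx ww} {d : L} {e : I → X.car} (h : T.Pres X d e)
    {w : I → N.car} (hw : T.Cm N d w) (hd : T.dd N w = 0) :
    ∃ φ : X.car →ₗ[S] N.car, IsHom X N φ ∧ ∀ i, φ (e i) = w i := by
  classical
  let π : (I → S) →ₗ[S] X.car := Fintype.linearCombination _ e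
  let ψ : (I → S) →ₗ[S] N.car := Fintype.linearCombination _ w
  have hπ : Function.Surjective π := fun x => by
    obtain ⟨s, rfl⟩ := h.span x
    exact ⟨s, rfl⟩
  have hk : LinearMap.ker π ≤ LinearMap.ker ψ := by
    intro s hs
    obtain ⟨t, rfl⟩ := T.ex s (h.rel s hs)
    change ∑ i, (T.D *ᵥ t) i • w i = 0
    simp only [mulVec, dotProduct, Finset.sum_smul]
    rw [Finset.sum_comm]
    refine Finset.sum_eq_zero fun j _ => ?_
    have := congrFun hd j
    simp only [dd, Pi.zero_apply] at this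
    calc ∑ i, (T.D i j * t j) • w i = t j • ∑ i, T.D i j • w i := by
          rw [Finset.smul_sum]
          exact Finset.sum_congr rfl fun i _ => by rw [mul_comm, mul_smul]
      _ = 0 := by rw [this, smul_zero]
  let φ : X.car →ₗ[S] N.car :=
    ((LinearMap.ker π).liftQ ψ hk) ∘ₗ (π.quotKerEquivOfSurjective hπ).symm.toLinearMap
  have hφ : ∀ s, φ (π s) = ψ s := by
    intro s
    have : (π.quotKerEquivOfSurjective hπ).symm (π s) = Submodule.Quotient.mk s := by
      rw [LinearEquiv.symm_apply_eq]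
      rfl
    simp only [φ, LinearMap.comp_apply, LinearEquiv.coe_coe, this, Submodule.liftQ_apply]
  have hφe : ∀ i, φ (e i) = w i := by
    intro i
    have := hφ (Pi.single i 1)
    simpa [π, ψ] using this
  exact ⟨φ, isHom_of_gens h.cm h.span (fun i => by rw [hφe]; exact hw i), hφe⟩

theorem Pres.stZero_of_bd [Gd k xx ww] {X N : GrMod k xx ww} {d : L} {e : I → X.car} (h : T.Pres X d e)
    {φ : X.car →ₗ[S] N.car} (hb : T.Bd N d (φ ∘ e)) : StZero X N φ := by
  classical
  obtain ⟨v, hv, hb⟩ := hb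
  let G := Free k xx ww I (fun i => T.g i + (d - T.τ))
  let ε : I → G.car := fun i => Pi.single i 1
  have hε : T.Cm G (d - T.τ) ε := fun i => single_mem_Free _ i
  obtain ⟨α, hα, hαe⟩ := h.hom_of_cocycle (w := T.dd G ε) (by simpa using hε.dd) (dd_dd _ _)
  let β : G.car →ₗ[S] N.car := Fintype.linearCombination _ v
  have hβ : IsHom G N β := fun l m hm => lincomb_mem hv hm
  refine ⟨G, isLineSum_Free _, α, β, hα, hβ, h.ext fun i => ?_⟩
  have h1 : β ∘ ε = v := by
    funext i
    exact (Fintype.linearCombination_apply_single _ v i 1).trans (one_smul _ _)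
  rw [LinearMap.comp_apply, hαe]
  have h2 := congrFun (dd_map (T := T) β ε) i
  rw [h1] at h2
  exact (congrFun hb i).trans h2

theorem Pres.cocycle {X N : GrMod k xx ww} {d : L} {e : I → X.car} (h : T.Pres X d e)
    (φ : X.car →ₗ[S] N.car) : T.dd N (φ ∘ e) = 0 := by
  rw [dd_map, h.cyc]
  funext i
  simp

theorem Pres.bd_of_stZero {X N : GrMod k xx ww} {d : L} {e : I → X.car} (h : T.Pres X d e)
    {φ : X.car →ₗ[S] N.car} (hb : StZero X N φ) : T.Bd N d (φ ∘ e) := by
  obtain ⟨G, hG, α, β, hα, hβ, rfl⟩ := hb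
  exact (van_lineSum hG d (α ∘ e) (h.cm.map hα) (h.cocycle α)).map hβ

theorem Pres.stZero_of_van [Gd k xx ww] {X N : GrMod k xx ww} {d : L} {e : I → X.car} (h : T.Pres X d e)
    (hv : T.Van N d) {φ : X.car →ₗ[S] N.car} (hφ : IsHom X N φ) : StZero X N φ :=
  h.stZero_of_bd (hv _ (h.cm.map hφ) (h.cocycle φ))

end MF

theorem StZero.comp_left {X Y Z : GrMod k xx ww} {φ : X.car →ₗ[S] Y.car}
    (h : StZero X Y φ) {ψ : Y.car →ₗ[S] Z.car} (hψ : IsHom Y Z ψ) :
    StZero X Z (ψ ∘ₗ φ) := by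
  obtain ⟨G, hG, α, β, hα, hβ, rfl⟩ := h
  exact ⟨G, hG, α, ψ ∘ₗ β, hα, hψ.comp hβ, rfl⟩

theorem StZero.comp_right {X Y Z : GrMod k xx ww} {φ : Y.car →ₗ[S] Z.car}
    (h : StZero Y Z φ) {ψ : X.car →ₗ[S] Y.car} (hψ : IsHom X Y ψ) :
    StZero X Z (φ ∘ₗ ψ) := by
  obtain ⟨G, hG, α, β, hα, hβ, rfl⟩ := h
  exact ⟨G, hG, α ∘ₗ ψ, β, hα.comp hψ, hβ, rfl⟩

theorem stZero_zero [Gd k xx ww] (X Y : GrMod k xx ww) : StZero X Y 0 :=
  ⟨Free k xx ww Empty (fun _ => 0), isLineSum_Free _, 0, 0, fun _ _ _ => zero_mem _,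
    fun _ _ _ => zero_mem _, rfl⟩

theorem stIso_refl [Gd k xx ww] (E : GrMod k xx ww) : StIso E E :=
  ⟨LinearMap.id, LinearMap.id, IsHom.id _, IsHom.id _, by simpa using stZero_zero _ _,
    by simpa using stZero_zero _ _⟩

theorem cls_ses [Gd k xx ww] {A B C : VB k xx ww} (h : SES A.toGrMod B.toGrMod C.toGrMod) :
    cls B = cls A + cls C := by
  rw [← sub_eq_zero, ← sub_sub]
  unfold cls
  rw [← QuotientAddGroup.mk_sub, ← QuotientAddGroup.mk_sub, QuotientAddGroup.eq_zero_iff]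
  exact AddSubgroup.subset_closure
    ⟨A, B, C, ⟨A, B, C, stIso_refl _, stIso_refl _, stIso_refl _, h⟩, rfl⟩

namespace MF

variable {I : Type} [Fintype I] {T : MF k xx ww I}

theorem van_chain {X Y : VB k xx ww} (h : Relation.TransGen Susp X Y) :
    ∃ n : ℤ, 0 < n ∧ ∀ l, T.Van Y.toGrMod l ↔ T.Van X.toGrMod (l + n • T.τ) := by
  induction h with
  | single h =>
    obtain ⟨G, hG, h⟩ := h
    exact ⟨1, one_pos, fun l => by rw [one_smul]; exact van_ses hG h l⟩
  | tail _ h ih =>
    obtain ⟨G, hG, h⟩ := h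
    obtain ⟨n, hn, ih⟩ := ih
    refine ⟨n + 1, by omega, fun l => ?_⟩
    rw [van_ses hG h l, ih, add_smul, one_smul, add_assoc, add_comm T.τ]

theorem id_ne [Gd k xx ww] {X N : GrMod k xx ww} {d : L} {e : I → X.car} (h : T.Pres X d e)
    {w : I → N.car} (hw : T.Cm N d w) (hd : T.dd N w = 0) (hb : ¬ T.Bd N d w) :
    ¬ StZero X X LinearMap.id := by
  intro h0
  obtain ⟨φ, hφ, hφe⟩ := h.hom_of_cocycle hw hd
  have := h.bd_of_stZero (h0.comp_left hφ)
  apply hb
  convert this using 1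
  funext i
  simp [hφe]

theorem exceptional [Gd k xx ww] {E : VB k xx ww} {d : L} {e : I → E.car} (h : T.Pres E.toGrMod d e)
    (hv : ∀ m : ℤ, m ≠ 0 → T.Van E.toGrMod (d + m • T.τ)) (h1 : T.One E.toGrMod d)
    (hid : ¬ StZero E.toGrMod E.toGrMod LinearMap.id) : Exceptional E := by
  refine ⟨⟨hid, ?_⟩, ?_, ?_⟩
  · intro φ hφ
    obtain ⟨a, b, hab, hb⟩ := h1 _ _ (h.cm.map hφ) (h.cocycle φ) h.cm h.cyc
    have ha : a ≠ 0 := by
      rintro rfl
      have hb0 : b ≠ 0 := by simpa using hab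
      apply hid
      apply h.stZero_of_bd
      convert hb.smul b⁻¹ using 1
      funext i
      simp [smul_smul, ← map_mul, hb0]
    refine ⟨-(a⁻¹ * b), h.stZero_of_bd ?_⟩
    convert hb.smul a⁻¹ using 1
    funext i
    simp [smul_smul, ← map_mul, ha]
  · intro Y hY φ hφ
    obtain ⟨n, hn, hh⟩ := van_chain (T := T) hY
    exact h.stZero_of_van ((hh d).2 (hv n hn.ne')) hφ
  · intro X hX φ hφ
    obtain ⟨n, hn, hh⟩ := van_chain (T := T) hX
    have := (hh (d + (-n) • T.τ)).1 (hv (-n) (by omega))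
    rw [add_assoc, ← add_smul, neg_add_cancel, zero_smul, add_zero] at this
    exact h.stZero_of_van this hφ

theorem not_stIso [Gd k xx ww] {J : Type} [Fintype J] {T' : MF k xx ww J} {F E : GrMod k xx ww}
    {N : GrMod k xx ww} {d d' : L} {e : I → F.car} {e' : J → E.car}
    (h : T.Pres F d e) (h' : T'.Pres E d' e')
    {w : I → N.car} (hw : T.Cm N d w) (hd : T.dd N w = 0) (hb : ¬ T.Bd N d w)
    (hv : T'.Van N d') : ¬ StIso F E := by
  rintro ⟨α, β, hα, hβ, h1, -⟩
  obtain ⟨φ, hφ, hφe⟩ := h.hom_of_cocycle hw hd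
  have h2 := h.bd_of_stZero ((h'.stZero_of_van hv (hφ.comp hβ)).comp_right hα)
  have h3 := h.bd_of_stZero (h1.comp_left hφ)
  apply hb
  convert h2.sub h3 using 1
  funext i
  simp [hφe]

end MF

end Pool.Agent.MP_9d3c7b_al

end

section

namespace Pool.Agent.MP_9d3c7b_al

open MvPolynomial Matrix

universe u

variable {k : Type u} [Field k] {S : Type u} [CommRing S] [Algebra k S] {L : Type} [AddCommGroup L]
  {xx : Fin 3 → S} {ww : Fin 3 → L}

/-- The polynomial ring. -/
abbrev RR (k : Type u) [Field k] : Type u := MvPolynomial (Fin 3) k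

/-- The equation for the weights 2, 5, 5. -/
noncomputable def ff (s : k) : RR k := X 2 ^ 5 - X 1 ^ 5 + (C s * X 0) ^ 2

variable (xx ww) in
/-- The data present the coordinate ring for the weights 2, 5, 5. -/
class Good (s : outParam k) : Prop where
  surj : Function.Surjective (aeval xx : RR k →ₐ[k] S)
  ker : ∀ r : RR k, aeval xx r = 0 ↔ ff s ∣ r
  s_ne : s ≠ 0
  rel1 : 5 • ww 1 = 2 • ww 0
  rel2 : 5 • ww 2 = 2 • ww 0
  sep : ∀ n a c : ℤ, n • ww 0 + a • ww 1 + c • ww 2 = 0 → 5 * n + 2 * a + 2 * c = 0 ∧ 5 ∣ c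

theorem HS.of_poly {d : L} {r : RR k} (hr : r.IsWeightedHomogeneous ww d) :
    HS k xx ww d (aeval xx r) := by
  induction hr using IsWeightedHomogeneous.induction_on with
  | zero => simpa using HS.zero d
  | add a b _ _ ha hb => rw [map_add]; exact ha.add hb
  | monomial e a he =>
    rw [aeval_monomial, Finsupp.prod_fintype _ _ (by simp), Fin.prod_univ_three]
    have h := (HS.const (xx := xx) (ww := ww) a).mul
      ((((HS.var 0).pow (e 0)).mul ((HS.var 1).pow (e 1))).mul ((HS.var 2).pow (e 2)))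
    refine HS.of_eq h ?_
    rw [← he, Finsupp.weight_apply, Finsupp.sum_fintype _ _ (by simp), Fin.sum_univ_three,
      zero_add]

theorem ff_hom {s : k} [h : Good xx ww s] : (ff s).IsWeightedHomogeneous ww (2 • ww 0) := by
  unfold ff
  refine IsWeightedHomogeneous.add (IsWeightedHomogeneous.sub ?_ ?_) ?_
  · rw [← h.rel2]; exact (isWeightedHomogeneous_X k _ 2).pow _
  · rw [← h.rel1]; exact (isWeightedHomogeneous_X k _ 1).pow _
  · exact ((isWeightedHomogeneous_X k _ 0).C_mul _).pow _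

theorem gd_of_good {s : k} [h : Good xx ww s] : Gd k xx ww := by
  classical
  let := weightedGradedAlgebra k ww
  have hI : (Ideal.span {ff s}).IsHomogeneous (weightedHomogeneousSubmodule k ww) :=
    Ideal.homogeneous_span _ _ (by
      rintro _ rfl
      exact ⟨_, ff_hom (xx := xx)⟩)
  let q : RR k →+ S := (aeval xx : RR k →ₐ[k] S).toRingHom.toAddMonoidHom
  have hs : Function.Surjective q := h.surj
  let g : L → (RR k →+ S) := fun l => q.comp (weightedHomogeneousComponent ww l).toAddMonoidHom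
  have hg : ∀ l, q.ker ≤ (g l).ker := by
    intro l r hr
    have h1 : r ∈ Ideal.span {ff s} := Ideal.mem_span_singleton.2 ((h.ker r).1 hr)
    exact (h.ker _).2
      (Ideal.mem_span_singleton.1 (weightedHomogeneousComponent_mem_of_mem k _ hI h1 l))
  let P : L → (S →+ S) := fun l => q.liftOfSurjective hs ⟨g l, hg l⟩
  have hP : ∀ l r, P l (aeval xx r) = aeval xx (weightedHomogeneousComponent ww l r) :=
    fun l r => AddMonoidHom.liftOfRightInverse_comp_apply _ _ _ ⟨g l, hg l⟩ r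
  let gr : L → AddSubgroup S := fun l => (weightedHomogeneousSubmodule k ww l).toAddSubgroup.map q
  have mem_gr : ∀ {l t}, t ∈ gr l ↔ ∃ r : RR k, r.IsWeightedHomogeneous ww l ∧ aeval xx r = t := by
    intro l t
    simp [gr, q]
  have hint : DirectSum.IsInternal gr := by
    refine isInternal_of_proj _ P ?_ ?_ ?_
    · intro l m hm
      obtain ⟨r, hr, rfl⟩ := mem_gr.1 hm
      rw [hP, hr.weightedHomogeneousComponent_same]
    · intro l l' m hm hl
      obtain ⟨r, hr, rfl⟩ := mem_gr.1 hm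
      rw [hP, hr.weightedHomogeneousComponent_ne l (Ne.symm hl), map_zero]
    · intro m
      obtain ⟨r, rfl⟩ := h.surj m
      rw [← sum_weightedHomogeneousComponent ww r,
        finsum_eq_sum _ (weightedHomogeneousComponent_finsupp r), map_sum]
      exact AddSubgroup.sum_mem _ fun l _ => AddSubgroup.mem_iSup_of_mem l
        (mem_gr.2 ⟨_, weightedHomogeneousComponent_isWeightedHomogeneous l r, rfl⟩)
  let M : GrMod k xx ww :=
    { car := S
      gr := gr
      internal := by convert hint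
      const_mem := fun a l m hm => by
        obtain ⟨r, hr, rfl⟩ := mem_gr.1 hm
        exact mem_gr.2 ⟨C a * r, hr.C_mul a, by simp⟩
      var_mem := fun i l m hm => by
        obtain ⟨r, hr, rfl⟩ := mem_gr.1 hm
        refine mem_gr.2 ⟨X i * r, ?_, by simp⟩
        rw [add_comm]
        exact (isWeightedHomogeneous_X k _ i).mul hr }
  have heq : grS k xx ww = gr := by
    funext l
    ext t
    constructor
    · intro ht
      have := ht M 0 (1 : S) (mem_gr.2 ⟨1, isWeightedHomogeneous_one k _, map_one _⟩)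
      rw [zero_add] at this
      change t * 1 ∈ gr l at this
      rwa [mul_one] at this
    · intro ht
      obtain ⟨r, hr, rfl⟩ := mem_gr.1 ht
      exact HS.of_poly hr
  exact ⟨by rw [heq]; convert hint⟩

/-- Setting one variable to zero. -/
noncomputable def ev (i : Fin 3) : RR k →ₐ[k] RR k := aeval (Function.update X i 0)

theorem ev_same (i : Fin 3) : ev i (X i : RR k) = 0 := by simp [ev]

theorem ev_ne {i j : Fin 3} (h : j ≠ i) : ev i (X j : RR k) = X j := by simp [ev, h]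

theorem ev_C (i : Fin 3) (a : k) : ev i (C a : RR k) = C a := by simp [ev]

theorem ev_div (i : Fin 3) (r : RR k) : ∃ r1, r = ev i r + X i * r1 := by
  induction r using MvPolynomial.induction_on with
  | C a => exact ⟨0, by simp⟩
  | add a b ha hb =>
    obtain ⟨a1, ha⟩ := ha
    obtain ⟨b1, hb⟩ := hb
    exact ⟨a1 + b1, by rw [map_add]; linear_combination ha + hb⟩
  | mul_X a j ha =>
    obtain ⟨a1, ha⟩ := ha
    by_cases h : j = i
    · subst h
      exact ⟨a, by rw [map_mul, ev_same]; ring⟩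
    · exact ⟨a1 * X j, by rw [map_mul, ev_ne h]; linear_combination X j * ha⟩

theorem ff_ne_zero (s : k) : ff s ≠ 0 := by
  intro h
  have := congrArg (fun r => ev 1 (ev 0 r)) h
  simp [ff, ev_same, ev_ne (show (1 : Fin 3) ≠ 0 by decide),
    ev_ne (show (2 : Fin 3) ≠ 0 by decide), ev_ne (show (2 : Fin 3) ≠ 1 by decide)] at this

section
variable {s : k} [h : Good xx ww s]

include h in
theorem x0_reg (a : S) (ha : xx 0 * a = 0) : a = 0 := by
  obtain ⟨r, rfl⟩ := h.surj a
  obtain ⟨q, hq⟩ := (h.ker (X 0 * r)).1 (by simpa using ha)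
  have h1 := congrArg (ev 0) hq
  rw [map_mul, map_mul, ev_same, zero_mul] at h1
  have h2 : ev 0 (ff s) ≠ 0 := by
    intro h3
    have := congrArg (ev 1) h3
    simp [ff, ev_same, ev_ne (show (1 : Fin 3) ≠ 0 by decide),
      ev_ne (show (2 : Fin 3) ≠ 0 by decide), ev_ne (show (2 : Fin 3) ≠ 1 by decide)] at this
  have h3 : ev 0 q = 0 := (mul_eq_zero.1 h1.symm).resolve_left h2
  obtain ⟨q1, hq1⟩ := ev_div 0 q
  rw [h3, zero_add] at hq1
  refine (h.ker r).2 ⟨q1, mul_left_cancel₀ (X_ne_zero (0 : Fin 3)) ?_⟩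
  rw [hq, hq1]; ring

include h in
theorem x1_reg (a b : S) (ha : xx 1 * a = xx 0 * b) : ∃ c, a = xx 0 * c := by
  obtain ⟨r, rfl⟩ := h.surj a
  obtain ⟨p, rfl⟩ := h.surj b
  obtain ⟨q, hq⟩ := (h.ker (X 1 * r - X 0 * p)).1 (by simpa [sub_eq_zero] using ha)
  have h1 := congrArg (fun r => ev 0 (ev 1 r)) hq
  simp only [ff, map_sub, map_mul, map_add, map_pow, ev_same, ev_C,
    ev_ne (show (0 : Fin 3) ≠ 1 by decide), ev_ne (show (2 : Fin 3) ≠ 0 by decide),
    ev_ne (show (2 : Fin 3) ≠ 1 by decide), zero_mul, map_zero, mul_zero] at h1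
  have h3 : ev 0 (ev 1 q) = 0 := by
    have : (X 2 : RR k) ^ 5 * ev 0 (ev 1 q) = 0 := by linear_combination -h1
    exact (mul_eq_zero.1 this).resolve_left (pow_ne_zero _ (X_ne_zero _))
  obtain ⟨q0, hq0⟩ := ev_div 0 (ev 1 q)
  obtain ⟨q1, hq1⟩ := ev_div 1 q
  obtain ⟨p1, hp1⟩ := ev_div 1 p
  rw [h3, zero_add] at hq0
  have h4 := congrArg (ev 1) hq
  simp only [ff, map_sub, map_mul, map_add, map_pow, ev_same, ev_C,
    ev_ne (show (0 : Fin 3) ≠ 1 by decide), ev_ne (show (2 : Fin 3) ≠ 1 by decide),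
    zero_mul] at h4
  have h5 : r = X 0 * (p1 - X 1 ^ 4 * q0) + ff s * q1 := by
    apply mul_left_cancel₀ (X_ne_zero (1 : Fin 3))
    unfold ff at hq ⊢
    linear_combination hq - h4 + X 0 * hp1
      + (X 2 ^ 5 - X 1 ^ 5 + (C s * X 0) ^ 2) * hq1 - X 1 ^ 5 * hq0
  refine ⟨aeval xx (p1 - X 1 ^ 4 * q0), ?_⟩
  have h6 : aeval xx (ff s) = 0 := (h.ker _).2 dvd_rfl
  rw [h5, map_add, map_mul, map_mul, h6]
  simp

include h in
theorem ex_of_sq {I : Type} [Fintype I] [DecidableEq I] (D : Matrix I I (RR k))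
    (hD : D * D = ff s • (1 : Matrix I I (RR k))) (v : I → S)
    (hv : D.map (aeval xx) *ᵥ v = 0) : ∃ t, v = D.map (aeval xx) *ᵥ t := by
  choose r hr using fun i => h.surj (v i)
  have hmap : ∀ r : I → RR k, D.map (aeval xx) *ᵥ (fun i => aeval xx (r i)) =
      fun i => aeval xx ((D *ᵥ r) i) := by
    intro r
    funext i
    simp [mulVec, dotProduct]
  have hv' : v = fun i => aeval xx (r i) := (funext hr).symm
  rw [hv', hmap] at hv
  choose t ht using fun i => (h.ker _).1 (congrFun hv i)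
  have h1 : D *ᵥ r = ff s • t := funext ht
  have h2 : ff s • r = ff s • (D *ᵥ t) := by
    rw [← mulVec_smul, ← h1, mulVec_mulVec, hD, smul_mulVec, one_mulVec]
  have h3 : r = D *ᵥ t := by
    funext i
    have h4 := congrFun h2 i
    rw [Pi.smul_apply, Pi.smul_apply, smul_eq_mul, smul_eq_mul] at h4
    exact mul_left_cancel₀ (ff_ne_zero s) h4
  refine ⟨fun i => aeval xx (t i), ?_⟩
  rw [hmap, hv', h3]

include h in
theorem coex_of_sq {I : Type} [Fintype I] [DecidableEq I] (D : Matrix I I (RR k))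
    (hD : D * D = ff s • (1 : Matrix I I (RR k))) (v : I → S)
    (hv : v ᵥ* D.map (aeval xx) = 0) : ∃ t, v = t ᵥ* D.map (aeval xx) := by
  have hT : Dᵀ * Dᵀ = ff s • (1 : Matrix I I (RR k)) := by
    rw [← transpose_mul, hD, transpose_smul, transpose_one]
  obtain ⟨t, ht⟩ := ex_of_sq (xx := xx) (ww := ww) Dᵀ hT v (by
    rw [transpose_map, mulVec_transpose, hv])
  exact ⟨t, by rw [ht, transpose_map, mulVec_transpose]⟩

include h in
theorem sq_of_sq {I : Type} [Fintype I] [DecidableEq I] (D : Matrix I I (RR k))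
    (hD : D * D = ff s • (1 : Matrix I I (RR k))) :
    D.map (aeval xx) * D.map (aeval xx) = 0 := by
  have h6 : aeval xx (ff s) = 0 := (h.ker _).2 dvd_rfl
  rw [← Matrix.map_mul, hD]
  ext i j
  simp [h6]

end

/-- The kernel of a homogeneous map between free modules is a vector bundle. -/
noncomputable def kerVB {s : k} [Good xx ww s] [Gd k xx ww] {I J : Type} [Fintype I] [Fintype J]
    (h : I → L) (h' : J → L) (d : L) (A : Matrix J I S)
    (hA : ∀ j i, HS k xx ww (h i + d - h' j) (A j i)) : VB k xx ww where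
  toGrMod := (Free k xx ww I h).ker (Free k xx ww J h') A.mulVecLin d
    (fun _ _ hm => mulVec_mem_Free hA hm)
  fin := by
    have : IsNoetherianRing S :=
      isNoetherianRing_of_surjective (RR k) S (aeval xx : RR k →ₐ[k] S).toRingHom
        (Good.surj (ww := ww))
    exact inferInstanceAs (Module.Finite S (LinearMap.ker A.mulVecLin))
  reg := by
    have h0 : ∀ {J : Type} (v : J → S), xx 0 • v = 0 → v = 0 := fun v hv =>
      funext fun i => x0_reg (xx := xx) (ww := ww) (s := s) _ (congrFun hv i)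
    change RingTheory.Sequence.IsWeaklyRegular (LinearMap.ker A.mulVecLin) [xx 0, xx 1]
    rw [RingTheory.Sequence.isWeaklyRegular_cons_iff, RingTheory.Sequence.isWeaklyRegular_cons_iff]
    refine ⟨?_, ?_, RingTheory.Sequence.IsWeaklyRegular.nil _ _⟩
    · rw [isSMulRegular_iff_right_eq_zero_of_smul]
      intro m hm
      exact Subtype.ext (h0 _ (congrArg Subtype.val hm))
    · rw [isSMulRegular_iff_right_eq_zero_of_smul]
      intro m hm
      obtain ⟨m, rfl⟩ := Submodule.Quotient.mk_surjective _ m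
      rw [← Submodule.Quotient.mk_smul, Submodule.Quotient.mk_eq_zero,
        Submodule.mem_smul_pointwise_iff_exists] at hm
      obtain ⟨n, -, hn⟩ := hm
      have h1 : xx 0 • n.1 = xx 1 • m.1 := congrArg Subtype.val hn
      choose c hc using fun i =>
        x1_reg (xx := xx) (ww := ww) (s := s) (m.1 i) (n.1 i) (congrFun h1 i).symm
      have h2 : m.1 = xx 0 • c := funext hc
      have h3 : c ∈ LinearMap.ker A.mulVecLin := by
        apply h0
        rw [← map_smul, ← h2]
        exact m.2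
      rw [Submodule.Quotient.mk_eq_zero, Submodule.mem_smul_pointwise_iff_exists]
      exact ⟨⟨c, h3⟩, trivial, Subtype.ext h2.symm⟩

end Pool.Agent.MP_9d3c7b_al

end

section

namespace Pool.Agent.MP_9d3c7b_al

open Matrix

set_option linter.unusedSectionVars false

variable {A : Type*} [CommRing A] {B : Type} [Fintype B] [DecidableEq B]

/-- The operator y - Y. -/
def aa (y : A) (Y : Matrix B B A) : Matrix B B A := y • (1 : Matrix B B A) - Y

/-- The difference quotient of the fifth power. -/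
def bb (y : A) (Y : Matrix B B A) : Matrix B B A :=
  y ^ 4 • (1 : Matrix B B A) + y ^ 3 • Y + y ^ 2 • Y ^ 2 + y • Y ^ 3 + Y ^ 4

theorem aa_bb (y : A) {Y : Matrix B B A} (hY : Y ^ 5 = 0) :
    aa y Y * bb y Y = y ^ 5 • (1 : Matrix B B A) := by
  have h : aa y Y * bb y Y = y ^ 5 • (1 : Matrix B B A) - Y ^ 5 := by
    simp only [aa, bb, sub_mul, mul_add, smul_mul_assoc, mul_smul_comm, one_mul, mul_one,
      ← pow_succ', ← pow_two]
    module
  rw [h, hY, sub_zero]

theorem commute_aa {C : Matrix B B A} (y : A) {Y : Matrix B B A} (h : Commute C Y) :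
    Commute C (aa y Y) := ((Commute.one_right C).smul_right y).sub_right h

theorem commute_bb {C : Matrix B B A} (y : A) {Y : Matrix B B A} (h : Commute C Y) :
    Commute C (bb y Y) :=
  (((((Commute.one_right C).smul_right _).add_right (h.smul_right _)).add_right
    ((h.pow_right 2).smul_right _)).add_right ((h.pow_right 3).smul_right _)).add_right
      (h.pow_right 4)

theorem bb_aa (y : A) {Y : Matrix B B A} (hY : Y ^ 5 = 0) :
    bb y Y * aa y Y = y ^ 5 • (1 : Matrix B B A) := by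
  rw [← aa_bb y hY]
  exact (commute_aa y (commute_bb y (Commute.refl Y)).symm).eq

theorem aa_inter {B1 : Type} [Fintype B1] [DecidableEq B1] (y : A) {Y : Matrix B B A}
    {Y1 : Matrix B1 B1 A} {α : Matrix B B1 A} (h : Y * α = α * Y1) :
    aa y Y * α = α * aa y Y1 := by
  simp [aa, Matrix.sub_mul, Matrix.mul_sub, h]

theorem pow_inter {B1 : Type} [Fintype B1] [DecidableEq B1] {Y : Matrix B B A}
    {Y1 : Matrix B1 B1 A} {α : Matrix B B1 A} (h : Y * α = α * Y1) (n : ℕ) :
    Y ^ n * α = α * Y1 ^ n := by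
  induction n with
  | zero => simp
  | succ n ih => rw [pow_succ, Matrix.mul_assoc, h, ← Matrix.mul_assoc, ih, Matrix.mul_assoc, pow_succ]

theorem bb_inter {B1 : Type} [Fintype B1] [DecidableEq B1] (y : A) {Y : Matrix B B A}
    {Y1 : Matrix B1 B1 A} {α : Matrix B B1 A} (h : Y * α = α * Y1) :
    bb y Y * α = α * bb y Y1 := by
  simp [bb, Matrix.add_mul, Matrix.mul_add, h, pow_inter h]

theorem aa_map {A' : Type*} [CommRing A'] (φ : A →+* A') (y : A) (Y : Matrix B B A) :
    (aa y Y).map φ = aa (φ y) (Y.map φ) := by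
  ext i j
  by_cases h : i = j <;> simp [aa, one_apply, h]

theorem bb_map {A' : Type*} [CommRing A'] (φ : A →+* A') (y : A) (Y : Matrix B B A) :
    (bb y Y).map φ = bb (φ y) (Y.map φ) := by
  have hp : ∀ n : ℕ, (Y.map φ) ^ n = (Y ^ n).map φ := fun n => (map_pow φ.mapMatrix Y n).symm
  ext i j
  by_cases h : i = j <;> simp [bb, one_apply, h, hp]

/-- The blocks of the matrix factorisation. -/
def blk (t y z : A) (Y Z : Matrix B B A) : Matrix (Fin 4) (Fin 4) (Matrix B B A) :=
  !![t • 1, aa y Y, aa z Z, 0;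
     -bb y Y, -(t • 1), 0, -aa z Z;
     bb z Z, 0, -(t • 1), aa y Y;
     0, -bb z Z, -bb y Y, t • 1]

/-- The matrix factorisation. -/
def DD (t y z : A) (Y Z : Matrix B B A) : Matrix (Fin 4 × B) (Fin 4 × B) A :=
  Matrix.comp _ _ _ _ _ (blk t y z Y Z)

theorem DD_apply (t y z : A) (Y Z : Matrix B B A) (p q : Fin 4 × B) :
    DD t y z Y Z p q = blk t y z Y Z p.1 q.1 p.2 q.2 := rfl

theorem DD_sq (t y z : A) {Y Z : Matrix B B A} (h : Commute Y Z) (hY : Y ^ 5 = 0)
    (hZ : Z ^ 5 = 0) : DD t y z Y Z * DD t y z Y Z =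
      (z ^ 5 - y ^ 5 + t ^ 2) • (1 : Matrix (Fin 4 × B) (Fin 4 × B) A) := by
  have h1 := aa_bb y hY
  have h2 := aa_bb z hZ
  have h3 := bb_aa y hY
  have h4 := bb_aa z hZ
  have c1 := (commute_aa z (commute_aa y h.symm).symm).eq
  have c2 := (commute_bb z (commute_aa y h.symm).symm).eq
  have c3 := (commute_aa z (commute_bb y h.symm).symm).eq
  have c4 := (commute_bb z (commute_bb y h.symm).symm).eq
  have hb : blk t y z Y Z * blk t y z Y Z =
      (z ^ 5 - y ^ 5 + t ^ 2) • (1 : Matrix (Fin 4) (Fin 4) (Matrix B B A)) := by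
    refine Matrix.ext fun i j => ?_
    fin_cases i <;> fin_cases j <;>
      simp [blk, Matrix.mul_apply, Fin.sum_univ_four, h1, h2, h3, h4, c1, c2, c3, c4] <;> module
  have := congrArg (Matrix.compAlgEquiv (Fin 4) B A A) hb
  rw [map_mul, map_smul, map_one] at this
  exact this

theorem DD_map {A' : Type*} [CommRing A'] (φ : A →+* A') (t y z : A) (Y Z : Matrix B B A) :
    (DD t y z Y Z).map φ = DD (φ t) (φ y) (φ z) (Y.map φ) (Z.map φ) := by
  have h1 : (t • (1 : Matrix B B A)).map φ = φ t • (1 : Matrix B B A') := by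
    ext i j
    by_cases h : i = j <;> simp [one_apply, h]
  unfold DD
  rw [← Matrix.comp_map_map]
  congr 1
  refine Matrix.ext fun i j => ?_
  fin_cases i <;> fin_cases j <;> simp [blk, aa_map, bb_map, h1, Matrix.map_neg]

/-- A component of a vector. -/
def cp {n : Type} (v : n × B → A) (i : n) : B → A := fun b => v (i, b)

theorem DD_mulVec (t y z : A) (Y Z : Matrix B B A) (v : Fin 4 × B → A) (i : Fin 4) :
    cp (DD t y z Y Z *ᵥ v) i = ∑ j, blk t y z Y Z i j *ᵥ cp v j := by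
  funext b
  simp [cp, mulVec, dotProduct, Fintype.sum_prod_type, DD_apply, Finset.sum_apply]

theorem cp_ext {n : Type} {v w : n × B → A} (h : ∀ i, cp v i = cp w i) : v = w :=
  funext fun p => congrFun (h p.1) p.2

theorem blk_inter {B1 : Type} [Fintype B1] [DecidableEq B1] (t y z : A) {Y Z : Matrix B B A}
    {Y1 Z1 : Matrix B1 B1 A} {α : Matrix B B1 A} (hY : Y * α = α * Y1) (hZ : Z * α = α * Z1)
    (i j : Fin 4) : blk t y z Y Z i j * α = α * blk t y z Y1 Z1 i j := by
  fin_cases i <;> fin_cases j <;>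
    simp [blk, aa_inter y hY, aa_inter z hZ, bb_inter y hY, bb_inter z hZ]

/-- The componentwise action of a matrix. -/
def liftL {B1 : Type} [Fintype B1] (α : Matrix B B1 A) :
    (Fin 4 × B1 → A) →ₗ[A] (Fin 4 × B → A) where
  toFun v p := (α *ᵥ cp v p.1) p.2
  map_add' v w := by
    funext p
    have : cp (v + w) p.1 = cp v p.1 + cp w p.1 := rfl
    simp [this, mulVec_add]
  map_smul' c v := by
    funext p
    have : cp (c • v) p.1 = c • cp v p.1 := rfl
    simp [this, mulVec_smul]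

omit [Fintype B] [DecidableEq B] in
theorem cp_liftL {B1 : Type} [Fintype B1] (α : Matrix B B1 A) (v : Fin 4 × B1 → A) (i : Fin 4) :
    cp (liftL α v) i = α *ᵥ cp v i := rfl

theorem DD_liftL {B1 : Type} [Fintype B1] [DecidableEq B1] (t y z : A) {Y Z : Matrix B B A}
    {Y1 Z1 : Matrix B1 B1 A} {α : Matrix B B1 A} (hY : Y * α = α * Y1) (hZ : Z * α = α * Z1)
    (v : Fin 4 × B1 → A) : DD t y z Y Z *ᵥ liftL α v = liftL α (DD t y z Y1 Z1 *ᵥ v) := by
  refine cp_ext fun i => ?_
  rw [DD_mulVec, cp_liftL, DD_mulVec, mulVec_sum]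
  refine Finset.sum_congr rfl fun j _ => ?_
  rw [cp_liftL, mulVec_mulVec, mulVec_mulVec, blk_inter t y z hY hZ]

end Pool.Agent.MP_9d3c7b_al

end

section

namespace Pool.Agent.MP_9d3c7b_al

open MvPolynomial Matrix

universe u

variable {k : Type u} [Field k] {S : Type u} [CommRing S] [Algebra k S] {L : Type} [AddCommGroup L]
  {xx : Fin 3 → S} {ww : Fin 3 → L}

section general
variable {s : k} [Good xx ww s] [Gd k xx ww] {I : Type} [Fintype I]

/-- The free module of a periodic complex. -/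
noncomputable abbrev MF.free (T : MF k xx ww I) : GrMod k xx ww :=
  Free k xx ww I (fun i => T.g i + T.τ)

/-- The vector bundle of a periodic complex. -/
noncomputable def MF.vb (T : MF k xx ww I) : VB k xx ww :=
  kerVB (fun i => T.g i + T.τ) (fun i => T.g i + T.τ) T.τ T.D
    (fun j i => (T.hom j i).of_eq (by abel))

/-- The generators of the vector bundle. -/
noncomputable def MF.gen [DecidableEq I] (T : MF k xx ww I) (j : I) : T.vb.car :=
  (⟨T.D *ᵥ Pi.single j 1, by
    rw [LinearMap.mem_ker, mulVecLin_apply, mulVec_mulVec, T.sq, zero_mulVec]⟩ :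
      LinearMap.ker T.D.mulVecLin)

theorem MF.gen_sum [DecidableEq I] (T : MF k xx ww I) (t : I → S) :
    Subtype.val (p := fun v => v ∈ LinearMap.ker T.D.mulVecLin) (∑ i, t i • T.gen i) =
      T.D *ᵥ t := by
  have : ∑ i, t i • (Pi.single i 1 : I → S) = t := by
    funext j
    simp [Pi.single_apply]
  conv_rhs => rw [← this]
  rw [mulVec_sum]
  refine (map_sum (LinearMap.ker T.D.mulVecLin).subtype _ _).trans ?_
  exact Finset.sum_congr rfl fun i _ => (mulVec_smul _ _ _).symm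

theorem MF.pres [DecidableEq I] (T : MF k xx ww I) : T.Pres T.vb.toGrMod (T.τ + T.τ) T.gen where
  cm j := by
    have := mulVec_mem_Free (h := fun i => T.g i + T.τ) (h' := fun i => T.g i + T.τ) (d := T.τ)
      (A := T.D) (fun j i => (T.hom j i).of_eq (by abel)) (single_mem_Free _ j)
    rw [add_assoc] at this
    exact this
  cyc := by
    funext j
    apply Subtype.ext
    refine (T.gen_sum fun i => T.D i j).trans ?_
    funext i
    exact congrFun (congrFun T.sq i) j
  span x := by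
    obtain ⟨t, ht⟩ := T.ex x.1 x.2
    exact ⟨t, Subtype.ext (ht.trans (T.gen_sum t).symm)⟩
  rel t ht := (T.gen_sum t).symm.trans (congrArg Subtype.val ht)

theorem MF.ses_vb {I1 I2 : Type} [Fintype I1] [Fintype I2] (T1 : MF k xx ww I1) (T : MF k xx ww I)
    (T2 : MF k xx ww I2) (α : (I1 → S) →ₗ[S] (I → S)) (β : (I → S) →ₗ[S] (I2 → S))
    (hα : IsHom T1.free T.free α) (hβ : IsHom T.free T2.free β)
    (hi : Function.Injective α) (he : Function.Exact α β) (hs : Function.Surjective β)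
    (c1 : ∀ v, T.D *ᵥ α v = α (T1.D *ᵥ v)) (c2 : ∀ v, T2.D *ᵥ β v = β (T.D *ᵥ v)) :
    SES T1.vb.toGrMod T.vb.toGrMod T2.vb.toGrMod := by
  have r1 : ∀ v ∈ LinearMap.ker T1.D.mulVecLin, α v ∈ LinearMap.ker T.D.mulVecLin := by
    intro v hv
    have hv' : T1.D *ᵥ v = 0 := hv
    change T.D *ᵥ α v = 0
    rw [c1, hv', map_zero]
  have r2 : ∀ v ∈ LinearMap.ker T.D.mulVecLin, β v ∈ LinearMap.ker T2.D.mulVecLin := by
    intro v hv
    have hv' : T.D *ᵥ v = 0 := hv
    change T2.D *ᵥ β v = 0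
    rw [c2, hv', map_zero]
  refine ⟨α.restrict r1, β.restrict r2, fun l m hm => hα l m.1 hm, fun l m hm => hβ l m.1 hm,
    fun a b hab => Subtype.ext (hi (congrArg Subtype.val hab)), fun w => ⟨fun hw => ?_, ?_⟩,
    fun w => ?_⟩
  · obtain ⟨v, hv⟩ := (he w.1).1 (congrArg Subtype.val hw)
    have hw2 : T.D *ᵥ w.1 = 0 := w.2
    refine ⟨⟨v, hi ?_⟩, Subtype.ext hv⟩
    change α (T1.D *ᵥ v) = α 0
    rw [← c1, hv, hw2, map_zero]
  · rintro ⟨v, rfl⟩
    exact Subtype.ext (he.apply_apply_eq_zero v.1)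
  · obtain ⟨t, ht⟩ := T2.ex w.1 w.2
    obtain ⟨v, rfl⟩ := hs t
    refine ⟨⟨T.D *ᵥ v, ?_⟩, Subtype.ext ?_⟩
    · change T.D *ᵥ (T.D *ᵥ v) = 0
      rw [mulVec_mulVec, T.sq, zero_mulVec]
    · exact (c2 v).symm.trans ht.symm

end general

/-- Finite-dimensional graded modules in a box, given by integer matrices. -/
structure FD (B : Type) [Fintype B] [DecidableEq B] where
  a : B → ℤ
  c : B → ℤ
  Y : Matrix B B ℤ
  Z : Matrix B B ℤ
  comm : Y * Z = Z * Y
  hY : ∀ i j, Y i j ≠ 0 → a i = a j + 1 ∧ c i = c j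
  hZ : ∀ i j, Z i j ≠ 0 → a i = a j ∧ c i = c j + 1
  ba : ∀ i, 0 ≤ a i ∧ a i ≤ 3
  bc : ∀ i, 0 ≤ c i ∧ c i ≤ 3

theorem pow_five_eq_zero {B : Type} [Fintype B] [DecidableEq B] (a : B → ℤ) (Y : Matrix B B ℤ)
    (hY : ∀ i j, Y i j ≠ 0 → a i = a j + 1) (ba : ∀ i, 0 ≤ a i ∧ a i ≤ 3) : Y ^ 5 = 0 := by
  have h : ∀ n : ℕ, ∀ i j, (Y ^ n) i j ≠ 0 → a i = a j + n := by
    intro n
    induction n with
    | zero =>
      intro i j hij
      by_cases h : i = j
      · simp [h]
      · simp [h] at hij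
    | succ n ih =>
      intro i j hij
      rw [pow_succ, Matrix.mul_apply] at hij
      obtain ⟨l, -, hl⟩ := Finset.exists_ne_zero_of_sum_ne_zero hij
      have h1 := ih i l (left_ne_zero_of_mul hl)
      have h2 := hY l j (right_ne_zero_of_mul hl)
      push_cast
      omega
  ext i j
  by_contra hij
  have := h 5 i j hij
  have := ba i
  have := ba j
  omega

/-- Integer matrices over a ring. -/
def ic (A : Type*) [CommRing A] {B B' : Type} (Y : Matrix B B' ℤ) : Matrix B B' A :=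
  Y.map (Int.castRingHom A)

theorem ic_apply (A : Type*) [CommRing A] {B B' : Type} (Y : Matrix B B' ℤ) (i : B) (j : B') :
    ic A Y i j = (Y i j : A) := rfl

theorem ic_mul (A : Type*) [CommRing A] {B B' B'' : Type} [Fintype B'] (Y : Matrix B B' ℤ)
    (Z : Matrix B' B'' ℤ) : ic A (Y * Z) = ic A Y * ic A Z := Matrix.map_mul

theorem ic_map {A A' : Type*} [CommRing A] [CommRing A'] (φ : A →+* A') {B B' : Type}
    (Y : Matrix B B' ℤ) : (ic A Y).map φ = ic A' Y := by
  ext i j
  simp [ic]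

theorem ic_one (A : Type*) [CommRing A] {B : Type} [DecidableEq B] :
    ic A (1 : Matrix B B ℤ) = 1 := Matrix.map_one _ (map_zero _) (map_one _)

theorem ic_zero (A : Type*) [CommRing A] {B B' : Type} : ic A (0 : Matrix B B' ℤ) = 0 :=
  Matrix.map_zero _ (map_zero _)

theorem ic_add (A : Type*) [CommRing A] {B B' : Type} (Y Z : Matrix B B' ℤ) :
    ic A (Y + Z) = ic A Y + ic A Z := Matrix.map_add _ (map_add _) _ _

theorem HS.int {d : L} {n : ℤ} (h : n ≠ 0 → d = 0) : HS k xx ww d (n : S) := by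
  by_cases hn : n = 0
  · subst hn
    simpa using HS.zero d
  · rw [h hn]
    simpa using HS.const (xx := xx) (ww := ww) (n : k)

section hm
variable {B : Type} [Fintype B] [DecidableEq B]

variable (k xx ww) in
/-- Homogeneous square matrices. -/
def HM (u : B → L) (d : L) (A : Matrix B B S) : Prop := ∀ i j, HS k xx ww (u j + d - u i) (A i j)

variable {u : B → L}

omit [Fintype B] in
theorem HM.one : HM k xx ww u 0 1 := by
  intro i j
  by_cases h : i = j
  · subst h
    simpa using HS.one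
  · simpa [h] using HS.zero _

omit [Fintype B] [DecidableEq B] in
theorem HM.zero (d : L) : HM k xx ww u d 0 := fun _ _ => HS.zero _

omit [Fintype B] [DecidableEq B] in
theorem HM.of_eq {d d' : L} {A : Matrix B B S} (h : HM k xx ww u d A) (e : d = d') :
    HM k xx ww u d' A := e ▸ h

omit [Fintype B] [DecidableEq B] in
theorem HM.add {d : L} {A A' : Matrix B B S} (h : HM k xx ww u d A) (h' : HM k xx ww u d A') :
    HM k xx ww u d (A + A') := fun i j => (h i j).add (h' i j)

omit [Fintype B] [DecidableEq B] in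
theorem HM.neg {d : L} {A : Matrix B B S} (h : HM k xx ww u d A) : HM k xx ww u d (-A) :=
  fun i j => (h i j).neg

omit [Fintype B] [DecidableEq B] in
theorem HM.sub {d : L} {A A' : Matrix B B S} (h : HM k xx ww u d A) (h' : HM k xx ww u d A') :
    HM k xx ww u d (A - A') := fun i j => (h i j).sub (h' i j)

omit [Fintype B] [DecidableEq B] in
theorem HM.smul {d e : L} {A : Matrix B B S} {t : S} (ht : HS k xx ww e t)
    (h : HM k xx ww u d A) : HM k xx ww u (e + d) (t • A) :=
  fun i j => (ht.mul (h i j)).of_eq (by abel)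

omit [DecidableEq B] in
theorem HM.mul {d e : L} {A A' : Matrix B B S} (h : HM k xx ww u d A) (h' : HM k xx ww u e A') :
    HM k xx ww u (d + e) (A * A') :=
  fun i j => HS.sum _ _ fun l _ => ((h i l).mul (h' l j)).of_eq (by abel)

theorem HM.pow {d : L} {A : Matrix B B S} (h : HM k xx ww u d A) (n : ℕ) :
    HM k xx ww u (n • d) (A ^ n) := by
  induction n with
  | zero => simpa using HM.one
  | succ n ih => rw [pow_succ, succ_nsmul]; exact ih.mul h

omit [Fintype B] in
theorem HM.aa {d : L} {A : Matrix B B S} {t : S} (ht : HS k xx ww d t) (h : HM k xx ww u d A) :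
    HM k xx ww u d (aa t A) := ((HM.one.smul ht).of_eq (add_zero _)).sub h

theorem HM.bb {d : L} {A : Matrix B B S} {t : S} (ht : HS k xx ww d t) (h : HM k xx ww u d A) :
    HM k xx ww u (4 • d) (bb t A) :=
  (((((HM.one.smul (ht.pow 4)).of_eq (add_zero _)).add
    ((h.smul (ht.pow 3)).of_eq (by abel))).add
    (((h.pow 2).smul (ht.pow 2)).of_eq (by abel))).add
    (((h.pow 3).smul ht).of_eq (by abel))).add (h.pow 4)

end hm

variable (ww) in
/-- Degree shifts of the four blocks. -/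
def del : Fin 4 → L := ![0, ww 1 - ww 0, ww 2 - ww 0, ww 1 + ww 2 - ww 0 - ww 0]

namespace FD

variable {B : Type} [Fintype B] [DecidableEq B] (D : FD B)

theorem Y5 (A : Type*) [CommRing A] : ic A D.Y ^ 5 = 0 := by
  have := map_pow (Int.castRingHom A).mapMatrix D.Y 5
  rw [pow_five_eq_zero D.a D.Y (fun i j h => (D.hY i j h).1) D.ba, map_zero] at this
  exact this.symm

theorem Z5 (A : Type*) [CommRing A] : ic A D.Z ^ 5 = 0 := by
  have := map_pow (Int.castRingHom A).mapMatrix D.Z 5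
  rw [pow_five_eq_zero D.c D.Z (fun i j h => (D.hZ i j h).2) D.bc, map_zero] at this
  exact this.symm

theorem commute (A : Type*) [CommRing A] : Commute (ic A D.Y) (ic A D.Z) := by
  unfold Commute SemiconjBy
  rw [← ic_mul, ← ic_mul, D.comm]

variable (ww) in
/-- The degrees of the basis. -/
def u (i : B) : L := D.a i • ww 1 + D.c i • ww 2

theorem uY {i j : B} (h : D.Y i j ≠ 0) : D.u ww i = D.u ww j + ww 1 := by
  obtain ⟨h1, h2⟩ := D.hY i j h
  rw [u, u, h1, h2, add_smul, one_smul]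
  abel

theorem uZ {i j : B} (h : D.Z i j ≠ 0) : D.u ww i = D.u ww j + ww 2 := by
  obtain ⟨h1, h2⟩ := D.hZ i j h
  rw [u, u, h1, h2, add_smul, one_smul]
  abel

theorem hmY : HM k xx ww (D.u ww) (ww 1) (ic S D.Y) :=
  fun _ _ => HS.int fun h => by rw [D.uY h, sub_self]

theorem hmZ : HM k xx ww (D.u ww) (ww 2) (ic S D.Z) :=
  fun _ _ => HS.int fun h => by rw [D.uZ h, sub_self]

/-- The matrix over the polynomial ring. -/
noncomputable def DR (s : k) : Matrix (Fin 4 × B) (Fin 4 × B) (RR k) :=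
  DD (C s * X 0) (X 1) (X 2) (ic _ D.Y) (ic _ D.Z)

variable (xx) in
/-- The matrix over S. -/
noncomputable def DS (s : k) : Matrix (Fin 4 × B) (Fin 4 × B) S :=
  DD (algebraMap k S s * xx 0) (xx 1) (xx 2) (ic _ D.Y) (ic _ D.Z)

theorem DR_sq (s : k) : D.DR s * D.DR s = ff s • (1 : Matrix (Fin 4 × B) (Fin 4 × B) (RR k)) :=
  DD_sq _ _ _ (D.commute _) (D.Y5 _) (D.Z5 _)

theorem DR_map (s : k) : (D.DR s).map (aeval xx) = D.DS xx s := by
  have := DD_map (aeval xx : RR k →ₐ[k] S).toRingHom (C s * X 0) (X 1) (X 2) (ic _ D.Y) (ic _ D.Z)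
  rw [ic_map, ic_map] at this
  simpa [DR, DS] using this

theorem blk_hom {s : k} [h : Good xx ww s] (i j : Fin 4) :
    HM k xx ww (D.u ww) (del ww j + ww 0 - del ww i)
      (blk (algebraMap k S s * xx 0) (xx 1) (xx 2) (ic S D.Y) (ic S D.Z) i j) := by
  have ht : HM k xx ww (D.u ww) (ww 0) ((algebraMap k S s * xx 0) • (1 : Matrix B B S)) :=
    (HM.one.smul ((HS.const s).mul (HS.var 0))).of_eq (by abel)
  have a2 := HM.aa (HS.var 1) (D.hmY (k := k) (xx := xx) (ww := ww))
  have a3 := HM.aa (HS.var 2) (D.hmZ (k := k) (xx := xx) (ww := ww))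
  have b2 := HM.bb (HS.var 1) (D.hmY (k := k) (xx := xx) (ww := ww))
  have b3 := HM.bb (HS.var 2) (D.hmZ (k := k) (xx := xx) (ww := ww))
  have r1 : 4 • ww 1 = 2 • ww 0 - ww 1 := by rw [← h.rel1]; abel
  have r2 : 4 • ww 2 = 2 • ww 0 - ww 2 := by rw [← h.rel2]; abel
  rw [r1] at b2
  rw [r2] at b3
  fin_cases i <;> fin_cases j
  · exact ht.of_eq (by simp [del])
  · exact a2.of_eq (by simp [del])
  · exact a3.of_eq (by simp [del])
  · exact HM.zero _
  · exact b2.neg.of_eq (by simp [del]; abel)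
  · exact ht.neg.of_eq (by simp [del])
  · exact HM.zero _
  · exact a3.neg.of_eq (by simp [del])
  · exact b3.of_eq (by simp [del]; abel)
  · exact HM.zero _
  · exact ht.neg.of_eq (by simp [del])
  · exact a2.of_eq (by simp [del])
  · exact HM.zero _
  · exact b3.neg.of_eq (by simp [del]; abel)
  · exact b2.neg.of_eq (by simp [del]; abel)
  · exact ht.of_eq (by simp [del])

variable (xx ww) in
/-- The periodic complex attached to the data. -/
noncomputable def mf (s : k) [Good xx ww s] : MF k xx ww (Fin 4 × B) where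
  D := D.DS xx s
  g p := D.u ww p.2 + del ww p.1
  τ := ww 0
  hom p q := (D.blk_hom p.1 q.1 p.2 q.2).of_eq (by abel)
  sq := by rw [← D.DR_map]; exact sq_of_sq (ww := ww) _ (D.DR_sq s)
  ex := by rw [← D.DR_map]; exact ex_of_sq (ww := ww) _ (D.DR_sq s)
  coex := by rw [← D.DR_map]; exact coex_of_sq (ww := ww) _ (D.DR_sq s)

end FD

theorem isHom_liftL {s : k} [Good xx ww s] [Gd k xx ww] {B B1 : Type} [Fintype B] [DecidableEq B]
    [Fintype B1] [DecidableEq B1] (D1 : FD B1) (D : FD B) (α : Matrix B B1 ℤ)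
    (hα : ∀ i j, α i j ≠ 0 → D.a i = D1.a j ∧ D.c i = D1.c j) :
    IsHom (D1.mf xx ww s).free (D.mf xx ww s).free (liftL (ic S α)) := by
  intro l v hv p
  refine HS.sum _ _ fun j _ => ?_
  have h1 : HS k xx ww (D1.u ww j - D.u ww p.2) (α p.2 j : S) := HS.int fun h => by
    obtain ⟨h1, h2⟩ := hα _ _ h
    rw [FD.u, FD.u, h1, h2, sub_self]
  refine (h1.mul (hv (p.1, j))).of_eq ?_
  simp only [FD.mf]
  abel

theorem FD.ses {s : k} [Good xx ww s] [Gd k xx ww] {B B1 B2 : Type} [Fintype B] [DecidableEq B]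
    [Fintype B1] [DecidableEq B1] [Fintype B2] [DecidableEq B2]
    (D1 : FD B1) (D : FD B) (D2 : FD B2) (α : Matrix B B1 ℤ) (β : Matrix B2 B ℤ)
    (hα : ∀ i j, α i j ≠ 0 → D.a i = D1.a j ∧ D.c i = D1.c j)
    (hβ : ∀ i j, β i j ≠ 0 → D2.a i = D.a j ∧ D2.c i = D.c j)
    (e1 : αᵀ * α = 1) (e2 : β * βᵀ = 1) (e3 : α * αᵀ + βᵀ * β = 1) (e4 : β * α = 0)
    (i1 : D.Y * α = α * D1.Y) (i2 : D.Z * α = α * D1.Z)
    (i3 : D2.Y * β = β * D.Y) (i4 : D2.Z * β = β * D.Z) :
    SES (D1.mf xx ww s).vb.toGrMod (D.mf xx ww s).vb.toGrMod (D2.mf xx ww s).vb.toGrMod := by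
  have f1 := congrArg (ic S) e1
  have f2 := congrArg (ic S) e2
  have f3 := congrArg (ic S) e3
  have f4 := congrArg (ic S) e4
  have j1 := congrArg (ic S) i1
  have j2 := congrArg (ic S) i2
  have j3 := congrArg (ic S) i3
  have j4 := congrArg (ic S) i4
  simp only [ic_mul, ic_one, ic_add, ic_zero] at f1 f2 f3 f4 j1 j2 j3 j4
  refine MF.ses_vb _ _ _ (liftL (ic S α)) (liftL (ic S β)) (isHom_liftL D1 D α hα)
    (isHom_liftL D D2 β hβ) ?_ ?_ ?_ (DD_liftL _ _ _ j1 j2) (DD_liftL _ _ _ j3 j4)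
  · refine Function.LeftInverse.injective (g := liftL (ic S αᵀ)) fun v => cp_ext fun i => ?_
    rw [cp_liftL, cp_liftL, mulVec_mulVec, f1, one_mulVec]
  · intro w
    constructor
    · intro hw
      refine ⟨liftL (ic S αᵀ) w, cp_ext fun i => ?_⟩
      have h0 : ic S β *ᵥ cp w i = 0 := congrArg (fun v => cp v i) hw
      have h1 := congrArg (fun M => M *ᵥ cp w i) f3
      simp only [add_mulVec, one_mulVec, ← mulVec_mulVec, h0, mulVec_zero, add_zero] at h1
      rw [cp_liftL, cp_liftL, h1]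
    · rintro ⟨v, rfl⟩
      refine cp_ext fun i => ?_
      rw [cp_liftL, cp_liftL, mulVec_mulVec, f4, zero_mulVec]
      rfl
  · refine Function.RightInverse.surjective (g := liftL (ic S βᵀ)) fun v => cp_ext fun i => ?_
    rw [cp_liftL, cp_liftL, mulVec_mulVec, f2, one_mulVec]

end Pool.Agent.MP_9d3c7b_al

end

section

namespace Pool.Agent.MP_9d3c7b_al

open MvPolynomial Matrix

universe u

variable {k : Type u} [Field k] {S : Type u} [CommRing S] [Algebra k S] {L : Type} [AddCommGroup L]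
  {xx : Fin 3 → S} {ww : Fin 3 → L}

section koszul
variable {B : Type} [Fintype B] [DecidableEq B]

omit [Fintype B] [DecidableEq B] in
theorem smul_cancel {r : RR k} (hr : r ≠ 0) {m n : B → RR k} (h : r • m = r • n) : m = n := by
  funext i
  have h4 := congrFun h i
  rw [Pi.smul_apply, Pi.smul_apply, smul_eq_mul, smul_eq_mul] at h4
  exact mul_left_cancel₀ hr h4

/-- Setting a variable to zero in a vector. -/
noncomputable def evv (i : Fin 3) (m : B → RR k) : B → RR k := fun b => ev i (m b)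

omit [Fintype B] [DecidableEq B] in
theorem evv_div (i : Fin 3) (m : B → RR k) : ∃ m1, m = evv i m + (X i : RR k) • m1 := by
  choose m1 h using fun b => ev_div i (m b)
  exact ⟨m1, funext h⟩

omit [Fintype B] [DecidableEq B] in
theorem evv_smul (i : Fin 3) (r : RR k) (m : B → RR k) : evv i (r • m) = ev i r • evv i m := by
  funext b
  simp [evv]

omit [Fintype B] [DecidableEq B] in
theorem evv_add (i : Fin 3) (m n : B → RR k) : evv i (m + n) = evv i m + evv i n := by
  funext b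
  simp [evv]

omit [DecidableEq B] in
theorem evv_mulVec (i : Fin 3) (A : Matrix B B (RR k)) (m : B → RR k) :
    evv i (A *ᵥ m) = A.map (ev i) *ᵥ evv i m := by
  funext b
  simp [evv, mulVec, dotProduct]

omit [DecidableEq B] in
theorem reg_pow (i : Fin 3) {t : RR k} (ht : ev i t = t) {A : Matrix B B (RR k)}
    (hA : A.map (ev i) = A) (n : ℕ) (m p q : B → RR k)
    (h : (X i : RR k) ^ n • m = t • p + A *ᵥ q) : ∃ p' q', m = t • p' + A *ᵥ q' := by
  induction n generalizing p q with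
  | zero => exact ⟨p, q, by simpa using h⟩
  | succ n ih =>
    obtain ⟨p1, hp⟩ := evv_div i p
    obtain ⟨q1, hq⟩ := evv_div i q
    have h0 := congrArg (evv i) h
    rw [evv_smul, evv_add, evv_smul, evv_mulVec, ht, hA, map_pow, ev_same, zero_pow n.succ_ne_zero,
      zero_smul] at h0
    refine ih p1 q1 (smul_cancel (X_ne_zero i) ?_)
    rw [smul_smul, ← pow_succ', h]
    conv_lhs => rw [hp, hq]
    rw [smul_add, mulVec_add, mulVec_smul, add_add_add_comm, ← h0, zero_add, smul_add, smul_comm]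

theorem koszul (D : FD B) {s : k} (hs : s ≠ 0) (m0 m1 m2 : B → RR k)
    (h : (C s * X 0 : RR k) • m0 + aa (X 1) (ic (RR k) D.Y) *ᵥ m1 + aa (X 2) (ic (RR k) D.Z) *ᵥ m2 = 0) :
    ∃ p q r : B → RR k,
      m0 = -(aa (X 2) (ic (RR k) D.Z) *ᵥ p) - aa (X 1) (ic (RR k) D.Y) *ᵥ r ∧
      m1 = (C s * X 0 : RR k) • r - aa (X 2) (ic (RR k) D.Z) *ᵥ q ∧
      m2 = (C s * X 0 : RR k) • p + aa (X 1) (ic (RR k) D.Y) *ᵥ q := by
  set t : RR k := C s * X 0 with htdef
  set a2 := aa (X 1) (ic (RR k) D.Y) with ha2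
  set a3 := aa (X 2) (ic (RR k) D.Z) with ha3
  have ht0 : t ≠ 0 := mul_ne_zero (by simpa using hs) (X_ne_zero _)
  have hc := D.commute (RR k)
  have c23 : a2 * a3 = a3 * a2 := (commute_aa _ (commute_aa _ hc.symm).symm).eq
  have cb : bb (X 2) (ic (RR k) D.Z) * a2 = a2 * bb (X 2) (ic (RR k) D.Z) :=
    (commute_bb _ (commute_aa _ hc.symm).symm).eq.symm
  have e2 : a2.map (ev 2) = a2 := by
    have := aa_map (ev 2 : RR k →ₐ[k] RR k).toRingHom (X 1) (ic (RR k) D.Y)
    rw [ic_map] at this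
    simpa [ev_ne (show (1 : Fin 3) ≠ 2 by decide)] using this
  have t2 : ev 2 t = t := by simp [htdef, ev_ne (show (0 : Fin 3) ≠ 2 by decide)]
  have t1 : ev 1 t = t := by simp [htdef, ev_ne (show (0 : Fin 3) ≠ 1 by decide)]
  have h3 : a3 *ᵥ m2 = t • (-m0) + a2 *ᵥ (-m1) := by
    rw [smul_neg, mulVec_neg]
    linear_combination (exp := 1) h
  obtain ⟨p, q, hpq⟩ := reg_pow 2 t2 e2 5 m2 (bb (X 2) (ic (RR k) D.Z) *ᵥ (-m0))
    (bb (X 2) (ic (RR k) D.Z) *ᵥ (-m1)) (by
      rw [mulVec_mulVec, ← cb, ← mulVec_mulVec, ← mulVec_smul, ← mulVec_add, ← h3, mulVec_mulVec,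
        bb_aa _ (D.Z5 _), smul_mulVec, one_mulVec])
  have h4 : a2 *ᵥ (m1 + a3 *ᵥ q) = t • (-(m0 + a3 *ᵥ p)) := by
    rw [hpq, mulVec_add, mulVec_smul, mulVec_mulVec, ← c23, ← mulVec_mulVec] at h
    rw [mulVec_add, smul_neg, smul_add]
    linear_combination (exp := 1) h
  obtain ⟨r, q', hr⟩ := reg_pow 1 t1 (A := 0) (by simp) 5 (m1 + a3 *ᵥ q)
    (bb (X 1) (ic (RR k) D.Y) *ᵥ (-(m0 + a3 *ᵥ p))) 0 (by
      rw [zero_mulVec, add_zero, ← mulVec_smul, ← h4, mulVec_mulVec, bb_aa _ (D.Y5 _),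
        smul_mulVec, one_mulVec])
  rw [zero_mulVec, add_zero] at hr
  refine ⟨p, q, r, ?_, by rw [← hr]; abel, hpq⟩
  rw [hr, mulVec_smul] at h4
  have := smul_cancel ht0 h4
  rw [this]
  abel

end koszul

namespace FD

variable {B : Type} [Fintype B] [DecidableEq B] (D : FD B)

open scoped IsMulCommutative in
theorem exists_rho (s : k) [h : Good xx ww s] : ∃ ρ : S →+* Matrix B B k,
    ρ (xx 0) = 0 ∧ ρ (xx 1) = ic k D.Y ∧ ρ (xx 2) = ic k D.Z ∧
      ∀ a : k, ρ (algebraMap k S a) = a • (1 : Matrix B B k) := by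
  let A := Algebra.adjoin k ({ic k D.Y, ic k D.Z} : Set (Matrix B B k))
  have : IsMulCommutative A := Algebra.isMulCommutative_adjoin k (by
    have := (D.commute k).eq
    rintro x (rfl | rfl) y (rfl | rfl) <;> simp [this])
  let y : A := ⟨ic k D.Y, Algebra.subset_adjoin (by simp)⟩
  let z : A := ⟨ic k D.Z, Algebra.subset_adjoin (by simp)⟩
  let ρ0 : RR k →ₐ[k] Matrix B B k := A.val.comp (aeval ![0, y, z])
  have h0 : ρ0 (X 0) = 0 := by simp [ρ0]
  have h1 : ρ0 (X 1) = ic k D.Y := by simp [ρ0, y]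
  have h2 : ρ0 (X 2) = ic k D.Z := by simp [ρ0, z]
  have hf : ρ0 (ff s) = 0 := by
    simp [ff, h0, h1, h2, D.Y5, D.Z5]
  let q : RR k →+* S := (aeval xx : RR k →ₐ[k] S).toRingHom
  have hq : Function.Surjective q := h.surj
  have hk : RingHom.ker q ≤ RingHom.ker ρ0.toRingHom := by
    intro r hr
    obtain ⟨t, rfl⟩ := (h.ker r).1 hr
    change ρ0 (ff s * t) = 0
    rw [map_mul, hf, zero_mul]
  have hρ : ∀ r, q.liftOfSurjective hq ⟨ρ0.toRingHom, hk⟩ (q r) = ρ0 r :=
    fun r => RingHom.liftOfSurjective_comp_apply q hq ⟨ρ0.toRingHom, hk⟩ r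
  have hX : ∀ i, xx i = q (X i) := fun i => by simp [q]
  refine ⟨q.liftOfSurjective hq ⟨ρ0.toRingHom, hk⟩, by rw [hX, hρ, h0], by rw [hX, hρ, h1],
    by rw [hX, hρ, h2], fun a => ?_⟩
  have : algebraMap k S a = q (C a) := by simp [q]
  rw [this, hρ]
  exact (ρ0.commutes a).trans (Algebra.algebraMap_eq_smul_one a)

variable (xx ww) in
/-- The action of S on the finite-dimensional module. -/
noncomputable def rho (s : k) [Good xx ww s] : S →+* Matrix B B k :=
  (D.exists_rho (xx := xx) (ww := ww) s).choose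

variable {s : k} [Good xx ww s]

theorem rho0 : D.rho xx ww s (xx 0) = 0 :=
  (D.exists_rho (xx := xx) (ww := ww) s).choose_spec.1
theorem rho1 : D.rho xx ww s (xx 1) = ic k D.Y :=
  (D.exists_rho (xx := xx) (ww := ww) s).choose_spec.2.1
theorem rho2 : D.rho xx ww s (xx 2) = ic k D.Z :=
  (D.exists_rho (xx := xx) (ww := ww) s).choose_spec.2.2.1
theorem rhoC (a : k) : D.rho xx ww s (algebraMap k S a) = a • (1 : Matrix B B k) :=
  (D.exists_rho (xx := xx) (ww := ww) s).choose_spec.2.2.2 a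

omit [Good xx ww s] in
theorem mulVec_supp {Y : Matrix B B ℤ} {d : L} (hY : ∀ i j, Y i j ≠ 0 → D.u ww i = D.u ww j + d)
    {l : L} {m : B → k} (hm : ∀ b, D.u ww b ≠ l → m b = 0) (b : B) (hb : D.u ww b ≠ l + d) :
    (ic k Y *ᵥ m) b = 0 := by
  refine Finset.sum_eq_zero fun j _ => ?_
  by_cases h : Y b j = 0
  · simp [ic, h]
  · rw [hm j (fun e => hb (by rw [hY b j h, e])), mul_zero]

variable (xx ww s) in
/-- The finite-dimensional graded module. -/
noncomputable def fin : GrMod k xx ww where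
  car := B → k
  mod := Module.compHom (B → k) (D.rho xx ww s)
  gr l :=
    { carrier := {m | ∀ b, D.u ww b ≠ l → m b = 0}
      add_mem' := fun ha hb b h => by simp [ha b h, hb b h]
      zero_mem' := fun _ _ => rfl
      neg_mem' := fun ha b h => by simp [ha b h] }
  internal := by
    classical
    refine isInternal_of_proj _
      (fun l => AddMonoidHom.pi fun b =>
        if D.u ww b = l then Pi.evalAddMonoidHom (fun _ => k) b else 0) ?_ ?_ ?_
    · intro l m hm
      funext b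
      by_cases h : D.u ww b = l
      · simp [h]
      · simp [h, hm b h]
    · intro l l' m hm hl
      funext b
      by_cases h : D.u ww b = l
      · simp [h, hm b (h ▸ Ne.symm hl)]
      · simp [h]
    · intro m
      rw [← Finset.univ_sum_single m]
      refine AddSubgroup.sum_mem _ fun i _ => AddSubgroup.mem_iSup_of_mem (D.u ww i) fun j hj => ?_
      exact Pi.single_eq_of_ne (fun e => hj (by rw [e])) _
  const_mem a l m hm b h := by
    change (D.rho xx ww s (algebraMap k S a) *ᵥ m) b = 0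
    rw [rhoC, smul_mulVec, one_mulVec, Pi.smul_apply, hm b h, smul_zero]
  var_mem i l m hm b h := by
    change (D.rho xx ww s (xx i) *ᵥ m) b = 0
    fin_cases i
    · simp [rho0]
    · simpa [rho1] using D.mulVec_supp (fun _ _ => D.uY) hm b h
    · simpa [rho2] using D.mulVec_supp (fun _ _ => D.uZ) hm b h

theorem fin_smul (r : S) (m : B → k) :
    r • (show (D.fin xx ww s).car from m) = (D.rho xx ww s r *ᵥ m : B → k) := rfl

theorem mem_fin {l : L} {m : B → k} :
    (show (D.fin xx ww s).car from m) ∈ (D.fin xx ww s).gr l ↔ ∀ b, D.u ww b ≠ l → m b = 0 :=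
  Iff.rfl

variable (xx ww s) in
/-- The projective cover. -/
noncomputable def piM : (B → S) →ₗ[S] (D.fin xx ww s).car :=
  Fintype.linearCombination S (fun b => (Pi.single b 1 : B → k))

theorem piM_apply (v : B → S) :
    D.piM xx ww s v = (∑ b, D.rho xx ww s (v b) *ᵥ Pi.single b 1 : B → k) := rfl

theorem piM_cst (w : B → k) : D.piM xx ww s (fun b => algebraMap k S (w b)) = w := by
  rw [piM_apply]
  funext b
  simp [rhoC, one_apply]

theorem piM_ic {Y : Matrix B B ℤ} {y : S} (hy : D.rho xx ww s y = ic k Y) (v : B → S) :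
    D.piM xx ww s (aa y (ic S Y) *ᵥ v) = 0 := by
  classical
  have h1 : ∀ j, D.piM xx ww s (aa y (ic S Y) *ᵥ Pi.single j 1) = 0 := by
    intro j
    have e1 : ic S Y *ᵥ Pi.single j 1 = fun b => algebraMap k S ((ic k Y *ᵥ Pi.single j 1) b) := by
      funext b
      simp [ic]
    have e2 : (Pi.single j 1 : B → S) = fun b => algebraMap k S ((Pi.single j 1 : B → k) b) := by
      funext b
      by_cases h : b = j <;> simp [h]
    rw [aa, sub_mulVec, smul_mulVec, one_mulVec, map_sub, map_smul, e1, piM_cst]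
    conv_lhs => rw [e2, piM_cst]
    rw [fin_smul, hy]
    exact sub_self _
  have : ∑ i, v i • (Pi.single i 1 : B → S) = v := by
    funext j
    simp [Pi.single_apply]
  rw [← this, mulVec_sum, map_sum]
  refine Finset.sum_eq_zero fun j _ => ?_
  rw [mulVec_smul, map_smul, h1, smul_zero]

variable (xx s) in
/-- The first differential. -/
noncomputable def phi1 : Matrix B (Fin 3 × B) S := fun b q => D.DS xx s (0, b) (q.1.castSucc, q.2)

omit [Good xx ww s] in
theorem phi1_mulVec (w : Fin 3 × B → S) : D.phi1 xx s *ᵥ w =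
    (algebraMap k S s * xx 0) • cp w 0 + aa (xx 1) (ic S D.Y) *ᵥ cp w 1 +
      aa (xx 2) (ic S D.Z) *ᵥ cp w 2 := by
  funext b
  simp [phi1, DS, DD_apply, blk, mulVec, dotProduct, Fintype.sum_prod_type, Fin.sum_univ_three, cp,
    one_apply]

theorem piM_phi1 (w : Fin 3 × B → S) : D.piM xx ww s (D.phi1 xx s *ᵥ w) = 0 := by
  rw [phi1_mulVec, map_add, map_add, D.piM_ic D.rho1, D.piM_ic D.rho2, map_smul, fin_smul, map_mul,
    rho0, mul_zero, zero_mulVec, add_zero, add_zero]
  rfl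

theorem ker_piM (v : B → S) (hv : D.piM xx ww s v = 0) : ∃ w, D.phi1 xx s *ᵥ w = v := by
  classical
  let J : Submodule S (B → S) := LinearMap.range (D.phi1 xx s).mulVecLin
  let cst : (B → k) → (B → S) := fun w b => algebraMap k S (w b)
  have hJ : ∀ v0 v1 v2 : B → S, (algebraMap k S s * xx 0) • v0 + aa (xx 1) (ic S D.Y) *ᵥ v1 +
      aa (xx 2) (ic S D.Z) *ᵥ v2 ∈ J := fun v0 v1 v2 =>
    ⟨fun q => ![v0, v1, v2] q.1 q.2, D.phi1_mulVec _⟩
  have hic : ∀ (Y : Matrix B B ℤ) (w : B → k), cst (ic k Y *ᵥ w) = ic S Y *ᵥ cst w := by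
    intro Y w
    funext b
    simp [cst, ic, mulVec, dotProduct]
  have hX : ∀ i w, xx i • cst w - cst (D.rho xx ww s (xx i) *ᵥ w) ∈ J := by
    intro i w
    fin_cases i
    · have := hJ (algebraMap k S s⁻¹ • cst w) 0 0
      have hs : s ≠ 0 := Good.s_ne (xx := xx) (ww := ww)
      rw [mulVec_zero, mulVec_zero, add_zero, add_zero, smul_smul, mul_right_comm, ← map_mul,
        mul_inv_cancel₀ hs, map_one, one_mul] at this
      have h0 : cst 0 = 0 := by funext b; simp [cst]
      simpa [rho0, h0] using this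
    · have := hJ 0 (cst w) 0
      simpa [rho1, hic, aa, sub_mulVec, smul_mulVec] using this
    · have := hJ 0 0 (cst w)
      simpa [rho2, hic, aa, sub_mulVec, smul_mulVec] using this
  have key : ∀ (r : S) (w : B → k), r • cst w - cst (D.rho xx ww s r *ᵥ w) ∈ J := by
    intro r
    obtain ⟨r, rfl⟩ := Good.surj (xx := xx) (ww := ww) (k := k) r
    induction r using MvPolynomial.induction_on with
    | C a =>
      intro w
      have : algebraMap k S a • cst w - cst (a • w) = 0 := by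
        funext b
        simp [cst, Algebra.smul_def]
      rw [aeval_C, rhoC, smul_mulVec, one_mulVec, this]
      exact zero_mem _
    | add a b ha hb =>
      intro w
      have : cst (D.rho xx ww s (aeval xx a) *ᵥ w + D.rho xx ww s (aeval xx b) *ᵥ w) =
          cst (D.rho xx ww s (aeval xx a) *ᵥ w) + cst (D.rho xx ww s (aeval xx b) *ᵥ w) := by
        funext b
        simp [cst]
      rw [map_add, map_add, add_mulVec, this, add_smul, add_sub_add_comm]
      exact add_mem (ha w) (hb w)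
    | mul_X a i ha =>
      intro w
      have := add_mem (J.smul_mem (aeval xx a) (hX i w)) (ha (D.rho xx ww s (xx i) *ᵥ w))
      rw [smul_sub, sub_add_sub_cancel, smul_smul, mulVec_mulVec] at this
      rw [map_mul, aeval_X, map_mul]
      exact this
  have h1 := J.sum_mem (t := Finset.univ) fun b _ => key (v b) (Pi.single b 1)
  rw [Finset.sum_sub_distrib] at h1
  have h2 : ∑ b, v b • cst (Pi.single b 1) = v := by
    funext j
    simp [cst, Pi.single_apply]
  have h3 : ∑ b, cst (D.rho xx ww s (v b) *ᵥ Pi.single b 1) = 0 := by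
    funext j
    have := congrFun ((D.piM_apply v).symm.trans hv) j
    rw [Finset.sum_apply] at this
    simp only [cst, Finset.sum_apply, ← map_sum, this]
    exact map_zero _
  rw [h2, h3, sub_zero] at h1
  exact h1

variable [Gd k xx ww]

theorem piM_hom (l : L) (v : B → S) (hv : v ∈ (Free k xx ww B (D.u ww)).gr l) :
    D.piM xx ww s v ∈ (D.fin xx ww s).gr (l + 0) := by
  rw [add_zero]
  exact lincomb_mem (N := D.fin xx ww s)
    (fun i j hj => Pi.single_eq_of_ne (fun e => hj (by rw [e])) _) hv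

variable (xx ww s) in
/-- The first syzygy. -/
noncomputable def syz : GrMod k xx ww :=
  (Free k xx ww B (D.u ww)).ker (D.fin xx ww s) (D.piM xx ww s) 0 D.piM_hom

theorem ses1 : SES (D.syz xx ww s) (Free k xx ww B (D.u ww)) (D.fin xx ww s) := by
  refine ⟨(LinearMap.ker (D.piM xx ww s)).subtype, D.piM xx ww s, fun _ _ hm => hm,
    fun l m hm => (add_zero l ▸ D.piM_hom l m hm :), Subtype.val_injective,
    LinearMap.exact_subtype_ker_map _, fun w => ⟨_, D.piM_cst w⟩⟩

theorem ses2 : SES (D.mf xx ww s).vb.toGrMod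
    (Free k xx ww (Fin 3 × B) (fun q => (D.mf xx ww s).g (q.1.castSucc, q.2) + ww 0))
    (D.syz xx ww s) := by
  let α : LinearMap.ker (D.DS xx s).mulVecLin →ₗ[S] (Fin 3 × B → S) :=
    (LinearMap.funLeft S S (fun q : Fin 3 × B => (q.1.castSucc, q.2))) ∘ₗ Submodule.subtype _
  let β : (Fin 3 × B → S) →ₗ[S] LinearMap.ker (D.piM xx ww s) :=
    (D.phi1 xx s).mulVecLin.codRestrict _ D.piM_phi1
  have hs : s ≠ 0 := Good.s_ne (xx := xx) (ww := ww)
  have row0 : ∀ v : Fin 4 × B → S, cp (D.DS xx s *ᵥ v) 0 =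
      D.phi1 xx s *ᵥ (fun q : Fin 3 × B => v (q.1.castSucc, q.2)) := by
    intro v
    rw [phi1_mulVec, DS, DD_mulVec, Fin.sum_univ_four]
    simp [blk, smul_mulVec]
    rfl
  refine ⟨α, β, fun l m hm q => hm _, fun l m hm => ?_, ?_, fun w => ⟨fun hw => ?_, ?_⟩,
    fun w => ?_⟩
  · have := mulVec_mem_Free (d := 0) (A := D.phi1 xx s) (h' := D.u ww) (fun j i =>
      ((D.mf xx ww s).hom (0, j) (i.1.castSucc, i.2)).of_eq (by simp [mf, del])) hm
    rw [add_zero] at this
    exact this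
  · rw [injective_iff_map_eq_zero]
    intro v hv
    have h0 : ∀ i : Fin 3, cp v.1 i.castSucc = 0 := fun i => funext fun b => congrFun hv (i, b)
    have h00 : cp v.1 0 = 0 := h0 0
    have h01 : cp v.1 1 = 0 := h0 1
    have h02 : cp v.1 2 = 0 := h0 2
    have h1 : cp (D.DS xx s *ᵥ v.1) 3 = 0 := congrArg (fun v => cp v 3) v.2
    rw [DS, DD_mulVec, Fin.sum_univ_four, h00, h01, h02] at h1
    simp only [mulVec_zero, zero_add] at h1
    have h3 : cp v.1 3 = 0 := by
      funext b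
      have h2 : algebraMap k S s * xx 0 * cp v.1 3 b = 0 := by
        simpa [blk, smul_mulVec] using congrFun h1 b
      refine x0_reg (xx := xx) (ww := ww) (s := s) _ ?_
      have h4 := congrArg (algebraMap k S s⁻¹ * ·) h2
      simp only [← mul_assoc, ← map_mul, inv_mul_cancel₀ hs, map_one, one_mul, mul_zero] at h4
      exact h4
    refine Subtype.ext (cp_ext fun i => ?_)
    fin_cases i
    exacts [h00, h01, h02, h3]
  · have hw' : D.phi1 xx s *ᵥ w = 0 := congrArg Subtype.val hw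
    choose n hn using fun q => Good.surj (xx := xx) (ww := ww) (k := k) (w q)
    let t : RR k := C s * X 0
    let a2 := aa (X 1) (ic (RR k) D.Y)
    let a3 := aa (X 2) (ic (RR k) D.Z)
    let b2 := bb (X 1) (ic (RR k) D.Y)
    let b3 := bb (X 2) (ic (RR k) D.Z)
    have hlift : ∀ V : Fin 4 × B → RR k, D.DS xx s *ᵥ (fun q => aeval xx (V q)) =
        fun q => aeval xx ((D.DR s *ᵥ V) q) := by
      intro V
      rw [← D.DR_map]
      funext i
      simp [mulVec, dotProduct]
    have hrow : ∀ (V : Fin 4 × B → RR k), cp (D.DR s *ᵥ V) 0 =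
        t • cp V 0 + a2 *ᵥ cp V 1 + a3 *ᵥ cp V 2 ∧
        cp (D.DR s *ᵥ V) 1 = -(b2 *ᵥ cp V 0) - t • cp V 1 - a3 *ᵥ cp V 3 ∧
        cp (D.DR s *ᵥ V) 2 = b3 *ᵥ cp V 0 - t • cp V 2 + a2 *ᵥ cp V 3 := by
      intro V
      simp only [DR, DD_mulVec, Fin.sum_univ_four]
      refine ⟨?_, ?_, ?_⟩ <;> simp [blk, smul_mulVec, neg_mulVec, t, a2, a3, b2, b3, sub_eq_add_neg]
    let N : Fin 4 × B → RR k := fun q => ![cp n 0, cp n 1, cp n 2, 0] q.1 q.2
    have hN : ∀ b, aeval xx ((t • cp n 0 + a2 *ᵥ cp n 1 + a3 *ᵥ cp n 2) b) = 0 := by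
      intro b
      have h1 := congrFun (row0 (fun q => aeval xx (N q))) b
      have h2 : (fun q : Fin 3 × B => aeval xx (N (q.1.castSucc, q.2))) = w := by
        funext q
        obtain ⟨i, b⟩ := q
        fin_cases i <;> exact hn _
      rw [h2, hw', hlift] at h1
      have h3 := congrFun (hrow N).1 b
      exact (congrArg (aeval xx) h3).symm.trans h1
    choose c hc using fun b => (Good.ker (xx := xx) (ww := ww) _).1 (hN b)
    have hc' : t • cp n 0 + a2 *ᵥ cp n 1 + a3 *ᵥ cp n 2 = ff s • c := funext hc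
    obtain ⟨p, q, r, h0, h1, h2⟩ := koszul D hs (cp n 0 - t • c) (cp n 1 + b2 *ᵥ c)
      (cp n 2 - b3 *ᵥ c) (by
        rw [smul_sub, mulVec_add, mulVec_sub, mulVec_mulVec, mulVec_mulVec, aa_bb _ (D.Y5 _),
          aa_bb _ (D.Z5 _), smul_mulVec, smul_mulVec, one_mulVec]
        have : ff s • c = (X 2 ^ 5 : RR k) • c - (X 1 ^ 5 : RR k) • c + t • t • c := by
          rw [ff, add_smul, sub_smul, pow_two, mul_smul]
        rw [this] at hc'
        linear_combination (exp := 1) hc')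
    let V : Fin 4 × B → RR k := fun z => ![c, -r, -p, q] z.1 z.2
    have hV := hrow V
    have v0 : cp V 0 = c := rfl
    have v1 : cp V 1 = -r := rfl
    have v2 : cp V 2 = -p := rfl
    have v3 : cp V 3 = q := rfl
    rw [v0, v1, v2, v3] at hV
    obtain ⟨g0, g1, g2⟩ := hV
    have k0 : cp (D.DR s *ᵥ V) 0 = cp n 0 := by
      rw [g0, mulVec_neg, mulVec_neg]
      linear_combination (exp := 1) -h0
    have k1 : cp (D.DR s *ᵥ V) 1 = cp n 1 := by
      rw [g1, smul_neg]
      linear_combination (exp := 1) -h1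
    have k2 : cp (D.DR s *ᵥ V) 2 = cp n 2 := by
      rw [g2, smul_neg]
      linear_combination (exp := 1) -h2
    refine ⟨⟨D.DS xx s *ᵥ (fun q => aeval xx (V q)), ?_⟩, ?_⟩
    · change D.DS xx s *ᵥ (D.DS xx s *ᵥ _) = 0
      rw [mulVec_mulVec, show D.DS xx s * D.DS xx s = 0 from (D.mf xx ww s).sq, zero_mulVec]
    · funext z
      obtain ⟨i, b⟩ := z
      change (D.DS xx s *ᵥ (fun q => aeval xx (V q))) (i.castSucc, b) = w (i, b)
      rw [hlift, ← hn]
      fin_cases i
      exacts [congrArg (aeval xx) (congrFun k0 b), congrArg (aeval xx) (congrFun k1 b),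
        congrArg (aeval xx) (congrFun k2 b)]
  · rintro ⟨v, rfl⟩
    apply Subtype.ext
    have h1 : cp (D.DS xx s *ᵥ v.1) 0 = 0 := congrArg (fun v => cp v 0) v.2
    exact (row0 v.1).symm.trans h1
  · obtain ⟨v, hv⟩ := D.ker_piM w.1 w.2
    exact ⟨v, Subtype.ext hv⟩

theorem van_vb {I : Type} [Fintype I] (T : MF k xx ww I) (l : L) :
    T.Van (D.fin xx ww s) l ↔ T.Van (D.mf xx ww s).vb.toGrMod (l + T.τ + T.τ) :=
  (MF.van_ses (isLineSum_Free _) D.ses1 l).trans (MF.van_ses (isLineSum_Free _) D.ses2 _)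

theorem one_vb {I : Type} [Fintype I] (T : MF k xx ww I) (l : L)
    (h : T.One (D.fin xx ww s) l) : T.One (D.mf xx ww s).vb.toGrMod (l + T.τ + T.τ) :=
  MF.one_ses (isLineSum_Free _) D.ses2 _ (MF.one_ses (isLineSum_Free _) D.ses1 l h)

end FD

end Pool.Agent.MP_9d3c7b_al

end
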