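import Pool.Agent.MP_9d3c7b_al.Br.CatPf
import Pool.Agent.Mg.F9d3c7bp.G5b6f3f
import Pool.Agent.MP_9d3c7b_al.Br.Coh

section

/-! Modules of finite length and Cohen-Macaulay modules. -/

namespace Pool.Agent.MP_9d3c7b_al

open MvPolynomial

universe u

variable {k : Type u} [Field k] {S : Type u} [CommRing S] [Algebra k S] {L : Type} [AddCommGroup L]
  {xx : Fin 3 → S} {ww : Fin 3 → L}

/-- Cohen-Macaulay modules, concretely. -/
structure CM (xx : Fin 3 → S) (M : Type u) [AddCommGroup M] [Module S M] : Prop where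
  reg : ∀ m : M, xx 0 • m = 0 → m = 0
  div : ∀ a b : M, xx 1 • a = xx 0 • b → ∃ c, a = xx 0 • c

section
variable {M : Type u} [AddCommGroup M] [Module S M]

theorem cm_iff : CM xx M ↔ RingTheory.Sequence.IsWeaklyRegular M [xx 0, xx 1] := by
  rw [RingTheory.Sequence.isWeaklyRegular_cons_iff, RingTheory.Sequence.isWeaklyRegular_cons_iff,
    isSMulRegular_iff_right_eq_zero_of_smul, isSMulRegular_iff_right_eq_zero_of_smul]
  have key : ∀ m : M, (Submodule.Quotient.mk m : QuotSMulTop (xx 0) M) = 0 ↔ ∃ c, m = xx 0 • c :=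
    fun m => by
      rw [Submodule.Quotient.mk_eq_zero, Submodule.mem_smul_pointwise_iff_exists]
      exact ⟨fun ⟨c, _, h⟩ => ⟨c, h.symm⟩, fun ⟨c, h⟩ => ⟨c, trivial, h.symm⟩⟩
  refine ⟨fun h => ⟨h.reg, fun m hm => ?_, RingTheory.Sequence.IsWeaklyRegular.nil _ _⟩,
    fun h => ⟨h.1, fun a b hab => (key a).1 (h.2.1 _ ((key _).2 ⟨b, hab⟩))⟩⟩
  obtain ⟨m, rfl⟩ := Submodule.Quotient.mk_surjective _ m
  obtain ⟨c, hc⟩ := (key _).1 hm
  exact (key m).2 (h.div m c hc)

theorem reg_pow' {x : S} (h : ∀ m : M, x • m = 0 → m = 0) (n : ℕ) (m : M) (hm : x ^ n • m = 0) :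
    m = 0 := by
  induction n generalizing m with
  | zero => simpa using hm
  | succ n ih => exact h _ (ih _ (by rw [smul_smul, ← pow_succ, hm]))

theorem CM.div1 (h : CM xx M) (n : ℕ) (a b : M) (hab : xx 1 ^ n • a = xx 0 • b) :
    ∃ c, a = xx 0 • c := by
  induction n generalizing a with
  | zero => exact ⟨b, by simpa using hab⟩
  | succ n ih =>
    obtain ⟨c, hc⟩ := ih (xx 1 • a) (by rw [smul_smul, ← pow_succ, hab])
    exact h.div a c hc

theorem CM.div_pow (h : CM xx M) (n j : ℕ) (a b : M) (hab : xx 1 ^ n • a = xx 0 ^ j • b) :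
    ∃ c, a = xx 0 ^ j • c := by
  induction j generalizing a with
  | zero => exact ⟨a, by simp⟩
  | succ j ih =>
    obtain ⟨c, rfl⟩ := h.div1 n a (xx 0 ^ j • b) (by rw [hab, smul_smul, pow_succ'])
    obtain ⟨e, rfl⟩ := ih c (sub_eq_zero.1 (h.reg _ (by
      rw [smul_sub, smul_comm, hab, smul_smul, pow_succ', sub_self])))
    exact ⟨e, by rw [smul_smul, pow_succ']⟩

end

theorem prS_aeval [Gd k xx ww] (d : L) (r : RR k) :
    prS k xx ww d (aeval xx r) = aeval xx (weightedHomogeneousComponent ww d r) := by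
  induction r using MvPolynomial.induction_on' with
  | monomial e a =>
    have h := isWeightedHomogeneous_monomial ww e a rfl
    by_cases hd : d = Finsupp.weight ww e
    · subst hd
      rw [h.weightedHomogeneousComponent_same]
      exact (SGr k xx ww).pr_same (HS.of_poly h)
    · rw [h.weightedHomogeneousComponent_ne d hd, map_zero]
      exact (SGr k xx ww).pr_ne (HS.of_poly h) (Ne.symm hd)
  | add p q hp hq => simp only [map_add, hp, hq]

theorem weight_eq (e : Fin 3 →₀ ℕ) :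
    Finsupp.weight ww e = e 0 • ww 0 + e 1 • ww 1 + e 2 • ww 2 := by
  rw [Finsupp.weight_apply, Finsupp.sum_fintype _ _ (by simp), Fin.sum_univ_three]

variable {s : k} [hG : Good xx ww s] [Gd k xx ww]

include hG

theorem HS.exists_poly {d : L} {t : S} (ht : HS k xx ww d t) :
    ∃ r : RR k, r.IsWeightedHomogeneous ww d ∧ aeval xx r = t := by
  obtain ⟨r, rfl⟩ := hG.surj t
  exact ⟨_, weightedHomogeneousComponent_isWeightedHomogeneous d r,
    (prS_aeval d r).symm.trans ((SGr k xx ww).pr_same ht)⟩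

theorem HS.neg_var {i : Fin 3} {t : S} (ht : HS k xx ww (-ww i) t) : t = 0 := by
  obtain ⟨r, hr, rfl⟩ := ht.exists_poly
  have : r = 0 := by
    ext e
    by_contra he
    have h := hr he
    rw [weight_eq] at h
    have h2 := hG.sep (e 0 + if i = 0 then 1 else 0) (e 1 + if i = 1 then 1 else 0)
      (e 2 + if i = 2 then 1 else 0) (by
        simp only [add_smul, natCast_zsmul]
        rw [← eq_neg_iff_add_eq_zero.1 h]
        fin_cases i <;> simp <;> abel)
    fin_cases i <;> simp at h2 <;> omega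
  rw [this, map_zero]

theorem nilp (M : GrMod k xx ww) (h : IsFiniteLength S M.car) (i : Fin 3) (m : M.car) :
    ∃ n : ℕ, xx i ^ n • m = 0 := by
  have := (isFiniteLength_iff_isNoetherian_isArtinian.1 h).2
  refine AddSubgroup.iSup_induction M.gr (C := fun m => ∃ n : ℕ, xx i ^ n • m = 0)
    (M.mem_iSup m) (fun d m hm => ?_) ⟨0, smul_zero _⟩ ?_
  · obtain ⟨n, ⟨_, t, rfl⟩, hy⟩ := IsArtinian.exists_pow_succ_smul_dvd (xx i)
      (⟨m, 1, one_smul _ _⟩ : LinearMap.range (LinearMap.toSpanSingleton S M.car m))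
    have h1 : xx i ^ (n + 1) • t • m = xx i ^ n • m := congrArg Subtype.val hy
    have h2 := pr_smul_gen M (((HS.var i).pow (n + 1)) M d m hm) (d + n • ww i) t
    rw [smul_comm, h1, M.pr_same (((HS.var i).pow n) M d m hm),
      HS.neg_var (i := i) ((prS_HS _ t).of_eq (by rw [succ_nsmul]; abel)), zero_smul] at h2
    exact ⟨n, h2⟩
  · rintro a b ⟨n, ha⟩ ⟨n', hb⟩
    exact ⟨n + n', by
      rw [smul_add, pow_add, mul_smul, mul_smul, hb, smul_comm, ha, smul_zero, smul_zero, add_zero]⟩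

theorem nilp2 (M : GrMod k xx ww) (h : IsFiniteLength S M.car) (m : M.car) :
    ∃ n : ℕ, xx 0 ^ n • m = 0 ∧ xx 1 ^ n • m = 0 := by
  obtain ⟨n, ha⟩ := nilp M h 0 m
  obtain ⟨n', hb⟩ := nilp M h 1 m
  exact ⟨n' + n, by rw [pow_add, mul_smul, ha, smul_zero],
    by rw [add_comm, pow_add, mul_smul, hb, smul_zero]⟩

omit hG in
/-- Extension of maps into a Cohen-Macaulay module. -/
theorem CM.extend {X Y N : GrMod k xx ww} (hN : CM xx N.car) {σ : X.car →ₗ[S] Y.car}
    (hσ : IsHom X Y σ) (h1 : ∀ x, σ x = 0 → ∃ n : ℕ, xx 0 ^ n • x = 0)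
    (h2 : ∀ y, ∃ (n : ℕ) (a b : X.car), xx 0 ^ n • y = σ a ∧ xx 1 ^ n • y = σ b)
    {f : X.car →ₗ[S] N.car} (hf : IsHom X N f) :
    ∃ g : Y.car →ₗ[S] N.car, IsHom Y N g ∧ ∀ x, g (σ x) = f x := by
  have h0 : ∀ x, σ x = 0 → f x = 0 := fun x hx => by
    obtain ⟨n, hn⟩ := h1 x hx
    exact reg_pow' hN.reg n _ (by rw [← map_smul, hn, map_zero])
  let R : Y.car → N.car → Prop := fun y c =>
    ∃ (n : ℕ) (a : X.car), xx 0 ^ n • y = σ a ∧ f a = xx 0 ^ n • c
  have uniq : ∀ {y c c'}, R y c → R y c' → c = c' := by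
    rintro y c c' ⟨n, a, ha, hc⟩ ⟨n', a', ha', hc'⟩
    have := h0 (xx 0 ^ n' • a - xx 0 ^ n • a') (by
      rw [map_sub, map_smul, map_smul, ← ha, ← ha', smul_comm, sub_self])
    rw [map_sub, map_smul, map_smul, hc, hc', smul_comm, ← smul_sub, ← smul_sub] at this
    exact sub_eq_zero.1 (reg_pow' hN.reg _ _ (reg_pow' hN.reg _ _ this))
  have ex : ∀ y, ∃ c, R y c := fun y => by
    obtain ⟨n, a, b, ha, hb⟩ := h2 y
    have := h0 (xx 1 ^ n • a - xx 0 ^ n • b) (by
      rw [map_sub, map_smul, map_smul, ← ha, ← hb, smul_comm, sub_self])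
    rw [map_sub, map_smul, map_smul, sub_eq_zero] at this
    obtain ⟨c, hc⟩ := hN.div_pow n n _ _ this
    exact ⟨c, n, a, ha, hc⟩
  choose g hg using ex
  refine ⟨⟨⟨g, fun y y' => uniq (hg _) ?_⟩, fun t y => uniq (hg _) ?_⟩, fun l y hy => ?_,
    fun x => uniq (hg _) ⟨0, x, by simp, by simp⟩⟩
  · obtain ⟨n, a, ha, hc⟩ := hg y
    obtain ⟨n', a', ha', hc'⟩ := hg y'
    refine ⟨n + n', xx 0 ^ n' • a + xx 0 ^ n • a', ?_, ?_⟩
    · rw [map_add, map_smul, map_smul, ← ha, ← ha', smul_smul, smul_smul, ← pow_add, ← pow_add,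
        add_comm n', smul_add]
    · rw [map_add, map_smul, map_smul, hc, hc', smul_smul, smul_smul, ← pow_add, ← pow_add,
        add_comm n', smul_add]
  · obtain ⟨n, a, ha, hc⟩ := hg y
    exact ⟨n, t • a, by rw [map_smul, ← ha, smul_comm], by rw [map_smul, hc, smul_comm]; rfl⟩
  · obtain ⟨n, a, ha, hc⟩ := hg y
    have hp := (HS.var (k := k) (xx := xx) (ww := ww) 0).pow n
    have : g y = N.pr l (g y) := uniq (hg y) ⟨n, X.pr (l + n • ww 0) a,
      by rw [← hσ.pr, ← ha, hp.pr, Y.pr_same hy], by rw [← hf.pr, hc, hp.pr]⟩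
    change g y ∈ _
    rw [this]
    exact N.pr_mem _ _

end Pool.Agent.MP_9d3c7b_al

end

section

/-! The coordinate ring is a graded factorial domain. -/

namespace Pool.Agent.MP_9d3c7b_al

open MvPolynomial

universe u

variable {k : Type u} [Field k] {S : Type u} [CommRing S] [Algebra k S] {L : Type} [AddCommGroup L]
  {xx : Fin 3 → S} {ww : Fin 3 → L}

theorem ff_prime {s : k} (hs : s ≠ 0) : Prime (ff s) := by
  let g : MvPolynomial (Fin 2) k := C (s⁻¹ ^ 2) * (X 1 ^ 5 - X 0 ^ 5)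
  have hu : IsUnit (C (s⁻¹ ^ 2) : RR k) := (IsUnit.mk0 _ (pow_ne_zero _ (inv_ne_zero hs))).map C
  have e : finSuccEquiv k 2 (C (s⁻¹ ^ 2) * ff s) = Polynomial.X ^ 2 + Polynomial.C g := by
    have e1 : finSuccEquiv k 2 (X 1) = Polynomial.C (X 0) := finSuccEquiv_X_succ (j := 0)
    have e2 : finSuccEquiv k 2 (X 2) = Polynomial.C (X 1) := finSuccEquiv_X_succ (j := 1)
    have e3 : ∀ a : k, finSuccEquiv k 2 (C a) = Polynomial.C (C a) := fun a =>
      (finSuccEquiv k 2).commutes a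
    have e4 : (Polynomial.C (C s⁻¹) * Polynomial.C (C s) : Polynomial (MvPolynomial (Fin 2) k)) =
        1 := by rw [← map_mul, ← map_mul, inv_mul_cancel₀ hs, map_one, map_one]
    simp only [ff, g, map_mul, map_add, map_sub, map_pow, e1, e2, e3, finSuccEquiv_X_zero]
    linear_combination (Polynomial.X ^ 2 * (Polynomial.C (C s⁻¹) * Polynomial.C (C s) + 1)) * e4
  have hi : Irreducible (Polynomial.X ^ 2 + Polynomial.C g) := by
    rw [(Polynomial.monic_X_pow_add_C g two_ne_zero).irreducible_iff_roots_eq_zero_of_degree_le_three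
      (by rw [Polynomial.natDegree_X_pow_add_C]) (by rw [Polynomial.natDegree_X_pow_add_C]; omega)]
    refine Multiset.eq_zero_of_forall_notMem fun r hr => ?_
    have h1 := congrArg (aeval (![Polynomial.X, 0] : Fin 2 → Polynomial k))
      (Polynomial.isRoot_of_mem_roots hr)
    simp only [Polynomial.eval_add, Polynomial.eval_pow, Polynomial.eval_X, Polynomial.eval_C, g,
      map_add, map_pow, map_mul, map_sub, aeval_X, aeval_C, map_zero] at h1
    have h2 : aeval (![Polynomial.X, 0] : Fin 2 → Polynomial k) r ^ 2 =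
        Polynomial.C (s⁻¹ ^ 2) * Polynomial.X ^ 5 := by
      rw [map_pow]
      simp at h1
      linear_combination h1
    have h3 := congrArg Polynomial.natDegree h2
    rw [Polynomial.natDegree_pow, Polynomial.natDegree_C_mul_X_pow _ _
      (pow_ne_zero _ (inv_ne_zero hs))] at h3
    omega
  rw [← e, MulEquiv.irreducible_iff, irreducible_isUnit_mul hu] at hi
  exact hi.prime

theorem good_domain (s : k) [h : Good xx ww s] : IsDomain S := by
  have hp := ff_prime h.s_ne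
  have : Nontrivial S := ⟨1, 0, fun e => hp.not_dvd_one ((h.ker 1).1 (by rw [map_one, e]))⟩
  have : NoZeroDivisors S := ⟨fun {a b} hab => by
    obtain ⟨a, rfl⟩ := h.surj a
    obtain ⟨b, rfl⟩ := h.surj b
    exact (hp.dvd_or_dvd ((h.ker _).1 (by rw [map_mul, hab]))).imp (h.ker a).2 (h.ker b).2⟩
  exact NoZeroDivisors.to_isDomain S

theorem good_noeth (s : k) [h : Good xx ww s] : IsNoetherianRing S :=
  isNoetherianRing_of_surjective (RR k) S (aeval xx : RR k →ₐ[k] S).toRingHom h.surj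

theorem mono_form {Q : Type u} [CommRing Q] (u b : Fin 3 → Q) (T : Q)
    (h0 : u 0 ^ 2 = b 0 * T) (h1 : u 1 ^ 5 = b 1 * T) (h2 : u 2 ^ 5 = b 2 * T) (e : Fin 3 → ℕ) :
    ∏ i, u i ^ e i = u 0 ^ (e 0 % 2) * u 1 ^ (e 1 % 5) * u 2 ^ (e 2 % 5) *
      (b 0 ^ (e 0 / 2) * b 1 ^ (e 1 / 5) * b 2 ^ (e 2 / 5)) * T ^ (e 0 / 2 + e 1 / 5 + e 2 / 5) := by
  rw [Fin.prod_univ_three]
  conv_lhs => rw [← Nat.div_add_mod (e 0) 2, ← Nat.div_add_mod (e 1) 5, ← Nat.div_add_mod (e 2) 5]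
  simp only [pow_add, pow_mul, h0, h1, h2, mul_pow]
  ring

theorem vanish {s : k} [hG : Good xx ww s] {Q : Type u} [CommRing Q] [Algebra k Q] (u : Fin 3 → Q)
    (a : Fin 3 → k) (T : Q) (hz : ∀ i, a i = 0 → u i = 0)
    (h0 : u 0 ^ 2 = algebraMap k Q (a 0) ^ 2 * T) (h1 : u 1 ^ 5 = algebraMap k Q (a 1) ^ 5 * T)
    (h2 : u 2 ^ 5 = algebraMap k Q (a 2) ^ 5 * T) {d : L} {r : RR k}
    (hr : r.IsWeightedHomogeneous ww d) (ha : aeval a r = 0) : aeval u r = 0 := by
  let c : Fin 3 → Q := fun i => algebraMap k Q (a i)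
  let b : Fin 3 → Q := ![c 0 ^ 2, c 1 ^ 5, c 2 ^ 5]
  have key : ∀ e ∈ r.support, ∀ e' ∈ r.support,
      (∏ i, c i ^ e' i) * ∏ i, u i ^ e i = (∏ i, c i ^ e i) * ∏ i, u i ^ e' i := by
    intro e he e' he'
    have h := (hr (mem_support_iff.1 he)).trans (hr (mem_support_iff.1 he')).symm
    rw [weight_eq, weight_eq] at h
    obtain ⟨h3, h4⟩ := hG.sep (e 0 - e' 0) (e 1 - e' 1) (e 2 - e' 2) (by
      simp only [sub_smul, natCast_zsmul]
      rw [← sub_eq_zero.2 h]
      abel)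
    rw [mono_form u b T h0 h1 h2, mono_form u b T h0 h1 h2,
      mono_form c b 1 (mul_one _).symm (mul_one _).symm (mul_one _).symm,
      mono_form c b 1 (mul_one _).symm (mul_one _).symm (mul_one _).symm,
      show e 0 % 2 = e' 0 % 2 by omega, show e 1 % 5 = e' 1 % 5 by omega,
      show e 2 % 5 = e' 2 % 5 by omega,
      show e 0 / 2 + e 1 / 5 + e 2 / 5 = e' 0 / 2 + e' 1 / 5 + e' 2 / 5 by omega]
    ring
  by_cases hc : ∃ e' ∈ r.support, ∏ i, a i ^ e' i ≠ 0
  · obtain ⟨e', he', hne⟩ := hc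
    have hu : IsUnit (∏ i, c i ^ e' i) := by
      simpa [c] using (IsUnit.mk0 _ hne).map (algebraMap k Q)
    have h5 := congrArg (algebraMap k Q) ha
    rw [aeval_def, eval₂_eq', map_sum, map_zero] at h5
    rw [← hu.mul_right_eq_zero, aeval_def, eval₂_eq', Finset.mul_sum, ← zero_mul (∏ i, u i ^ e' i),
      ← h5, Finset.sum_mul]
    refine Finset.sum_congr rfl fun e he => ?_
    rw [mul_left_comm, key e he e' he', map_mul, map_prod, mul_assoc]
    simp [c]
  · rw [aeval_def, eval₂_eq']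
    refine Finset.sum_eq_zero fun e he => ?_
    have h5 : ∏ i, a i ^ e i = 0 := by_contra fun h => hc ⟨e, he, h⟩
    obtain ⟨i, -, hi⟩ := Finset.prod_eq_zero_iff.1 h5
    rw [Finset.prod_eq_zero (Finset.mem_univ i)
      (by rw [hz i (pow_eq_zero_iff'.1 hi).1, zero_pow (pow_eq_zero_iff'.1 hi).2]), mul_zero]

theorem exists_pi {s : k} [hG : Good xx ww s] (a : Fin 3 → k) (ha : ∃ i, a i ≠ 0)
    (hf : aeval a (ff s) = 0) : ∃ (π : S) (d : L), HS k xx ww d π ∧ π ≠ 0 ∧ ¬ IsUnit π ∧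
      ∀ (l : L) (r : RR k), r.IsWeightedHomogeneous ww l → aeval a r = 0 → π ∣ aeval xx r := by
  have hs := hG.s_ne
  have ne : ∀ ρ : RR k, aeval (![0, 1, 1] : Fin 3 → k) ρ ≠ 0 → aeval xx ρ ≠ 0 := fun ρ h h' => by
    obtain ⟨q, rfl⟩ := (hG.ker ρ).1 h'
    simp [ff] at h
  have hx : xx 2 ^ 5 - xx 1 ^ 5 + (algebraMap k S s * xx 0) ^ 2 = 0 := by
    simpa [ff] using (hG.ker _).2 dvd_rfl
  have hb : a 2 ^ 5 - a 1 ^ 5 + (s * a 0) ^ 2 = 0 := by simpa [ff] using hf
  have hc := congrArg (algebraMap k S) hb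
  simp only [map_add, map_sub, map_pow, map_mul, map_zero] at hc
  have inv : ∀ {b : k}, b ≠ 0 → algebraMap k S b * algebraMap k S b⁻¹ = 1 := fun hb => by
    rw [← map_mul, mul_inv_cancel₀ hb, map_one]
  suffices H : ∃ (ρ : RR k) (d : L) (t : S), ρ.IsWeightedHomogeneous ww d ∧ aeval xx ρ ≠ 0 ∧
      aeval a ρ = 0 ∧ (∀ i, a i = 0 → aeval xx ρ ∣ xx i) ∧
      aeval xx ρ ∣ xx 0 ^ 2 - algebraMap k S (a 0) ^ 2 * t ∧
      aeval xx ρ ∣ xx 1 ^ 5 - algebraMap k S (a 1) ^ 5 * t ∧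
      aeval xx ρ ∣ xx 2 ^ 5 - algebraMap k S (a 2) ^ 5 * t by
    obtain ⟨ρ, d, t, h1, h2, h3, h4, h5, h6, h7⟩ := H
    refine ⟨_, d, HS.of_poly h1, h2, fun hu => ?_, fun l r hr hr0 => ?_⟩
    · obtain ⟨τ, hτ⟩ := hu.exists_right_inv
      obtain ⟨τ, rfl⟩ := hG.surj τ
      obtain ⟨q, hq⟩ := (hG.ker (ρ * τ - 1)).1 (by rw [map_sub, map_mul, hτ, map_one, sub_self])
      have := congrArg (aeval a) hq
      rw [map_sub, map_mul, map_mul, h3, hf, map_one] at this
      simp at this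
    · let φ := Ideal.Quotient.mkₐ k (Ideal.span {aeval xx ρ})
      have hφ : ∀ {y}, aeval xx ρ ∣ y ↔ φ y = 0 :=
        Ideal.mem_span_singleton.symm.trans Ideal.Quotient.eq_zero_iff_mem.symm
      rw [hφ, map_sub, map_mul, map_pow, map_pow, AlgHom.commutes, sub_eq_zero] at h5 h6 h7
      rw [hφ, ← AlgHom.comp_apply, comp_aeval]
      exact vanish (hG := hG) _ a (φ t) (fun i hi => hφ.1 (h4 i hi)) h5 h6 h7 hr hr0
  by_cases h0 : a 0 = 0
  · have h1 : a 1 ≠ 0 := fun h1 => by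
      obtain ⟨i, hi⟩ := ha
      have h2 : a 2 = 0 := by simpa [h0, h1] using hb
      fin_cases i <;> contradiction
    have h2 : a 2 ≠ 0 := fun h2 => h1 (by simpa [h0, h2] using hb)
    have := inv h1
    rw [h0, map_zero] at hc
    refine ⟨X 0, _, xx 1 ^ 5 * algebraMap k S (a 1)⁻¹ ^ 5, isWeightedHomogeneous_X k _ 0,
      fun h => ?_, by simp [h0], fun i hi => ?_, ⟨xx 0, ?_⟩, ⟨0, ?_⟩,
      ⟨-algebraMap k S s ^ 2 * xx 0, ?_⟩⟩
    · have := good_domain (xx := xx) (ww := ww) s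
      exact one_ne_zero (x0_reg (xx := xx) (ww := ww) (s := s) 1 (by simpa using h))
    · fin_cases i
      · simp
      · contradiction
      · contradiction
    · rw [h0, map_zero, aeval_X]; ring
    · rw [mul_left_comm, ← mul_pow, this]; ring
    · rw [aeval_X, show algebraMap k S (a 2) ^ 5 = algebraMap k S (a 1) ^ 5 by
        linear_combination hc, mul_left_comm, ← mul_pow, this]
      linear_combination hx
  have i0 : algebraMap k S (a 0) ^ 2 * algebraMap k S (a 0)⁻¹ ^ 2 = 1 := by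
    rw [← mul_pow, inv h0, one_pow]
  by_cases h1 : a 1 = 0
  · have h2 : a 2 ≠ 0 := fun h2 => h0 (by simpa [h1, h2, hs] using hb)
    rw [h1, map_zero] at hc
    refine ⟨X 1, _, xx 0 ^ 2 * algebraMap k S (a 0)⁻¹ ^ 2, isWeightedHomogeneous_X k _ 1,
      ne _ (by simp), by simp [h1], fun i hi => ?_, ⟨0, ?_⟩, ⟨xx 1 ^ 4, ?_⟩, ⟨xx 1 ^ 4, ?_⟩⟩
    · fin_cases i
      · contradiction
      · simp
      · contradiction
    · linear_combination (-xx 0 ^ 2) * i0
    · rw [h1, map_zero, aeval_X]; ring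
    · rw [aeval_X]
      linear_combination hx - xx 0 ^ 2 * algebraMap k S (a 0)⁻¹ ^ 2 * hc +
        algebraMap k S s ^ 2 * xx 0 ^ 2 * i0
  by_cases h2 : a 2 = 0
  · rw [h2, map_zero] at hc
    refine ⟨X 2, _, xx 0 ^ 2 * algebraMap k S (a 0)⁻¹ ^ 2, isWeightedHomogeneous_X k _ 2,
      ne _ (by simp), by simp [h2], fun i hi => ?_, ⟨0, ?_⟩, ⟨xx 2 ^ 4, ?_⟩, ⟨xx 2 ^ 4, ?_⟩⟩
    · fin_cases i
      · contradiction
      · contradiction
      · simp
    · linear_combination (-xx 0 ^ 2) * i0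
    · rw [aeval_X]
      linear_combination -hx + xx 0 ^ 2 * algebraMap k S (a 0)⁻¹ ^ 2 * hc -
        algebraMap k S s ^ 2 * xx 0 ^ 2 * i0
    · rw [h2, map_zero, aeval_X]; ring
  refine ⟨C (a 1 ^ 5) * X 0 ^ 2 - C (a 0 ^ 2) * X 1 ^ 5, 2 • ww 0,
    xx 0 ^ 2 * algebraMap k S (a 0)⁻¹ ^ 2, ?_, ne _ (by simpa using h0), by simp [mul_comm],
    fun i hi => ?_, ⟨0, ?_⟩, ⟨-algebraMap k S (a 0)⁻¹ ^ 2, ?_⟩, ⟨-algebraMap k S (a 0)⁻¹ ^ 2, ?_⟩⟩
  · refine IsWeightedHomogeneous.sub (((isWeightedHomogeneous_X k _ 0).pow _).C_mul _) ?_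
    rw [← hG.rel1]
    exact ((isWeightedHomogeneous_X k _ 1).pow _).C_mul _
  · fin_cases i <;> contradiction
  · linear_combination (-xx 0 ^ 2) * i0
  · simp only [map_sub, map_mul, map_pow, aeval_X, aeval_C]
    linear_combination (-xx 1 ^ 5) * i0
  · simp only [map_sub, map_mul, map_pow, aeval_X, aeval_C]
    linear_combination hx - xx 1 ^ 5 * i0 - xx 0 ^ 2 * algebraMap k S (a 0)⁻¹ ^ 2 * hc +
      algebraMap k S s ^ 2 * xx 0 ^ 2 * i0

theorem finLen_quot {s : k} [hG : Good xx ww s] (J : Ideal S) (h : ∀ i, xx i ∈ J.radical) :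
    IsFiniteLength S (S ⧸ J) := by
  have := good_noeth (xx := xx) (ww := ww) s
  have hs : Function.Surjective ((Ideal.Quotient.mkₐ k J).comp (aeval xx)) :=
    (Ideal.Quotient.mkₐ_surjective k J).comp hG.surj
  have : Algebra.FiniteType k (S ⧸ J) := Algebra.FiniteType.of_surjective _ hs
  have : Algebra.IsIntegral k (S ⧸ J) := ⟨fun y => by
    obtain ⟨r, rfl⟩ := hs y
    induction r using MvPolynomial.induction_on with
    | C a => rw [algHom_C]; exact isIntegral_algebraMap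
    | add a b ha hb => rw [map_add]; exact ha.add hb
    | mul_X a i ha =>
      obtain ⟨n, hn⟩ := h i
      rw [map_mul]
      refine ha.mul ⟨Polynomial.X ^ n, Polynomial.monic_X_pow n, ?_⟩
      simpa [← map_pow] using Ideal.Quotient.eq_zero_iff_mem.2 hn⟩
  have : Module.Finite k (S ⧸ J) := Algebra.IsIntegral.finite
  exact isFiniteLength_iff_isNoetherian_isArtinian.2
    ⟨inferInstance, isArtinian_of_tower k inferInstance⟩

/-- A graded ideal has finite colength or lies in a proper principal graded ideal. -/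
theorem dichotomy [IsAlgClosed k] {s : k} [hG : Good xx ww s] [Gd k xx ww] (J : Ideal S) :
    IsFiniteLength S (S ⧸ J) ∨ ∃ (π : S) (d : L), HS k xx ww d π ∧ π ≠ 0 ∧ ¬ IsUnit π ∧
      ∀ l, ∀ y ∈ J, HS k xx ww l y → π ∣ y := by
  by_cases h : ∃ a ∈ zeroLocus k (J.comap (aeval xx : RR k →ₐ[k] S)), ∃ i, a i ≠ 0
  · obtain ⟨a, ha, hi⟩ := h
    obtain ⟨π, d, h1, h2, h3, h4⟩ := exists_pi (hG := hG) a hi
      (ha _ (by rw [Ideal.mem_comap, (hG.ker _).2 dvd_rfl]; exact zero_mem _))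
    refine Or.inr ⟨π, d, h1, h2, h3, fun l y hy hl => ?_⟩
    obtain ⟨r, hr, rfl⟩ := hl.exists_poly
    exact h4 l r hr (ha r hy)
  · refine Or.inl (finLen_quot (hG := hG) J fun i => ?_)
    have : (X i : RR k) ∈ (J.comap (aeval xx : RR k →ₐ[k] S)).radical := by
      rw [← vanishingIdeal_zeroLocus_eq_radical (K := k)]
      intro a ha
      rw [aeval_X]
      exact by_contra fun hi => h ⟨a, ha, i, hi⟩
    obtain ⟨n, hn⟩ := this
    exact ⟨n, by simpa using hn⟩

end Pool.Agent.MP_9d3c7b_al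

end

section

/-! The quotient functor is fully faithful on Cohen-Macaulay modules; line bundles. -/

namespace Pool.Agent.MP_9d3c7b_al

open CategoryTheory Limits ObjectProperty.SerreClassLocalization

universe u

variable {k : Type u} [Field k] {S : Type u} [CommRing S] [Algebra k S] [IsNoetherianRing S]
  {L : Type} [AddCommGroup L] {xx : Fin 3 → S} {ww : Fin 3 → L}

instance sh_loc : (sh k xx ww).IsLocalization (finLen k xx ww).isoModSerre :=
  (inferInstance : (finLen k xx ww).isoModSerre.Q.IsLocalization (finLen k xx ww).isoModSerre)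

instance sh_add : (sh k xx ww).Additive :=
  (inferInstance : (finLen k xx ww).isoModSerre.Q.Additive)

instance sh_lim : PreservesFiniteLimits (sh k xx ww) := preservesFiniteLimits _ (finLen k xx ww)

instance sh_colim : PreservesFiniteColimits (sh k xx ww) :=
  preservesFiniteColimits _ (finLen k xx ww)

variable {M N : FG k xx ww}

theorem monoMod_iff (f : M ⟶ N) :
    (finLen k xx ww).monoModSerre f ↔ IsFiniteLength S (FG.ker f).car :=
  (finLen k xx ww).prop_iff_of_iso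
    (IsLimit.conePointUniqueUpToIso (kernelIsKernel f) (FG.kerIs f))

theorem epiMod_iff (f : M ⟶ N) :
    (finLen k xx ww).epiModSerre f ↔ IsFiniteLength S (FG.cok f).car :=
  (finLen k xx ww).prop_iff_of_iso
    (IsColimit.coconePointUniqueUpToIso (cokernelIsCokernel f) (FG.cokIs f))

theorem finLen_of_zero {f : M ⟶ N} (hf : Function.Injective f.1) (h : (sh k xx ww).map f = 0) :
    IsFiniteLength S M.car := by
  have := FG.mono_of_inj hf
  exact (map_comp_eq_zero_iff_of_epi_mono (sh k xx ww) (finLen k xx ww) (𝟙 M) f).1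
    (by rw [h, comp_zero])

variable {s : k} [hG : Good xx ww s] [Gd k xx ww]

variable (k xx ww) in
/-- The free module with one generator, of degree d. -/
noncomputable def Sl (d : L) : FG k xx ww :=
  ⟨(SGr k xx ww).twist (-d), (inferInstance : Module.Finite S S)⟩

/-- The map given by a homogeneous element. -/
noncomputable def elt {d : L} (m : M.car) (hm : m ∈ M.gr d) : Sl k xx ww d ⟶ M :=
  ⟨LinearMap.toSpanSingleton S M.car m, fun l t ht => by
    have := (show HS k xx ww (l + -d) (show S from t) from ht) M.toGrMod d m hm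
    rwa [add_comm, neg_add_cancel_right] at this⟩

theorem one_mem_Sl (d : L) : (show (Sl k xx ww d).car from (1 : S)) ∈ (Sl k xx ww d).gr d :=
  (HS.one (k := k) (xx := xx) (ww := ww)).of_eq (add_neg_cancel d).symm

include hG

theorem sh_inj (hN : ∀ m : N.car, xx 0 • m = 0 → m = 0) {f g : M ⟶ N}
    (h : (sh k xx ww).map f = (sh k xx ww).map g) : f = g := by
  obtain ⟨X, σ, hσ, e⟩ :=
    (MorphismProperty.map_eq_iff_precomp (sh k xx ww) (finLen k xx ww).isoModSerre f g).1 h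
  refine FG.hom_ext fun m => ?_
  obtain ⟨n, hn⟩ := nilp (FG.cok σ).toGrMod ((epiMod_iff σ).1 hσ.2) 0 ((FG.cokπ σ).1 m)
  rw [← map_smul, FG.cokπ_zero] at hn
  obtain ⟨a, ha⟩ := hn
  refine sub_eq_zero.1 (reg_pow' hN n _ ?_)
  rw [smul_sub, ← map_smul, ← map_smul, ← ha, sub_eq_zero]
  exact FG.congr e a

theorem sh_surj (hN : CM xx N.car) (φ : (sh k xx ww).obj M ⟶ (sh k xx ww).obj N) :
    ∃ f : M ⟶ N, (sh k xx ww).map f = φ := by
  obtain ⟨ψ, rfl⟩ := Localization.exists_rightFraction (sh k xx ww) (finLen k xx ww).isoModSerre φ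
  obtain ⟨g, hg, e⟩ := CM.extend hN (FG.isHom ψ.s) (fun x hx => by
    obtain ⟨x, rfl⟩ := FG.kerι_ex _ x hx
    obtain ⟨n, hn⟩ := nilp (FG.ker ψ.s).toGrMod ((monoMod_iff _).1 ψ.hs.1) 0 x
    exact ⟨n, by rw [← map_smul, hn, map_zero]⟩) (fun y => by
    obtain ⟨n, h0, h1⟩ := nilp2 (FG.cok ψ.s).toGrMod ((epiMod_iff _).1 ψ.hs.2) ((FG.cokπ _).1 y)
    rw [← map_smul, FG.cokπ_zero] at h0 h1
    obtain ⟨a, ha⟩ := h0
    obtain ⟨b, hb⟩ := h1
    exact ⟨n, a, b, ha.symm, hb.symm⟩) (FG.isHom ψ.f)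
  have := Localization.inverts (sh k xx ww) (finLen k xx ww).isoModSerre _ ψ.hs
  refine ⟨⟨g, hg⟩, ?_⟩
  rw [← cancel_epi ((sh k xx ww).map ψ.s), MorphismProperty.RightFraction.map_s_comp_map,
    ← Functor.map_comp]
  exact congrArg _ (FG.hom_ext e)

theorem cm_S : CM xx S := ⟨x0_reg (h := hG), x1_reg (h := hG)⟩

omit hG in
/-- The linear form underlying a map to a free module of rank one. -/
def lin {d : L} (φ : M ⟶ Sl k xx ww d) : M.car →ₗ[S] S := φ.1

theorem shrink [IsAlgClosed k] (J : Ideal S) : ∀ (d : L) (φ : M ⟶ Sl k xx ww d),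
    LinearMap.range (lin φ) = J → J ≠ ⊥ → ∃ (d' : L) (φ' : M ⟶ Sl k xx ww d'),
      (∀ m, lin φ' m = 0 → lin φ m = 0) ∧ IsFiniteLength S (FG.cok φ').car := by
  have := good_domain (xx := xx) (ww := ww) s
  induction J using IsNoetherian.induction with
  | hgt J ih =>
  intro d φ hφ hJ
  rcases dichotomy (hG := hG) J with h | ⟨π, e, h1, h2, h3, h4⟩
  · exact ⟨d, φ, fun _ h => h, by subst hφ; exact h⟩
  have hd : ∀ m, π ∣ lin φ m := fun m => by
    obtain ⟨T, hT⟩ := M.pr_sum m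
    rw [← hT, map_sum]
    exact Finset.dvd_sum fun l _ => h4 _ _ (hφ ▸ ⟨_, rfl⟩) (φ.2 l _ (M.pr_mem l m))
  let μ : Sl k xx ww (d + e) ⟶ Sl k xx ww d := elt (show S from π) (h1.of_eq (by abel))
  have hμ : Function.Injective μ.1 := fun a b h => mul_right_cancel₀ (M₀ := S) h2 h
  obtain ⟨ψ, hψ⟩ := FG.exists_lift μ hμ φ fun m =>
    (hd m).imp fun t ht => (mul_comm (G := S) t π).trans ht.symm
  have e1 : ∀ m, lin φ m = lin ψ m * π := fun m => (FG.congr hψ m).symm
  have hle : J ≤ LinearMap.range (lin ψ) := by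
    rintro y hy
    obtain ⟨m, rfl⟩ : y ∈ LinearMap.range (lin φ) := hφ ▸ hy
    exact ⟨π • m, by rw [map_smul, e1, smul_eq_mul, mul_comm]⟩
  have hne : J ≠ LinearMap.range (lin ψ) := fun h => by
    obtain ⟨r, hr, h0⟩ := Submodule.exists_sub_one_mem_and_smul_eq_zero_of_fg_of_le_smul
      (Ideal.span {π}) J (IsNoetherian.noetherian J) fun y hy => by
        obtain ⟨m, rfl⟩ : y ∈ LinearMap.range (lin φ) := hφ ▸ hy
        rw [e1, mul_comm]
        exact Submodule.smul_mem_smul (Ideal.mem_span_singleton_self π) (h ▸ ⟨m, rfl⟩)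
    obtain ⟨y, hy, hy0⟩ := (Submodule.ne_bot_iff J).1 hJ
    rw [(mul_eq_zero.1 (h0 y hy)).resolve_right hy0, zero_sub, Ideal.mem_span_singleton,
      dvd_neg] at hr
    exact h3 (isUnit_of_dvd_one hr)
  obtain ⟨d', φ', h5, h6⟩ := ih _ (lt_of_le_of_ne hle hne) _ ψ rfl
    fun h => hJ (le_bot_iff.1 (h ▸ hle))
  exact ⟨d', φ', fun m hm => by rw [e1, h5 m hm, zero_mul], h6⟩

theorem exists_form (h : Module.finrank S M.car = 1) : ∃ (d : L) (φ : M ⟶ Sl k xx ww d),
    LinearMap.range (lin φ) ≠ ⊥ ∧ ∀ m, lin φ m = 0 → ∃ t : S, t ≠ 0 ∧ t • m = 0 := by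
  have := good_domain (xx := xx) (ww := ww) s
  obtain ⟨d, u, hu, h0⟩ : ∃ d, ∃ u ∈ M.gr d, ∀ t : S, t • u = 0 → t = 0 := by
    by_contra! hc
    have : Module.finrank S M.car = 0 := Module.finrank_eq_zero_iff.2 fun m =>
      AddSubgroup.iSup_induction M.gr (C := fun m => ∃ a : S, a ≠ 0 ∧ a • m = 0) (M.mem_iSup m)
        (fun d m hm => (hc d m hm).imp fun _ h => h.symm) ⟨1, one_ne_zero, smul_zero _⟩ (by
          rintro a b ⟨x, hx, ha⟩ ⟨y, hy, hb⟩
          exact ⟨x * y, mul_ne_zero hx hy, by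
            rw [smul_add, mul_smul, mul_smul, hb, smul_comm, ha, smul_zero, smul_zero, add_zero]⟩)
    omega
  have h1 : ∀ m : M.car, ∃ a b : S, a ≠ 0 ∧ a • m = b • u := fun m => by
    have : ¬ LinearIndependent S ![m, u] := fun hl => by
      simpa [h] using hl.fintype_card_le_finrank
    rw [LinearIndependent.pair_iff] at this
    push Not at this
    obtain ⟨a, b, hab, hne⟩ := this
    refine ⟨a, -b, fun ha => hne ha (h0 b (by simpa [ha] using hab)), ?_⟩
    rw [neg_smul, eq_neg_iff_add_eq_zero, hab]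
  obtain ⟨t, ht, h2⟩ : ∃ t : S, t ≠ 0 ∧ ∀ m : M.car, ∃ b : S, b • u = t • m := by
    obtain ⟨n, g, hg⟩ := Module.Finite.exists_fin (R := S) (M := M.car)
    choose a b ha hab using h1
    refine ⟨∏ i, a (g i), Finset.prod_ne_zero_iff.2 fun i _ => ha _, fun m => ?_⟩
    induction hg.ge (Submodule.mem_top (x := m)) using Submodule.span_induction with
    | mem x hx =>
      obtain ⟨i, rfl⟩ := hx
      obtain ⟨c, hc⟩ := Finset.dvd_prod_of_mem (fun i => a (g i)) (Finset.mem_univ i)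
      exact ⟨c * b (g i), by rw [hc, mul_comm (a _), mul_smul, mul_smul, hab]⟩
    | zero => exact ⟨0, by simp⟩
    | add x y _ _ hx hy =>
      obtain ⟨c, hc⟩ := hx
      obtain ⟨e, he⟩ := hy
      exact ⟨c + e, by rw [add_smul, smul_add, hc, he]⟩
    | smul r x _ hx =>
      obtain ⟨c, hc⟩ := hx
      exact ⟨r * c, by rw [mul_smul, hc, smul_comm]⟩
  obtain ⟨e, he⟩ : ∃ e, prS k xx ww e t ≠ 0 := by
    by_contra! hc
    obtain ⟨T, hT⟩ := (SGr k xx ww).pr_sum t
    exact ht (hT.symm.trans (Finset.sum_eq_zero fun l _ => hc l))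
  have h3 : ∀ m : M.car, ∃ b : S, b • u = prS k xx ww e t • m := fun m =>
    AddSubgroup.iSup_induction M.gr (C := fun m => ∃ b : S, b • u = prS k xx ww e t • m)
      (M.mem_iSup m) (fun l m hm => by
        obtain ⟨b, hb⟩ := h2 m
        have := congrArg (M.pr (e + l)) hb
        rw [pr_smul_gen _ hu, pr_smul_gen _ hm, add_sub_cancel_right] at this
        exact ⟨_, this⟩) ⟨0, by simp⟩ (by
        rintro x y ⟨c, hc⟩ ⟨b, hb⟩
        exact ⟨c + b, by rw [add_smul, smul_add, hc, hb]⟩)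
  let M' := M.twistFG e
  let μ : M ⟶ M' := ⟨prS k xx ww e t • LinearMap.id, fun l m hm => prS_HS e t _ l m hm⟩
  let ν : Sl k xx ww (d - e) ⟶ M' := elt u (show u ∈ M.gr (d - e + e) by rwa [sub_add_cancel])
  obtain ⟨φ, hφ⟩ := FG.exists_lift ν ((injective_iff_map_eq_zero _).2 h0) μ h3
  have e1 : ∀ m, lin φ m • u = prS k xx ww e t • m := FG.congr hφ
  refine ⟨_, φ, fun h => he (h0 _ ?_), fun m hm => ⟨_, he, by rw [← e1, hm, zero_smul]⟩⟩
  rw [← e1, LinearMap.range_eq_bot.1 h, LinearMap.zero_apply, zero_smul]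

/-- Every line bundle is a shift of the structure sheaf. -/
theorem line_iso [IsAlgClosed k] {E : Vect k xx ww} (h : IsLine E) :
    ∃ d, Nonempty (E.ob ≅ (sh k xx ww).obj (Sl k xx ww d)) := by
  have := good_domain (xx := xx) (ww := ww) s
  obtain ⟨d, φ, h1, h2⟩ := exists_form (M := E.toFG) h
  obtain ⟨d', φ', h3, h4⟩ := shrink _ d φ rfl h1
  have := Localization.inverts (sh k xx ww) (finLen k xx ww).isoModSerre φ'
    ⟨(monoMod_iff _).2 (finLen_of_zero (FG.kerι_inj φ') (E.tf _ (fun x => by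
      obtain ⟨t, ht, h0⟩ := h2 x.1 (h3 _ x.2)
      exact ⟨⟨t, mem_nonZeroDivisors_of_ne_zero ht⟩, Subtype.ext h0⟩) _)), (epiMod_iff _).2 h4⟩
  exact ⟨d', ⟨asIso ((sh k xx ww).map φ')⟩⟩

end Pool.Agent.MP_9d3c7b_al

end

section

/-! Sums of line bundles, stably trivial maps and distinguished sequences in both models. -/

namespace Pool.Agent.MP_9d3c7b_al

open CategoryTheory Limits ObjectProperty.SerreClassLocalization

universe u

variable {k : Type u} [Field k] {S : Type u} [CommRing S] [Algebra k S] [IsNoetherianRing S]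
  {L : Type} [AddCommGroup L] {xx : Fin 3 → S} {ww : Fin 3 → L} {M N A B C : FG k xx ww}

theorem Dist.iso {A B C A' B' C' : Coh k xx ww} (h : Dist A B C) (a : A ≅ A') (b : B ≅ B')
    (c : C ≅ C') : Dist A' B' C' := by
  obtain ⟨α, β, w, h1, h2⟩ := h
  refine ⟨a.inv ≫ α ≫ b.hom, b.inv ≫ β ≫ c.hom, by simp [reassoc_of% w],
    ShortComplex.shortExact_of_iso (ShortComplex.isoMk a b c (by simp) (by simp)) h1,
    fun E hE γ => ?_⟩
  obtain ⟨δ, hδ⟩ := h2 E hE (γ ≫ c.inv)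
  exact ⟨δ ≫ b.hom, by simp [reassoc_of% hδ]⟩

theorem Null.comp {A B C : Coh k xx ww} {φ : A ⟶ B} (h : Null φ) (ψ : B ⟶ C) : Null (φ ≫ ψ) := by
  obtain ⟨G, α, β, hG, rfl⟩ := h
  exact ⟨G, α, β ≫ ψ, hG, Category.assoc _ _ _⟩

theorem ses_map (a : A ⟶ B) (b : B ⟶ C) (w : a ≫ b = 0) (hi : Function.Injective a.1)
    (he : ∀ m, b.1 m = 0 → ∃ x, a.1 x = m) (hs : Function.Surjective b.1) :
    ((ShortComplex.mk a b w).map (sh k xx ww)).ShortExact :=
  (ShortComplex.ShortExact.mk' (ShortComplex.exact_of_f_is_kernel _ (FG.isKer a w hi he))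
    (FG.mono_of_inj hi) (FG.epi_of_surj hs)).map_of_exact _

omit [IsNoetherianRing S] in
theorem sum_apply' {I : Type} (T : Finset I) (f : I → (M ⟶ N)) (m : M.car) :
    (∑ i ∈ T, f i).1 m = ∑ i ∈ T, (f i).1 m := by
  classical
  induction T using Finset.induction_on with
  | empty => rfl
  | insert i T hi ih => rw [Finset.sum_insert hi, Finset.sum_insert hi, FG.add_apply, ih]

variable {s : k} [hG : Good xx ww s] [Gd k xx ww]

omit hG in
theorem free_iso {n : ℕ} (b : Module.Basis (Fin n) S M.car) (h : Fin n → L)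
    (hb : ∀ i, b i ∈ M.gr (h i)) :
    Nonempty ((sh k xx ww).obj M ≅ ⨁ fun i => (sh k xx ww).obj (Sl k xx ww (h i))) := by
  let π : ∀ i, M ⟶ Sl k xx ww (h i) := fun i => ⟨b.coord i,
    isHom_of_gens (N := (Sl k xx ww (h i)).toGrMod) hb (fun x => ⟨_, (b.sum_repr x).symm⟩) fun j => by
      by_cases hj : j = i
      · subst hj
        exact (show b.coord j (b j) = 1 by simp) ▸ one_mem_Sl _
      · exact (show b.coord i (b j) = 0 by simp [hj]) ▸ zero_mem _⟩
  let c : Bicone fun i => Sl k xx ww (h i) := ⟨M, π, fun i => elt (b i) (hb i), fun i j => by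
    split_ifs with hj
    · subst hj
      exact FG.hom_ext fun t => show b.coord i ((show S from t) • b i) = t by simp
    · exact FG.hom_ext fun t => show b.coord j ((show S from t) • b i) = 0 by simp [hj]⟩
  exact ⟨biproduct.uniqueUpToIso _ (isBilimitOfPreserves (sh k xx ww) (isBilimitOfTotal c
    (FG.hom_ext fun m => (sum_apply' _ _ m).trans (b.sum_repr m))))⟩

include hG

/-- A torsion-free Cohen-Macaulay module as a vector bundle. -/
noncomputable def mkVect (M : FG k xx ww) (hM : CM xx M.car)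
    (ht : ∀ (t : S) (m : M.car), t ≠ 0 → t • m = 0 → m = 0) : Vect k xx ww :=
  ⟨M, fun T hT f => by
    have := good_domain (xx := xx) (ww := ww) s
    obtain ⟨g, rfl⟩ := sh_surj hM f
    rw [show g = 0 from FG.hom_ext fun x => by
      obtain ⟨a, ha⟩ := @hT x
      exact ht a _ (nonZeroDivisors.coe_ne_zero a) (by
        rw [← map_smul, show (a : S) • x = 0 from ha, map_zero]), Functor.map_zero]⟩

variable (k xx ww) in
/-- The shifts of the structure sheaf. -/
noncomputable def SlV (d : L) : Vect k xx ww :=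
  mkVect (Sl k xx ww d) (cm_S (hG := hG)) fun t m ht h =>
    have := good_domain (xx := xx) (ww := ww) s
    (mul_eq_zero (M₀ := S).1 h).resolve_left ht

theorem isLine_SlV (d : L) : IsLine (SlV k xx ww d) :=
  have := good_domain (xx := xx) (ww := ww) s
  Module.finrank_self S

theorem lineSum_of (h : IsLineSum M.toGrMod) : LineSum ((sh k xx ww).obj M) := by
  obtain ⟨n, b, h, hb⟩ := h
  exact ⟨n, fun i => SlV k xx ww (h i), fun _ => isLine_SlV _, free_iso b h hb⟩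

theorem of_lineSum [IsAlgClosed k] {G : Coh k xx ww} (h : LineSum G) :
    ∃ M : FG k xx ww, IsLineSum M.toGrMod ∧ Nonempty (G ≅ (sh k xx ww).obj M) := by
  obtain ⟨n, E, hE, ⟨e⟩⟩ := h
  choose d hd using fun i => line_iso (hE i)
  let F : FG k xx ww := ⟨Free k xx ww (Fin n) d, (inferInstance : Module.Finite S (Fin n → S))⟩
  obtain ⟨e'⟩ := free_iso (M := F) (Pi.basisFun S (Fin n)) d fun i =>
    (Pi.basisFun_apply S (Fin n) i).symm ▸ single_mem_Free d i
  exact ⟨F, isLineSum_Free d, ⟨e ≪≫ biproduct.mapIso (fun i => (hd i).some) ≪≫ e'.symm⟩⟩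

omit [IsNoetherianRing S] [Gd k xx ww] in
theorem cm_lineSum {G : GrMod k xx ww} (h : IsLineSum G) : CM xx G.car := by
  obtain ⟨n, b, -, -⟩ := h
  refine ⟨fun m hm => b.ext_elem fun i => ?_, fun p q hpq => ?_⟩
  · rw [map_zero]
    exact x0_reg (h := hG) _ (by simpa using congrArg (fun y => b.repr y i) hm)
  · choose c hc using fun i => x1_reg (h := hG) (b.repr p i) (b.repr q i)
      (by simpa using congrArg (fun y => b.repr y i) hpq)
    exact ⟨b.equivFun.symm c, b.ext_elem fun i => by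
      rw [map_smul, hc, Finsupp.smul_apply, ← b.equivFun_apply,
        LinearEquiv.apply_symm_apply, smul_eq_mul]⟩

theorem null_of {f : M ⟶ N} (h : StZero M.toGrMod N.toGrMod f.1) : Null ((sh k xx ww).map f) := by
  obtain ⟨G, hG', α, β, hα, hβ, e⟩ := h
  let F : FG k xx ww := ⟨G, by
    obtain ⟨n, b, -⟩ := hG'
    exact Module.Finite.of_basis b⟩
  exact ⟨_, (sh k xx ww).map (Y := F) ⟨α, hα⟩, (sh k xx ww).map (X := F) ⟨β, hβ⟩, lineSum_of hG',
    ((sh k xx ww).congr_map (Subtype.ext e)).trans (Functor.map_comp _ _ _)⟩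

theorem of_null [IsAlgClosed k] (hN : CM xx N.car) {f : M ⟶ N} (h : Null ((sh k xx ww).map f)) :
    StZero M.toGrMod N.toGrMod f.1 := by
  obtain ⟨G, α, β, hG', e⟩ := h
  obtain ⟨F, hF, ⟨i⟩⟩ := of_lineSum hG'
  obtain ⟨a, ha⟩ := sh_surj (cm_lineSum hF) (α ≫ i.hom)
  obtain ⟨b, hb⟩ := sh_surj hN (i.inv ≫ β)
  have : f = a ≫ b := sh_inj hN.reg (by simp [ha, hb, e])
  exact ⟨_, hF, a.1, b.1, a.2, b.2, congrArg Subtype.val this⟩

theorem dist_of_ses [IsAlgClosed k] (hC : CM xx C.car) (h : SES A.toGrMod B.toGrMod C.toGrMod) :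
    Dist ((sh k xx ww).obj A) ((sh k xx ww).obj B) ((sh k xx ww).obj C) := by
  obtain ⟨α, β, hα, hβ, hi, he, hs⟩ := h
  let a : A ⟶ B := ⟨α, hα⟩
  let b : B ⟶ C := ⟨β, hβ⟩
  refine ⟨_, _, _, ses_map a b (FG.hom_ext he.apply_apply_eq_zero) hi (fun m => (he m).1) hs,
    fun E hE γ => ?_⟩
  obtain ⟨d, ⟨e⟩⟩ := line_iso hE
  obtain ⟨c, hc⟩ := sh_surj hC (e.inv ≫ γ)
  obtain ⟨y, hy, e1⟩ := lift_gr hβ (c.2 d _ (one_mem_Sl d)) (hs _)
  have : elt y hy ≫ b = c := FG.hom_ext fun t => by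
    change β ((show S from t) • y) = _
    rw [map_smul, e1, ← map_smul]
    exact congrArg c.1 (mul_one (M := S) t)
  refine ⟨e.hom ≫ (sh k xx ww).map (elt y hy), ?_⟩
  change _ ≫ (sh k xx ww).map b = _
  rw [Category.assoc, ← Functor.map_comp, this, hc, e.hom_inv_id_assoc]

end Pool.Agent.MP_9d3c7b_al

end

section

/-! Suspensions in the stable category of vector bundles stay Cohen-Macaulay. -/

namespace Pool.Agent.MP_9d3c7b_al

open CategoryTheory Limits ObjectProperty.SerreClassLocalization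

universe u

variable {k : Type u} [Field k] {S : Type u} [CommRing S] [Algebra k S] [IsNoetherianRing S]
  {L : Type} [AddCommGroup L] {xx : Fin 3 → S} {ww : Fin 3 → L} {M N : FG k xx ww}

/-- A Cohen-Macaulay module as a finitely generated graded module. -/
def VB.fg (E : VB k xx ww) : FG k xx ww := ⟨E.toGrMod, E.fin⟩

omit [IsNoetherianRing S] in
theorem VB.cm (E : VB k xx ww) : CM xx E.fg.car := cm_iff.2 E.reg

variable {s : k} [hG : Good xx ww s] [Gd k xx ww]

include hG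

theorem cm_of_full (hN : ∀ m : N.car, xx 0 • m = 0 → m = 0)
    (h : ∀ (d : L) (γ : (sh k xx ww).obj (Sl k xx ww d) ⟶ (sh k xx ww).obj N),
      ∃ g, (sh k xx ww).map g = γ) : CM xx N.car := by
  have key : ∀ l, ∀ a ∈ N.gr l, ∀ b ∈ N.gr (l + ww 1 - ww 0), xx 1 • a = xx 0 • b →
      ∃ c, a = xx 0 • c := by
    intro l a ha b hb hab
    let F : FG k xx ww := ⟨Free k xx ww (Fin 2) ![l, l + ww 1 - ww 0],
      (inferInstance : Module.Finite S (Fin 2 → S))⟩
    let mk : ∀ (P : FG k xx ww) (x y : P.car), x ∈ P.gr l → y ∈ P.gr (l + ww 1 - ww 0) →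
        (F ⟶ P) := fun P x y hx hy => ⟨Fintype.linearCombination S ![x, y], fun _ _ hv =>
      lincomb_mem (N := P.toGrMod) (n := ![x, y]) (fun i => by fin_cases i <;> assumption) hv⟩
    have mk_apply : ∀ P x y hx hy (v : Fin 2 → S), (mk P x y hx hy).1 v = v 0 • x + v 1 • y :=
      fun P x y hx hy v => by
        change Fintype.linearCombination S ![x, y] v = _
        simp [Fintype.linearCombination_apply]
    have g0 : HS k xx ww (l + -(l - ww 0)) (xx 0) := (HS.var 0).of_eq (by abel)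
    have g1 : HS k xx ww (l + ww 1 - ww 0 + -(l - ww 0)) (xx 1) := (HS.var 1).of_eq (by abel)
    let σ := mk (Sl k xx ww (l - ww 0)) (xx 0) (xx 1) g0 g1
    have hσ : ∀ v : Fin 2 → S, lin σ v = v 0 * xx 0 + v 1 * xx 1 :=
      mk_apply (Sl k xx ww (l - ww 0)) (xx 0) (xx 1) g0 g1
    have h0 : xx 0 ∈ LinearMap.range (lin σ) := ⟨![1, 0], by simp [hσ]⟩
    have h1 : xx 1 ∈ LinearMap.range (lin σ) := ⟨![0, 1], by simp [hσ]⟩
    have : Epi ((ShortComplex.mk _ _ (FG.ker_w σ)).map (sh k xx ww)).g :=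
      (epi_map_iff (sh k xx ww) (finLen k xx ww) σ).2 ((epiMod_iff σ).2
        (finLen_quot (hG := hG) (LinearMap.range (lin σ)) fun i => by
          fin_cases i
          · exact Ideal.le_radical h0
          · exact Ideal.le_radical h1
          · have hx : xx 2 ^ 5 - xx 1 ^ 5 + (algebraMap k S s * xx 0) ^ 2 = 0 := by
              simpa [ff] using (hG.ker _).2 dvd_rfl
            refine ⟨5, show xx 2 ^ 5 ∈ _ from ?_⟩
            rw [show xx 2 ^ 5 =
              xx 1 ^ 4 * xx 1 - algebraMap k S s ^ 2 * xx 0 * xx 0 by linear_combination hx]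
            exact sub_mem (Ideal.mul_mem_left _ _ h1) (Ideal.mul_mem_left _ _ h0)))
    have hf : FG.kerι σ ≫ mk N a b ha hb = 0 := FG.hom_ext fun v => by
      have h2 : v.1 0 * xx 0 + v.1 1 * xx 1 = 0 := (hσ v.1).symm.trans v.2
      obtain ⟨c, hc⟩ := x1_reg (h := hG) (v.1 1) (-v.1 0) (by linear_combination h2)
      have h3 : v.1 0 = -(c * xx 1) := eq_neg_iff_add_eq_zero.2
        (x0_reg (h := hG) _ (by rw [hc] at h2; linear_combination h2))
      refine (mk_apply N a b ha hb v.1).trans ?_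
      rw [h3, hc, neg_smul, mul_smul, hab, mul_comm, mul_smul, neg_add_cancel]
      rfl
    obtain ⟨γ, hγ⟩ := ((ShortComplex.exact_of_f_is_kernel (ShortComplex.mk _ _ (FG.ker_w σ))
      (FG.kerIs σ)).map (sh k xx ww)).desc' ((sh k xx ww).map (mk N a b ha hb))
      (((sh k xx ww).map_comp _ _).symm.trans (((sh k xx ww).congr_map hf).trans
        (Functor.map_zero _ _ _)))
    obtain ⟨g, rfl⟩ := h _ γ
    have e : g.1 (lin σ ![1, 0]) = (mk N a b ha hb).1 ![1, 0] :=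
      FG.congr (sh_inj hN (((sh k xx ww).map_comp σ g).trans hγ)) ![1, 0]
    rw [hσ, mk_apply N a b ha hb] at e
    refine ⟨g.1 (1 : S), ?_⟩
    rw [← map_smul]
    exact (by simp : a = _).trans (e.symm.trans (congrArg g.1 (show _ = xx 0 * 1 by simp)))
  refine ⟨hN, fun a b hab => ?_⟩
  obtain ⟨T, hT⟩ := N.pr_sum a
  choose c hc using fun l => key l _ (N.pr_mem l a) _ (N.pr_mem _ b) (by
    rw [← (HS.var 1).pr, ← (HS.var 0).pr, hab, sub_add_cancel])
  exact ⟨∑ l ∈ T, c l, by rw [Finset.smul_sum, ← hT]; exact Finset.sum_congr rfl fun l _ => hc l⟩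

theorem shift_up [IsAlgClosed k] {X Y : Vect k xx ww} (h : Shift X Y) (X0 : VB k xx ww)
    (e : X.ob ≅ (sh k xx ww).obj X0.fg) :
    ∃ Y0 : VB k xx ww, Susp X0 Y0 ∧ Nonempty (Y.ob ≅ (sh k xx ww).obj Y0.fg) := by
  have := good_domain (xx := xx) (ww := ww) s
  obtain ⟨G, hG', h⟩ := h
  obtain ⟨F, hF, ⟨i⟩⟩ := of_lineSum hG'
  have cF := cm_lineSum hF
  obtain ⟨α, β, w, h1, h2⟩ := h.iso e i (Iso.refl _)
  obtain ⟨a, rfl⟩ := sh_surj cF α
  have ha : Function.Injective a.1 := (injective_iff_map_eq_zero _).2 fun x hx => by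
    obtain ⟨x, rfl⟩ := FG.kerι_ex a x hx
    obtain ⟨n, hn⟩ := nilp (FG.ker a).toGrMod ((monoMod_iff a).1
      ((mono_map_iff (sh k xx ww) (finLen k xx ww) a).1 h1.mono_f)) 0 x
    exact reg_pow' X0.cm.reg n _ (by rw [← map_smul, hn, map_zero])
  have h3 := ses_map a _ (FG.cok_w a) ha (fun n => (FG.cokπ_zero a n).1) (FG.cokπ_surj a)
  let j : Y.ob ≅ (sh k xx ww).obj (FG.cok a) :=
    IsColimit.coconePointUniqueUpToIso h1.gIsCokernel h3.gIsCokernel
  have hj : β ≫ j.hom = (sh k xx ww).map (FG.cokπ a) :=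
    IsColimit.comp_coconePointUniqueUpToIso_hom h1.gIsCokernel h3.gIsCokernel
      WalkingParallelPair.one
  have hr : ∀ y : (FG.cok a).car, xx 0 • y = 0 → y = 0 := fun y hy => by
    let T := FG.kerd (FG.cok a) (FG.cok a).toGrMod (xx 0 • LinearMap.id) (ww 0)
      ((FG.cok a).var_mem 0)
    let ι : T ⟶ FG.cok a := FG.kerdι _ _ _ _ _
    have h4 : (sh k xx ww).map ι ≫ j.inv = 0 := Y.tf T (fun x => ⟨⟨xx 0,
      mem_nonZeroDivisors_of_ne_zero fun h => one_ne_zero (x0_reg (h := hG) 1 (by simp [h]))⟩,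
      Subtype.ext x.2⟩) _
    obtain ⟨n, h5, h6⟩ := nilp2 _ (finLen_of_zero (f := ι) Subtype.val_injective
      (by simpa using h4 =≫ j.hom)) ⟨y, hy⟩
    obtain ⟨g, rfl⟩ := FG.cokπ_surj a y
    obtain ⟨p, hp⟩ := (FG.cokπ_zero a _).1 ((map_smul _ _ g).trans (congrArg Subtype.val h5))
    obtain ⟨q, hq⟩ := (FG.cokπ_zero a _).1 ((map_smul _ _ g).trans (congrArg Subtype.val h6))
    obtain ⟨c, rfl⟩ := X0.cm.div_pow n n p q (ha (by rw [map_smul, map_smul, hp, hq, smul_comm]))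
    exact (FG.cokπ_zero a _).2 ⟨c, sub_eq_zero.1 (reg_pow' cF.reg n _ (by
      rw [smul_sub, ← map_smul, hp, sub_self]))⟩
  have hc : CM xx (FG.cok a).car := cm_of_full hr fun d γ => by
    obtain ⟨δ, hδ⟩ := h2 (SlV k xx ww d) (isLine_SlV d) (γ ≫ j.inv)
    obtain ⟨g, rfl⟩ := sh_surj cF δ
    refine ⟨g ≫ FG.cokπ a, ?_⟩
    rw [Functor.map_comp, ← hj, ← Category.assoc]
    exact (hδ =≫ j.hom).trans (by simp)
  exact ⟨⟨(FG.cok a).toGrMod, (FG.cok a).fin, cm_iff.1 hc⟩, ⟨F.toGrMod, hF, a.1, (FG.cokπ a).1,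
    a.2, (FG.cokπ a).2, ha, FG.cokπ_zero a, FG.cokπ_surj a⟩, ⟨j⟩⟩

theorem shift_down [IsAlgClosed k] {X Y : Vect k xx ww} (h : Shift X Y) (Y0 : VB k xx ww)
    (e : Y.ob ≅ (sh k xx ww).obj Y0.fg) :
    ∃ X0 : VB k xx ww, Susp X0 Y0 ∧ Nonempty (X.ob ≅ (sh k xx ww).obj X0.fg) := by
  obtain ⟨G, hG', h⟩ := h
  obtain ⟨F, hF, ⟨i⟩⟩ := of_lineSum hG'
  have cF := cm_lineSum hF
  obtain ⟨α, β, w, h1, h2⟩ := h.iso (Iso.refl _) i e
  obtain ⟨b, rfl⟩ := sh_surj Y0.cm β
  have hb : Function.Surjective b.1 := fun y =>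
    AddSubgroup.iSup_induction Y0.gr (C := fun y => ∃ x, b.1 x = y) (Y0.mem_iSup y)
      (fun d y hy => by
        obtain ⟨δ, hδ⟩ := h2 (SlV k xx ww d) (isLine_SlV d)
          ((sh k xx ww).map (elt (M := Y0.fg) y hy))
        obtain ⟨g, rfl⟩ := sh_surj cF δ
        exact ⟨_, (FG.congr (sh_inj Y0.cm.reg (((sh k xx ww).map_comp _ _).trans hδ))
          (1 : S)).trans (one_smul S y)⟩) ⟨0, map_zero _⟩ (by
        rintro _ _ ⟨x, rfl⟩ ⟨y, rfl⟩
        exact ⟨x + y, map_add _ _ _⟩)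
  have h3 := ses_map _ b (FG.ker_w b) (FG.kerι_inj b) (FG.kerι_ex b) hb
  have hc : CM xx (FG.ker b).car := ⟨fun m hm => Subtype.ext (cF.reg _ (congrArg Subtype.val hm)),
    fun p q hpq => by
      obtain ⟨c, hc⟩ := cF.div p.1 q.1 (congrArg Subtype.val hpq)
      exact ⟨⟨c, Y0.cm.reg _ (by rw [← map_smul, ← hc]; exact p.2)⟩, Subtype.ext hc⟩⟩
  exact ⟨⟨(FG.ker b).toGrMod, (FG.ker b).fin, cm_iff.1 hc⟩, ⟨F.toGrMod, hF, (FG.kerι b).1, b.1,
    (FG.kerι b).2, b.2, FG.kerι_inj b, fun m => ⟨FG.kerι_ex b m, by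
      rintro ⟨x, rfl⟩
      exact x.2⟩, hb⟩, ⟨IsLimit.conePointUniqueUpToIso h1.fIsKernel h3.fIsKernel⟩⟩

end Pool.Agent.MP_9d3c7b_al

end
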