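import Pool.Agent.Mg.F9d3c7bp.Ga04185
import Pool.Agent.Mg.F9d3c7bp.G8533a9

section

namespace Pool.Agent.MP_9d3c7b_al

open Matrix

/-- A matrix from a list of rows. -/
def mkM (n m : ℕ) (l : List (List ℤ)) : Matrix (Fin n) (Fin m) ℤ :=
  Matrix.of fun i j => (l.getD i.val []).getD j.val 0

/-- A zero-one matrix from a list of arrows (source, target). -/
def arr (n m : ℕ) (l : List (ℕ × ℕ)) : Matrix (Fin n) (Fin m) ℤ :=
  Matrix.of fun i j => if (j.val, i.val) ∈ l then 1 else 0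

/-- A vector from a list. -/
def vec (n : ℕ) (l : List ℤ) : Fin n → ℤ := fun i => l.getD i.val 0

/-- The first module. -/
def dE : FD (Fin 12) where
  a := vec 12 [1, 1, 1, 1, 2, 3, 0, 0, 1, 2, 3, 3]
  c := vec 12 [0, 1, 2, 3, 0, 1, 2, 3, 2, 2, 2, 0]
  Y := arr 12 12 [(0, 4), (6, 8), (8, 9), (9, 10), (7, 3), (4, 11)]
  Z := arr 12 12 [(0, 1), (1, 2), (2, 3), (6, 7), (8, 3), (5, 10)]
  comm := by decide +kernel
  hY := by decide +kernel
  hZ := by decide +kernel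
  ba := by decide +kernel
  bc := by decide +kernel

/-- The second module. -/
def dF : FD (Fin 12) where
  a := vec 12 [1, 1, 1, 1, 2, 3, 0, 0, 1, 2, 3, 3]
  c := vec 12 [0, 1, 2, 3, 0, 1, 2, 3, 2, 2, 2, 0]
  Y := arr 12 12 [(0, 4), (6, 8), (8, 9), (9, 10), (7, 3)]
  Z := arr 12 12 [(0, 1), (1, 2), (2, 3), (6, 7), (8, 3), (5, 10), (11, 5)]
  comm := by decide +kernel
  hY := by decide +kernel
  hZ := by decide +kernel
  ba := by decide +kernel
  bc := by decide +kernel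

/-- The common part. -/
def dM : FD (Fin 11) where
  a := vec 11 [1, 1, 1, 1, 2, 3, 0, 0, 1, 2, 3]
  c := vec 11 [0, 1, 2, 3, 0, 1, 2, 3, 2, 2, 2]
  Y := arr 11 11 [(0, 4), (6, 8), (8, 9), (9, 10), (7, 3)]
  Z := arr 11 11 [(0, 1), (1, 2), (2, 3), (6, 7), (8, 3), (5, 10)]
  comm := by decide +kernel
  hY := by decide +kernel
  hZ := by decide +kernel
  ba := by decide +kernel
  bc := by decide +kernel

/-- A simple module. -/
def dS : FD (Fin 1) where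
  a := vec 1 [3]
  c := vec 1 [0]
  Y := arr 1 1 []
  Z := arr 1 1 []
  comm := by decide +kernel
  hY := by decide +kernel
  hZ := by decide +kernel
  ba := by decide +kernel
  bc := by decide +kernel

/-- Another simple module. -/
def dT : FD (Fin 1) where
  a := vec 1 [3]
  c := vec 1 [1]
  Y := arr 1 1 []
  Z := arr 1 1 []
  comm := by decide +kernel
  hY := by decide +kernel
  hZ := by decide +kernel
  ba := by decide +kernel
  bc := by decide +kernel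

/-- Inclusion of the last basis vector. -/
def mI : Matrix (Fin 12) (Fin 1) ℤ := arr 12 1 [(0, 11)]

/-- Projection onto the first basis vectors. -/
def mP : Matrix (Fin 11) (Fin 12) ℤ := Matrix.of fun i j => if i.val = j.val then 1 else 0

/-- Homotopy in low degrees. -/
def h1E : Matrix (Fin 14) (Fin 16) ℤ := mkM 14 16
    [[1, 0, 1, 0, 0, 0, 0, 0, 0, 0, 0, 0, 0, 0, 0, 0], [1, 0, 1, 0, 0, 0, 0, 0, -1, 0, 0, 0, 0,
    0, 0, 0], [1, 0, 1, 0, 0, 0, 0, 0, -1, -1, 0, 0, 0, 0, 0, 0], [0, 0, 0, 0, 0, 0, 0, 0, 0,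
    0, -1, 0, 0, 0, 0, 0], [1, 0, 1, 0, 0, 0, 0, 0, -1, -1, -1, -1, 0, 0, 0, 0], [0, 0, 1, 0,
    0, 0, 0, 0, 0, 0, 0, 0, 0, 0, 0, 0], [1, 0, 1, 0, -1, 1, -1, -1, -1, -1, -1, -1, 1, 1, 0,
    0], [1, 0, 1, 0, 0, 1, 0, 0, -1, -1, -1, -1, 0, 1, 0, 0], [1, 0, 1, 0, 0, 1, 0, 0, -1, -1,
    -1, -1, 0, 0, 0, 0], [0, 0, 0, 0, 1, -1, 0, 0, 0, 0, 0, 0, 0, -1, 1, 0], [1, 0, 1, 0, -1,
    1, 0, 0, -1, -1, -1, -1, 0, 1, 0, 0], [1, 0, 1, 0, -1, 1, -1, 0, -1, -1, -1, -1, 0, 1, 0,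
    0], [1, 0, 1, 0, -1, 1, -1, -1, -1, -1, -1, -1, 0, 1, 0, 0], [0, 0, 0, 0, 0, 0, 0, 0, 0, 0,
    0, 0, 0, 0, 0, 0]]

/-- Homotopy in high degrees. -/
def h2E : Matrix (Fin 16) (Fin 3) ℤ := mkM 16 3
    [[0, 0, 0], [1, 0, 0], [0, 0, 0], [0, 0, -1], [0, 0, 0], [0, 0, 0], [0, 0, 0], [0, 0, 0],
    [0, 0, 0], [0, 0, 0], [0, 0, 0], [0, 0, 0], [0, 0, 0], [0, 0, 0], [0, 0, 0], [0, -1, 0]]

/-- The trace functional. -/
def phE : Fin 14 → ℤ := ![0, 0, 0, 0, 0, 0, 0, 0, 0, 0, 0, 0, 0, 1]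

/-- Homotopy in low degrees. -/
def h1F : Matrix (Fin 14) (Fin 16) ℤ := mkM 14 16
    [[0, 0, 0, 0, 1, -1, 1, 1, 1, 1, 1, 1, -1, -1, 0, -1], [0, 0, 0, 0, 1, -1, 1, 1, 0, 1, 1,
    1, -1, -1, 0, -1], [0, 0, 0, 0, 1, -1, 1, 1, 0, 0, 1, 1, -1, -1, 0, -1], [0, 0, 0, 0, 0, 0,
    0, 0, 0, 0, -1, 0, 0, 0, 0, 0], [0, 0, 0, 0, 1, -1, 1, 1, 0, 0, 0, 0, -1, -1, 0, -1], [-1,
    0, 0, 0, 1, -1, 1, 1, 1, 1, 1, 1, -1, -1, 0, -1], [0, 0, 0, 0, 0, 0, 0, 0, 0, 0, 0, 0, 0,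
    0, 0, -1], [0, 0, 0, 0, 1, 0, 1, 1, 0, 0, 0, 0, -1, 0, 0, -1], [0, 0, 0, 0, 1, 0, 1, 1, 0,
    0, 0, 0, -1, -1, 0, -1], [0, 0, 0, 0, 1, -1, 0, 0, 0, 0, 0, 0, 0, -1, 1, 0], [0, 0, 0, 0,
    0, 0, 1, 1, 0, 0, 0, 0, -1, 0, 0, -1], [0, 0, 0, 0, 0, 0, 0, 1, 0, 0, 0, 0, -1, 0, 0, -1],
    [0, 0, 0, 0, 0, 0, 0, 0, 0, 0, 0, 0, -1, 0, 0, -1], [0, 0, 0, 0, 0, 0, 0, 0, 0, 0, 0, 0, 0,
    0, 0, 0]]

/-- Homotopy in high degrees. -/
def h2F : Matrix (Fin 16) (Fin 3) ℤ := mkM 16 3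
    [[0, 0, 0], [1, 0, 0], [0, -1, 0], [0, 0, -1], [0, 0, 0], [0, 0, 0], [0, 0, 0], [0, 0, 0],
    [0, 0, 0], [0, 0, 0], [0, 0, 0], [0, 0, 0], [0, 0, 0], [0, 0, 0], [0, 0, 0], [0, 0, 0]]

/-- The trace functional. -/
def phF : Fin 14 → ℤ := ![0, 0, 0, 0, 0, 0, 0, 0, 0, 0, 0, 0, 0, 1]

/-- The identity. -/
def eI : Fin 14 → ℤ := ![1, 1, 1, 0, 1, 1, 1, 1, 1, 0, 1, 1, 1, 1]

/-- Positions. -/
def q0 : Fin 14 → (Fin 4 × Fin 12) × Fin 12 :=
    ![((0, 0), 0), ((0, 1), 1), ((0, 2), 2), ((0, 2), 8), ((0, 3), 3), ((0, 4), 4), ((0, 5),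
    5), ((0, 6), 6), ((0, 7), 7), ((0, 8), 2), ((0, 8), 8), ((0, 9), 9), ((0, 10), 10), ((0,
    11), 11)]

/-- Positions. -/
def q1 : Fin 16 → (Fin 4 × Fin 12) × Fin 12 :=
    ![((1, 0), 4), ((1, 2), 9), ((1, 4), 11), ((1, 6), 2), ((1, 6), 8), ((1, 7), 3), ((1, 8),
    9), ((1, 9), 10), ((2, 0), 1), ((2, 1), 2), ((2, 1), 8), ((2, 2), 3), ((2, 5), 10), ((2,
    6), 7), ((2, 8), 3), ((2, 11), 5)]

/-- Positions. -/
def q2 : Fin 3 → (Fin 4 × Fin 12) × Fin 12 :=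
    ![((3, 1), 9), ((3, 4), 5), ((3, 6), 3)]

universe u

variable {k : Type u} [Field k] {S : Type u} [CommRing S] [Algebra k S] {L : Type} [AddCommGroup L]
  {xx : Fin 3 → S} {ww : Fin 3 → L} {s : k} [Good xx ww s]

theorem oneE : (dE.mf xx ww s).One (dE.fin xx ww s) ((0 : ℤ) • ww 0) :=
  dE.one_of_cert dE 0 (n0 := 0) Fin.elim0 q0 q1 (fun j => j.elim0) (by decide +kernel)
    (by decide +kernel) (by decide +kernel) 0 h1E eI phE (by decide +kernel)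

theorem vanE (m : ℤ) (hm : m ≠ 0) : (dE.mf xx ww s).Van (dE.fin xx ww s) (m • ww 0) := by
  by_cases h1 : m = 1
  · subst h1
    exact dE.van_of_cert dE 1 q0 q1 q2 (by decide +kernel) (by decide +kernel)
      (by decide +kernel) (by decide +kernel) h1E h2E (by decide +kernel)
  by_cases h2 : m = 2
  · subst h2
    exact dE.van_of_cert dE 2 (n2 := 0) q1 q2 Fin.elim0 (by decide +kernel) (by decide +kernel)
      (by decide +kernel) (fun j => j.elim0) h2E 0 (by decide +kernel)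
  exact dE.van_far dE m hm h1 h2

theorem oneF : (dF.mf xx ww s).One (dF.fin xx ww s) ((0 : ℤ) • ww 0) :=
  dF.one_of_cert dF 0 (n0 := 0) Fin.elim0 q0 q1 (fun j => j.elim0) (by decide +kernel)
    (by decide +kernel) (by decide +kernel) 0 h1F eI phF (by decide +kernel)

theorem vanF (m : ℤ) (hm : m ≠ 0) : (dF.mf xx ww s).Van (dF.fin xx ww s) (m • ww 0) := by
  by_cases h1 : m = 1
  · subst h1
    exact dF.van_of_cert dF 1 q0 q1 q2 (by decide +kernel) (by decide +kernel)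
      (by decide +kernel) (by decide +kernel) h1F h2F (by decide +kernel)
  by_cases h2 : m = 2
  · subst h2
    exact dF.van_of_cert dF 2 (n2 := 0) q1 q2 Fin.elim0 (by decide +kernel) (by decide +kernel)
      (by decide +kernel) (fun j => j.elim0) h2F 0 (by decide +kernel)
  exact dF.van_far dF m hm h1 h2

theorem vanES (m : ℤ) (hm : m ≠ 1) : (dE.mf xx ww s).Van (dS.fin xx ww s) (m • ww 0) := by
  by_cases h0 : m = 0
  · subst h0
    exact dE.van_of_cert dS 0 (n0 := 0) Fin.elim0 ![((0, 11), 0)] ![((1, 4), 0)] (fun j => j.elim0)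
      (by decide +kernel) (by decide +kernel) (by decide +kernel) 0 !![-1] (by decide +kernel)
  by_cases h2 : m = 2
  · subst h2
    exact dE.van_of_empty dS 2 (by decide +kernel)
  exact dE.van_far dS m h0 hm h2

theorem nbF : ∃ w, (dF.mf xx ww s).Cm (dS.fin xx ww s) 0 w ∧
    (dF.mf xx ww s).dd (dS.fin xx ww s) w = 0 ∧ ¬ (dF.mf xx ww s).Bd (dS.fin xx ww s) 0 w :=
  dF.nonbd dS ((0, 11), 0) (by decide +kernel) (by decide +kernel)

theorem nbE : ∃ w, (dE.mf xx ww s).Cm (dT.fin xx ww s) 0 w ∧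
    (dE.mf xx ww s).dd (dT.fin xx ww s) w = 0 ∧ ¬ (dE.mf xx ww s).Bd (dT.fin xx ww s) 0 w :=
  dE.nonbd dT ((0, 5), 0) (by decide +kernel) (by decide +kernel)

variable [Gd k xx ww]

theorem sesE : SES (dS.mf xx ww s).vb.toGrMod (dE.mf xx ww s).vb.toGrMod
    (dM.mf xx ww s).vb.toGrMod :=
  FD.ses dS dE dM mI mP (by decide +kernel) (by decide +kernel) (by decide +kernel)
    (by decide +kernel) (by decide +kernel) (by decide +kernel) (by decide +kernel)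
    (by decide +kernel) (by decide +kernel) (by decide +kernel)

theorem sesF : SES (dM.mf xx ww s).vb.toGrMod (dF.mf xx ww s).vb.toGrMod
    (dS.mf xx ww s).vb.toGrMod :=
  FD.ses dM dF dS mPᵀ mIᵀ (by decide +kernel) (by decide +kernel) (by decide +kernel)
    (by decide +kernel) (by decide +kernel) (by decide +kernel) (by decide +kernel)
    (by decide +kernel) (by decide +kernel) (by decide +kernel)

end Pool.Agent.MP_9d3c7b_al

end

section

namespace Pool.Agent.MP_9d3c7b_al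

open MvPolynomial Matrix

universe u

section generic

variable {k : Type u} [Field k] {S : Type u} [CommRing S] [Algebra k S] {L : Type} [AddCommGroup L]
  {xx : Fin 3 → S} {ww : Fin 3 → L}

namespace MF
variable {I : Type} [Fintype I] {T : MF k xx ww I}

theorem cm_twist {N : GrMod k xx ww} {t l : L} {w : I → N.car} :
    T.Cm (N.twist t) l w ↔ T.Cm N (l + t) w := by
  refine forall_congr' fun i => ?_
  change w i ∈ N.gr (T.g i + l + t) ↔ _
  rw [add_assoc]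

theorem bd_twist {N : GrMod k xx ww} {t l : L} {w : I → N.car} :
    T.Bd (N.twist t) l w ↔ T.Bd N (l + t) w := by
  refine exists_congr fun v => and_congr (cm_twist.trans ?_) Iff.rfl
  rw [sub_add_eq_add_sub]

theorem van_twist {N : GrMod k xx ww} {t l : L} (h : T.Van N (l + t)) : T.Van (N.twist t) l :=
  fun w hw hd => bd_twist.2 (h w (cm_twist.1 hw) hd)

theorem nb_twist {N : GrMod k xx ww} (d : L)
    (h : ∃ w, T.Cm N 0 w ∧ T.dd N w = 0 ∧ ¬ T.Bd N 0 w) :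
    ∃ w, T.Cm (N.twist (-d)) d w ∧ T.dd (N.twist (-d)) w = 0 ∧ ¬ T.Bd (N.twist (-d)) d w := by
  obtain ⟨w, h1, h2, h3⟩ := h
  refine ⟨w, cm_twist.2 (by rwa [add_neg_cancel]), h2, fun h => h3 ?_⟩
  have := bd_twist.1 h
  rwa [add_neg_cancel] at this

end MF

variable {s : k} [Good xx ww s] [Gd k xx ww]

theorem FD.exceptional {B : Type} [Fintype B] [DecidableEq B] (D : FD B) {N : GrMod k xx ww}
    (h1 : (D.mf xx ww s).One (D.fin xx ww s) ((0 : ℤ) • ww 0))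
    (hv : ∀ m : ℤ, m ≠ 0 → (D.mf xx ww s).Van (D.fin xx ww s) (m • ww 0))
    (hn : ∃ w, (D.mf xx ww s).Cm N 0 w ∧ (D.mf xx ww s).dd N w = 0 ∧ ¬ (D.mf xx ww s).Bd N 0 w) :
    Exceptional (D.mf xx ww s).vb := by
  obtain ⟨w, hw, hd, hb⟩ := MF.nb_twist ((D.mf xx ww s).τ + (D.mf xx ww s).τ) hn
  refine MF.exceptional (D.mf xx ww s).pres (fun m hm => ?_) ?_
    (MF.id_ne (D.mf xx ww s).pres hw hd hb)
  · have := (D.van_vb (D.mf xx ww s) _).1 (hv m hm)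
    convert this using 1
    change ww 0 + ww 0 + m • ww 0 = m • ww 0 + ww 0 + ww 0
    abel
  · have := D.one_vb (D.mf xx ww s) _ h1
    rwa [zero_smul, zero_add] at this

omit [Gd k xx ww] in
theorem main_generic (s : k) [Good xx ww s] : ∃ E F : VB k xx ww, Exceptional E ∧ Exceptional F ∧
    cls E = cls F ∧ ∀ n : ℤ, ¬ StIso F.toGrMod (E.twist (n • (2 • ww 0))).toGrMod := by
  have : Gd k xx ww := gd_of_good
  refine ⟨(dE.mf xx ww s).vb, (dF.mf xx ww s).vb, dE.exceptional oneE vanE nbE,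
    dF.exceptional oneF vanF nbF, ?_, fun n => ?_⟩
  · rw [cls_ses sesE, cls_ses sesF, add_comm]
  · obtain ⟨w, hw, hd, hb⟩ := MF.nb_twist ((dF.mf xx ww s).τ + (dF.mf xx ww s).τ)
      (nbF (xx := xx) (ww := ww) (s := s))
    refine MF.not_stIso (dF.mf xx ww s).pres ((dE.mf xx ww s).pres.twist (n • (2 • ww 0)))
      hw hd hb (MF.van_twist ?_)
    convert vanES (xx := xx) (ww := ww) (s := s) (-(2 * n)) (by omega) using 1
    change ww 0 + ww 0 - n • (2 • ww 0) + -(ww 0 + ww 0) = _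
    module

end generic

theorem xv_rel (p : Fin 3 → ℕ) (i j : Fin 3) : p i • xv p i = p j • xv p j := by
  rw [← sub_eq_zero]
  exact (QuotientAddGroup.eq_zero_iff
    (p i • FreeAbelianGroup.of i - p j • FreeAbelianGroup.of j)).2
      (AddSubgroup.subset_closure ⟨i, j, rfl⟩)

theorem exists_deg : ∃ φ : LL ![2, 5, 5] →+ ℤ × ZMod 5,
    φ (xv _ 0) = (5, 0) ∧ φ (xv _ 1) = (2, 0) ∧ φ (xv _ 2) = (2, 1) := by
  let v : Fin 3 → ℤ × ZMod 5 := ![(5, 0), (2, 0), (2, 1)]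
  have hv : ∀ i j : Fin 3, (![2, 5, 5] : Fin 3 → ℕ) i • v i = (![2, 5, 5] : Fin 3 → ℕ) j • v j := by
    decide
  let ψ : FreeAbelianGroup (Fin 3) →+ ℤ × ZMod 5 := FreeAbelianGroup.lift v
  have hψ : relL ![2, 5, 5] ≤ ψ.ker := by
    refine (AddSubgroup.closure_le _).2 ?_
    rintro _ ⟨i, j, rfl⟩
    change ψ _ = 0
    rw [map_sub, map_nsmul, map_nsmul, FreeAbelianGroup.lift_apply_of,
      FreeAbelianGroup.lift_apply_of, hv i j, sub_self]
  exact ⟨QuotientAddGroup.lift _ ψ hψ, FreeAbelianGroup.lift_apply_of v 0,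
    FreeAbelianGroup.lift_apply_of v 1, FreeAbelianGroup.lift_apply_of v 2⟩

theorem good_concrete (k : Type u) [Field k] (s : k) (hs : s ≠ 0) :
    Good (xs k ![2, 5, 5] (s * s)) (xv ![2, 5, 5]) s := by
  have hq : ∀ r : RR k, aeval (xs k ![2, 5, 5] (s * s)) r =
      Ideal.Quotient.mkₐ k (Ideal.span {fpoly k ![2, 5, 5] (s * s)}) r := by
    intro r
    have : aeval (xs k ![2, 5, 5] (s * s)) =
        Ideal.Quotient.mkₐ k (Ideal.span {fpoly k ![2, 5, 5] (s * s)}) :=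
      MvPolynomial.algHom_ext fun i => aeval_X _ i
    rw [this]
  have hf : fpoly k ![2, 5, 5] (s * s) = ff s := by
    change X 2 ^ 5 - X 1 ^ 5 + C (s * s) * X 0 ^ 2 = _
    rw [ff, map_mul]
    ring
  refine ⟨fun a => ?_, fun r => ?_, hs, xv_rel ![2, 5, 5] 1 0, xv_rel ![2, 5, 5] 2 0, ?_⟩
  · obtain ⟨r, rfl⟩ := Ideal.Quotient.mk_surjective a
    exact ⟨r, hq r⟩
  · rw [hq, ← hf, ← Ideal.mem_span_singleton]
    exact Ideal.Quotient.eq_zero_iff_mem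
  · intro n a c h
    obtain ⟨φ, h0, h1, h2⟩ := exists_deg
    have h3 : n • φ (xv _ 0) + a • φ (xv _ 1) + c • φ (xv _ 2) = 0 := by
      rw [← map_zsmul, ← map_zsmul, ← map_zsmul, ← map_add, ← map_add]
      exact (congrArg φ h).trans (map_zero φ)
    rw [h0, h1, h2] at h3
    have h4 := congrArg Prod.fst h3
    have h5 := congrArg Prod.snd h3
    simp at h4 h5
    refine ⟨by omega, ?_⟩
    exact (ZMod.intCast_zmod_eq_zero_iff_dvd c 5).1 h5

theorem main_concrete (k : Type u) [Field k] [IsAlgClosed k] (lam : k) (h0 : lam ≠ 0) :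
    ∃ E F : VB k (xs k ![2, 5, 5] lam) (xv ![2, 5, 5]), Exceptional E ∧ Exceptional F ∧
      cls E = cls F ∧ ∀ n : ℤ, ¬ StIso F.toGrMod (E.twist (n • cv ![2, 5, 5])).toGrMod := by
  obtain ⟨s, rfl⟩ := IsAlgClosed.exists_eq_mul_self lam
  have := good_concrete k s (left_ne_zero_of_mul h0)
  exact main_generic s

end Pool.Agent.MP_9d3c7b_al

end

section

/-! The counterexample in the stable category of vector bundles. -/

namespace Pool.Agent.MP_9d3c7b_al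

open CategoryTheory Limits

universe u

section generic

variable {k : Type u} [Field k] [IsAlgClosed k] {S : Type u} [CommRing S] [Algebra k S]
  [IsNoetherianRing S] {L : Type} [AddCommGroup L] {xx : Fin 3 → S} {ww : Fin 3 → L}
  {s : k} [hG : Good xx ww s] [Gd k xx ww]

include hG

theorem chain_up {X Y : Vect k xx ww} (h : Relation.TransGen Shift X Y) (X0 : VB k xx ww)
    (e : X.ob ≅ (sh k xx ww).obj X0.fg) : ∃ Y0 : VB k xx ww,
      Relation.TransGen Susp X0 Y0 ∧ Nonempty (Y.ob ≅ (sh k xx ww).obj Y0.fg) := by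
  induction h with
  | single h =>
    obtain ⟨Y0, h1, h2⟩ := shift_up h X0 e
    exact ⟨Y0, .single h1, h2⟩
  | tail _ h ih =>
    obtain ⟨Y0, h1, ⟨e'⟩⟩ := ih
    obtain ⟨Z0, h2, h3⟩ := shift_up h Y0 e'
    exact ⟨Z0, h1.tail h2, h3⟩

theorem chain_down {X Y : Vect k xx ww} (h : Relation.TransGen Shift X Y) (Y0 : VB k xx ww)
    (e : Y.ob ≅ (sh k xx ww).obj Y0.fg) : ∃ X0 : VB k xx ww,
      Relation.TransGen Susp X0 Y0 ∧ Nonempty (X.ob ≅ (sh k xx ww).obj X0.fg) := by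
  induction h generalizing Y0 with
  | single h =>
    obtain ⟨X0, h1, h2⟩ := shift_down h Y0 e
    exact ⟨X0, .single h1, h2⟩
  | tail _ h ih =>
    obtain ⟨Z0, h1, ⟨e'⟩⟩ := shift_down h Y0 e
    obtain ⟨X0, h2, h3⟩ := ih Z0 e'
    exact ⟨X0, h2.tail h1, h3⟩

theorem exc_of {E : Vect k xx ww} {E0 : VB k xx ww} (he : E.toFG = E0.fg) (h : Exceptional E0) :
    Exc E := by
  obtain ⟨E, tf⟩ := E
  obtain rfl : E = E0.fg := he
  obtain ⟨⟨h1, h2⟩, h3, h4⟩ := h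
  refine ⟨fun h => h1 (of_null (f := 𝟙 E0.fg) E0.cm (by rwa [CategoryTheory.Functor.map_id])),
    fun φ => ?_, fun Y hY φ => ?_⟩
  · obtain ⟨f, rfl⟩ := sh_surj E0.cm φ
    obtain ⟨a, ha⟩ := h2 f.1 f.2
    exact ⟨a, (sh k xx ww).map_sub ▸ null_of (f := f - scal a E0.fg) ha⟩
  · obtain ⟨Y0, h5, ⟨e⟩⟩ : ∃ Y0 : VB k xx ww, StHomZero E0.toGrMod Y0.toGrMod ∧
        Nonempty (Y.ob ≅ (sh k xx ww).obj Y0.fg) := by
      rcases hY with hY | hY
      · exact (chain_up hY E0 (Iso.refl _)).imp fun Y0 h => ⟨h3 Y0 h.1, h.2⟩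
      · exact (chain_down hY E0 (Iso.refl _)).imp fun Y0 h => ⟨h4 Y0 h.1, h.2⟩
    obtain ⟨f, hf⟩ := sh_surj Y0.cm (φ ≫ e.hom)
    simpa [hf] using (null_of (f := f) (h5 f.1 f.2)).comp e.inv

theorem stIso_of {M N : VB k xx ww}
    (h : StabIso ((sh k xx ww).obj M.fg) ((sh k xx ww).obj N.fg)) : StIso M.toGrMod N.toGrMod := by
  obtain ⟨α, β, h1, h2⟩ := h
  obtain ⟨a, rfl⟩ := sh_surj N.cm α
  obtain ⟨b, rfl⟩ := sh_surj M.cm β
  exact ⟨a.1, b.1, a.2, b.2, of_null (f := a ≫ b - 𝟙 _) M.cm (by simpa using h1),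
    of_null (f := b ≫ a - 𝟙 _) N.cm (by simpa using h2)⟩

theorem stabIso_refl (A : Coh k xx ww) : StabIso A A := by
  have h : Null (𝟙 A ≫ 𝟙 A - 𝟙 A) :=
    ⟨_, 0, 0, ⟨0, Fin.elim0, fun i => i.elim0, ⟨Iso.refl _⟩⟩, by simp⟩
  exact ⟨𝟙 A, 𝟙 A, h, h⟩

theorem cl_dist {A B C : Vect k xx ww} (h : Dist A.ob B.ob C.ob) : cl B = cl A + cl C := by
  rw [← sub_eq_zero, sub_add_eq_sub_sub]
  exact (QuotientAddGroup.eq_zero_iff (FreeAbelianGroup.of B - FreeAbelianGroup.of A -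
    FreeAbelianGroup.of C)).2 (AddSubgroup.subset_closure
      ⟨A, B, C, ⟨A, B, C, stabIso_refl _, stabIso_refl _, stabIso_refl _, h⟩, rfl⟩)

omit [IsAlgClosed k] in
/-- The vector bundle of a periodic complex. -/
noncomputable def MF.vect {I : Type} [Fintype I] (T : MF k xx ww I) : Vect k xx ww :=
  mkVect T.vb.fg T.vb.cm fun t m ht h =>
    have := good_domain (xx := xx) (ww := ww) s
    Subtype.ext (funext fun i =>
      (mul_eq_zero.1 (congrFun (congrArg Subtype.val h) i)).resolve_left ht)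

theorem coh_generic : ∃ E F : Vect k xx ww, Exc E ∧ Exc F ∧ cl E = cl F ∧
    ∀ n : ℤ, ¬ StabIso F.ob (E.tw (n • (2 • ww 0))) := by
  refine ⟨(dE.mf xx ww s).vect, (dF.mf xx ww s).vect, exc_of rfl (dE.exceptional oneE vanE nbE),
    exc_of rfl (dF.exceptional oneF vanF nbF), ?_, fun n h => ?_⟩
  · rw [cl_dist (A := (dS.mf xx ww s).vect) (B := (dE.mf xx ww s).vect)
      (C := (dM.mf xx ww s).vect) (dist_of_ses (VB.cm _) sesE),
      cl_dist (A := (dM.mf xx ww s).vect) (B := (dF.mf xx ww s).vect)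
      (C := (dS.mf xx ww s).vect) (dist_of_ses (VB.cm _) sesF), add_comm]
  · obtain ⟨w, hw, hd, hb⟩ := MF.nb_twist ((dF.mf xx ww s).τ + (dF.mf xx ww s).τ)
      (nbF (xx := xx) (ww := ww) (s := s))
    refine MF.not_stIso (dF.mf xx ww s).pres ((dE.mf xx ww s).pres.twist (n • (2 • ww 0)))
      hw hd hb (MF.van_twist ?_) (stIso_of (M := (dF.mf xx ww s).vb)
        (N := (dE.mf xx ww s).vb.twist (n • (2 • ww 0))) h)
    convert vanES (xx := xx) (ww := ww) (s := s) (-(2 * n)) (by omega) using 1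
    change ww 0 + ww 0 - n • (2 • ww 0) + -(ww 0 + ww 0) = _
    module

end generic

theorem coh_concrete (k : Type u) [Field k] [IsAlgClosed k] (lam : k) (h0 : lam ≠ 0) :
    ∃ E F : Vect k (xs k ![2, 5, 5] lam) (xv ![2, 5, 5]), Exc E ∧ Exc F ∧ cl E = cl F ∧
      ∀ n : ℤ, ¬ StabIso F.ob (E.tw (n • cv ![2, 5, 5])) := by
  obtain ⟨s, rfl⟩ := IsAlgClosed.exists_eq_mul_self lam
  have := good_concrete k s (left_ne_zero_of_mul h0)
  have : Gd k (xs k ![2, 5, 5] (s * s)) (xv ![2, 5, 5]) := gd_of_good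
  exact coh_generic

end Pool.Agent.MP_9d3c7b_al

end
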