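import Pool.Agent.Mg.F9d3c7bp.G5b6f3f

namespace Pool.Agent.MP_9d3c7b_al

open MvPolynomial Matrix

universe u

variable {k : Type u} [Field k] {S : Type u} [CommRing S] [Algebra k S] {L : Type} [AddCommGroup L]
  {xx : Fin 3 → S} {ww : Fin 3 → L}

/-- Level of a block. -/
def lv : Fin 4 → ℤ := ![0, 1, 1, 2]
/-- First degree of a block. -/
def ey : Fin 4 → ℤ := ![0, 1, 0, 1]
/-- Second degree of a block. -/
def ez : Fin 4 → ℤ := ![0, 0, 1, 1]

theorem del_eq (i : Fin 4) : del ww i = ey i • ww 1 + ez i • ww 2 - lv i • ww 0 := by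
  fin_cases i <;> simp [del, ey, ez, lv]
  abel

namespace FD

variable {B B' : Type} [Fintype B] [DecidableEq B] [Fintype B'] [DecidableEq B']
  (D : FD B) (D' : FD B')

/-- Admissible positions. -/
def adm (m : ℤ) (q : (Fin 4 × B) × B') : Prop :=
  lv q.1.1 = m ∧ D'.a q.2 = D.a q.1.2 + ey q.1.1 ∧ D'.c q.2 = D.c q.1.2 + ez q.1.1

instance (m : ℤ) (q : (Fin 4 × B) × B') : Decidable (D.adm D' m q) :=
  inferInstanceAs (Decidable (_ ∧ _ ∧ _))

/-- Entries of the commutator. -/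
def adI (Y : Matrix B B ℤ) (Y' : Matrix B' B' ℤ) (q q' : (Fin 4 × B) × B') : ℤ :=
  (if q'.1.2 = q.1.2 then Y' q.2 q'.2 else 0) - (if q.2 = q'.2 then Y q'.1.2 q.1.2 else 0)

/-- Integral differential. -/
def Dint (q q' : (Fin 4 × B) × B') : ℤ :=
  if q'.1.1 = 0 ∧ q.1.1 = 1 ∨ q'.1.1 = 2 ∧ q.1.1 = 3 then adI D.Y D'.Y q q'
  else if q'.1.1 = 0 ∧ q.1.1 = 2 then adI D.Z D'.Z q q'
  else if q'.1.1 = 1 ∧ q.1.1 = 3 then -adI D.Z D'.Z q q' else 0

variable {s : k} [hg : Good xx ww s]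

include hg in
theorem deg_iff (m : ℤ) (q : (Fin 4 × B) × B') :
    D'.u ww q.2 = D.u ww q.1.2 + del ww q.1.1 + m • ww 0 ↔ D.adm D' m q := by
  obtain ⟨⟨i, b⟩, β⟩ := q
  simp only [adm, u, del_eq]
  constructor
  · intro h
    have h1 := hg.sep (m - lv i) (D.a b + ey i - D'.a β) (D.c b + ez i - D'.c β) (by
      linear_combination (norm := module) -h)
    have := D.ba b
    have := D.bc b
    have := D'.ba β
    have := D'.bc β
    have h2 : 0 ≤ ey i ∧ ey i ≤ 1 ∧ 0 ≤ ez i ∧ ez i ≤ 1 := by fin_cases i <;> simp [ey, ez]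
    omega
  · rintro ⟨h1, h2, h3⟩
    rw [← h1, h2, h3]
    simp only [add_smul]
    abel

theorem cm_iff (m : ℤ) (w : Fin 4 × B → B' → k) :
    (D.mf xx ww s).Cm (D'.fin xx ww s) (m • ww 0) w ↔
      ∀ q : (Fin 4 × B) × B', ¬ D.adm D' m q → w q.1 q.2 = 0 := by
  constructor
  · intro h q hq
    exact h q.1 q.2 fun e => hq ((D.deg_iff D' (xx := xx) (s := s) m q).1 e)
  · intro h i β hβ
    exact h (i, β) fun e => hβ ((D.deg_iff D' (xx := xx) (s := s) m (i, β)).2 e)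

variable (xx ww s) in
/-- The matrix of the differential. -/
noncomputable def Dtrue (q q' : (Fin 4 × B) × B') : k :=
  D'.rho xx ww s (D.DS xx s q'.1 q.1) q.2 q'.2

theorem dd_apply (w : Fin 4 × B → B' → k) (q : (Fin 4 × B) × B') :
    (D.mf xx ww s).dd (D'.fin xx ww s) w q.1 q.2 =
      ∑ q' : (Fin 4 × B) × B', D.Dtrue xx ww D' s q q' * w q'.1 q'.2 := by
  change (∑ i, D'.rho xx ww s (D.DS xx s i q.1) *ᵥ w i : B' → k) q.2 = _
  rw [Finset.sum_apply, Fintype.sum_prod_type (f := fun q' : (Fin 4 × B) × B' =>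
    D.Dtrue xx ww D' s q q' * w q'.1 q'.2)]
  rfl

omit [Fintype B] in
theorem rho_aa {Y : Matrix B B ℤ} {Y' : Matrix B' B' ℤ} {y : S} (hy : D'.rho xx ww s y = ic k Y')
    (q q' : (Fin 4 × B) × B') :
    D'.rho xx ww s (aa y (ic S Y) q'.1.2 q.1.2) q.2 q'.2 = (adI Y Y' q q' : k) := by
  have h1 : D'.rho xx ww s (Y q'.1.2 q.1.2 : S) = (Y q'.1.2 q.1.2 : k) • (1 : Matrix B' B' k) := by
    rw [← D'.rhoC (xx := xx) (ww := ww) (s := s), map_intCast (algebraMap k S)]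
  simp only [aa, Matrix.sub_apply, Matrix.smul_apply, ic_apply, map_sub, h1, adI, one_apply]
  by_cases h : q'.1.2 = q.1.2 <;> by_cases h' : q.2 = q'.2 <;> simp [h, h', hy, ic_apply]

theorem Dtrue_eq {m : ℤ} {q q' : (Fin 4 × B) × B'} (hq : D.adm D' (m + 1) q)
    (hq' : D.adm D' m q') : D.Dtrue xx ww D' s q q' = (D.Dint D' q q' : k) := by
  have h1 : lv q.1.1 = lv q'.1.1 + 1 := by rw [hq.1, hq'.1]
  have hy := rho_aa (xx := xx) (ww := ww) (s := s) D' (Y := D.Y) D'.rho1 q q'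
  have hz := rho_aa (xx := xx) (ww := ww) (s := s) D' (Y := D.Z) D'.rho2 q q'
  obtain ⟨⟨i, b⟩, β⟩ := q
  obtain ⟨⟨j, c⟩, γ⟩ := q'
  have hc : (j = 0 ∧ i = 1) ∨ (j = 0 ∧ i = 2) ∨ (j = 1 ∧ i = 3) ∨ (j = 2 ∧ i = 3) := by
    have : ∀ i j : Fin 4, lv i = lv j + 1 →
      (j = 0 ∧ i = 1) ∨ (j = 0 ∧ i = 2) ∨ (j = 1 ∧ i = 3) ∨ (j = 2 ∧ i = 3) := by decide
    exact this i j h1
  rcases hc with ⟨rfl, rfl⟩ | ⟨rfl, rfl⟩ | ⟨rfl, rfl⟩ | ⟨rfl, rfl⟩
  · exact hy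
  · exact hz
  · change D'.rho xx ww s (-(aa (xx 2) (ic S D.Z) c b)) β γ =
      ((-adI D.Z D'.Z ((3, b), β) ((1, c), γ) : ℤ) : k)
    rw [map_neg, Int.cast_neg, ← hz]
    rfl
  · exact hy

/-- Extension by zero. -/
def ext {n : ℕ} (p : Fin n → (Fin 4 × B) × B') (c : Fin n → k) : Fin 4 × B → B' → k :=
  fun i β => ∑ j, if p j = (i, β) then c j else 0

omit [Fintype B] [Fintype B'] in
theorem ext_apply {n : ℕ} {p : Fin n → (Fin 4 × B) × B'} (hp : Function.Injective p)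
    (c : Fin n → k) (j : Fin n) : ext p c (p j).1 (p j).2 = c j := by
  simp [ext, hp.eq_iff]

theorem ext_supp {n : ℕ} {p : Fin n → (Fin 4 × B) × B'} {m : ℤ} (hp : ∀ j, D.adm D' m (p j))
    (c : Fin n → k) (q : (Fin 4 × B) × B') (hq : ¬ D.adm D' m q) : ext p c q.1 q.2 = 0 :=
  Finset.sum_eq_zero fun j _ => if_neg fun e => hq (by
    have e' : p j = q := e
    exact e' ▸ hp j)

theorem dd_ext {n : ℕ} {p : Fin n → (Fin 4 × B) × B'} {m : ℤ} (hp : ∀ j, D.adm D' m (p j))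
    (c : Fin n → k) {q : (Fin 4 × B) × B'} (hq : D.adm D' (m + 1) q) :
    (D.mf xx ww s).dd (D'.fin xx ww s) (ext p c) q.1 q.2 = ∑ j, (D.Dint D' q (p j) : k) * c j := by
  rw [dd_apply]
  simp only [ext, Finset.mul_sum]
  rw [Finset.sum_comm]
  refine Finset.sum_congr rfl fun j _ => ?_
  simp [D.Dtrue_eq D' hq (hp j)]

theorem cert (m : ℤ) {n0 n1 n2 : ℕ} (p0 : Fin n0 → (Fin 4 × B) × B')
    (p1 : Fin n1 → (Fin 4 × B) × B') (p2 : Fin n2 → (Fin 4 × B) × B')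
    (h0 : ∀ j, D.adm D' (m - 1) (p0 j)) (h1 : ∀ q, D.adm D' m q ↔ ∃ j, p1 j = q)
    (i1 : Function.Injective p1) (h2 : ∀ j, D.adm D' (m + 1) (p2 j))
    (H1 : Matrix (Fin n0) (Fin n1) ℤ) (H2 : Matrix (Fin n1) (Fin n2) ℤ)
    (P : Matrix (Fin n1) (Fin n1) ℤ)
    (hc : (Matrix.of fun i j => D.Dint D' (p1 i) (p0 j)) * H1 +
      H2 * (Matrix.of fun i j => D.Dint D' (p2 i) (p1 j)) + P = 1)
    (w : Fin 4 × B → B' → k) (hw : (D.mf xx ww s).Cm (D'.fin xx ww s) (m • ww 0) w)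
    (hd : (D.mf xx ww s).dd (D'.fin xx ww s) w = 0) :
    (D.mf xx ww s).Bd (D'.fin xx ww s) (m • ww 0)
      (w - ext p1 (ic k P *ᵥ fun j => w (p1 j).1 (p1 j).2)) := by
  set r : Fin n1 → k := fun j => w (p1 j).1 (p1 j).2 with hr
  have a1 : ∀ j, D.adm D' m (p1 j) := fun j => (h1 _).2 ⟨j, rfl⟩
  have hw' := (D.cm_iff D' m w).1 hw
  have hwe : w = ext p1 r := by
    funext i β
    by_cases h : D.adm D' m (i, β)
    · obtain ⟨j, hj⟩ := (h1 _).1 h
      have := ext_apply i1 r j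
      rw [hj] at this
      rw [this, hr]
      simp only [hj]
    · rw [hw' _ h, D.ext_supp D' a1 r _ h]
  have hD2 : ic k (Matrix.of fun i j => D.Dint D' (p2 i) (p1 j)) *ᵥ r = 0 := by
    funext i
    have := D.dd_ext D' (xx := xx) (ww := ww) (s := s) a1 r (h2 i)
    rw [← hwe, hd] at this
    exact this.symm
  have hc' := congrArg (fun M => ic k M *ᵥ r) hc
  simp only [ic_add, ic_mul, ic_one, add_mulVec, one_mulVec, ← mulVec_mulVec, hD2, mulVec_zero,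
    add_zero] at hc'
  have hm : m • ww 0 - ww 0 = (m - 1) • ww 0 := by rw [sub_smul, one_smul]
  have hv : (D.mf xx ww s).Cm (D'.fin xx ww s) (m • ww 0 - (D.mf xx ww s).τ)
      (ext p0 (ic k H1 *ᵥ r)) := by
    change (D.mf xx ww s).Cm (D'.fin xx ww s) (m • ww 0 - ww 0) _
    rw [hm]
    exact (D.cm_iff D' _ _).2 (D.ext_supp D' h0 _)
  refine ⟨ext p0 (ic k H1 *ᵥ r), hv, ?_⟩
  have hdv := hv.dd
  rw [sub_add_cancel] at hdv
  funext i β
  change w i β - ext p1 (ic k P *ᵥ r) i β = _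
  by_cases h : D.adm D' m (i, β)
  · obtain ⟨j, hj⟩ := (h1 _).1 h
    have e1 := D.dd_ext D' (xx := xx) (ww := ww) (s := s) h0 (ic k H1 *ᵥ r) (q := p1 j)
      (by rw [sub_add_cancel]; exact a1 j)
    have e2 := ext_apply i1 (ic k P *ᵥ r) j
    have e3 : r j = w i β := by simp only [hr, hj]
    rw [hj] at e2
    rw [e2, ← e3, ← congrFun hc' j, Pi.add_apply, add_sub_cancel_right]
    rw [← hj] at h
    have e4 : (i, β) = p1 j := hj.symm
    have e5 : i = (p1 j).1 := congrArg Prod.fst e4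
    have e6 : β = (p1 j).2 := congrArg Prod.snd e4
    rw [e5, e6, e1]
    rfl
  · rw [hw' _ h, D.ext_supp D' a1 _ _ h, sub_zero]
    exact ((D.cm_iff D' m _).1 hdv _ h).symm

theorem van_of_cert (m : ℤ) {n0 n1 n2 : ℕ} (p0 : Fin n0 → (Fin 4 × B) × B')
    (p1 : Fin n1 → (Fin 4 × B) × B') (p2 : Fin n2 → (Fin 4 × B) × B')
    (h0 : ∀ j, D.adm D' (m - 1) (p0 j)) (h1 : ∀ q, D.adm D' m q ↔ ∃ j, p1 j = q)
    (i1 : Function.Injective p1) (h2 : ∀ j, D.adm D' (m + 1) (p2 j))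
    (H1 : Matrix (Fin n0) (Fin n1) ℤ) (H2 : Matrix (Fin n1) (Fin n2) ℤ)
    (hc : (Matrix.of fun i j => D.Dint D' (p1 i) (p0 j)) * H1 +
      H2 * (Matrix.of fun i j => D.Dint D' (p2 i) (p1 j)) = 1) :
    (D.mf xx ww s).Van (D'.fin xx ww s) (m • ww 0) := by
  intro w hw hd
  have := D.cert D' m p0 p1 p2 h0 h1 i1 h2 H1 H2 0 (by rw [add_zero, hc]) w hw hd
  convert this using 1
  funext i β
  change w i β = w i β - _
  simp [ext, ic_zero]

theorem van_of_empty (m : ℤ) (h : ∀ q, ¬ D.adm D' m q) :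
    (D.mf xx ww s).Van (D'.fin xx ww s) (m • ww 0) :=
  D.van_of_cert D' m (n0 := 0) (n1 := 0) (n2 := 0) Fin.elim0 Fin.elim0 Fin.elim0
    (fun j => j.elim0) (fun q => ⟨fun e => (h q e).elim, fun ⟨j, _⟩ => j.elim0⟩)
    (fun j => j.elim0) (fun j => j.elim0) 0 0 (Subsingleton.elim _ _)

theorem van_far (m : ℤ) (h0 : m ≠ 0) (h1 : m ≠ 1) (h2 : m ≠ 2) :
    (D.mf xx ww s).Van (D'.fin xx ww s) (m • ww 0) := by
  refine D.van_of_empty D' m fun q hq => ?_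
  have := hq.1
  generalize q.1.1 = i at this
  fin_cases i <;> simp [lv] at this <;> omega

theorem one_of_cert (m : ℤ) {n0 n1 n2 : ℕ} (p0 : Fin n0 → (Fin 4 × B) × B')
    (p1 : Fin n1 → (Fin 4 × B) × B') (p2 : Fin n2 → (Fin 4 × B) × B')
    (h0 : ∀ j, D.adm D' (m - 1) (p0 j)) (h1 : ∀ q, D.adm D' m q ↔ ∃ j, p1 j = q)
    (i1 : Function.Injective p1) (h2 : ∀ j, D.adm D' (m + 1) (p2 j))
    (H1 : Matrix (Fin n0) (Fin n1) ℤ) (H2 : Matrix (Fin n1) (Fin n2) ℤ) (e φ : Fin n1 → ℤ)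
    (hc : (Matrix.of fun i j => D.Dint D' (p1 i) (p0 j)) * H1 +
      H2 * (Matrix.of fun i j => D.Dint D' (p2 i) (p1 j)) + vecMulVec e φ = 1) :
    (D.mf xx ww s).One (D'.fin xx ww s) (m • ww 0) := by
  let e0 : Fin 4 × B → (D'.fin xx ww s).car := ext p1 fun j => (e j : k)
  have key : ∀ w : Fin 4 × B → (D'.fin xx ww s).car,
      (D.mf xx ww s).Cm (D'.fin xx ww s) (m • ww 0) w → (D.mf xx ww s).dd (D'.fin xx ww s) w = 0 →
      ∃ c : k, (D.mf xx ww s).Bd (D'.fin xx ww s) (m • ww 0) (w - algebraMap k S c • e0) := by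
    intro w hw hd
    refine ⟨∑ j, (φ j : k) * w (p1 j).1 (p1 j).2, ?_⟩
    convert D.cert D' m p0 p1 p2 h0 h1 i1 h2 H1 H2 _ hc w hw hd using 1
    funext i β
    refine congrArg (fun x => w i β - x) ?_
    change (D'.rho xx ww s (algebraMap k S _) *ᵥ ext p1 (fun j => (e j : k)) i) β = _
    rw [rhoC, smul_mulVec, one_mulVec, Pi.smul_apply, smul_eq_mul]
    simp only [ext, Finset.mul_sum]
    refine Finset.sum_congr rfl fun j _ => ?_
    split_ifs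
    · simp [mulVec, dotProduct, ic, vecMulVec_apply, Finset.mul_sum, mul_comm, mul_left_comm]
    · simp
  intro w w' hw hd hw' hd'
  obtain ⟨c, hc⟩ := key w hw hd
  obtain ⟨c', hc'⟩ := key w' hw' hd'
  by_cases h : c = 0
  · refine ⟨1, 0, Or.inl one_ne_zero, ?_⟩
    simpa [h] using hc
  · refine ⟨c', -c, Or.inr (neg_ne_zero.2 h), ?_⟩
    convert (hc.smul c').sub (hc'.smul c) using 1
    rw [smul_sub, smul_sub, smul_comm, map_neg, neg_smul]
    abel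

theorem nonbd (q0 : (Fin 4 × B) × B') (h0 : D.adm D' 0 q0)
    (h1 : ∀ q, D.adm D' 1 q → D.Dint D' q q0 = 0) :
    ∃ w, (D.mf xx ww s).Cm (D'.fin xx ww s) 0 w ∧ (D.mf xx ww s).dd (D'.fin xx ww s) w = 0 ∧
      ¬ (D.mf xx ww s).Bd (D'.fin xx ww s) 0 w := by
  have a0 : ∀ j : Fin 1, D.adm D' 0 (![q0] j) := fun j => by simpa using h0
  have hw := (D.cm_iff D' (xx := xx) (ww := ww) (s := s) 0 _).2 (D.ext_supp D' a0 ![1])
  refine ⟨ext ![q0] ![1], by simpa using hw, ?_, ?_⟩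
  · have hdw := hw.dd
    have : (0 : ℤ) • ww 0 + (D.mf xx ww s).τ = (1 : ℤ) • ww 0 := by simp [mf]
    rw [this] at hdw
    funext i β
    by_cases h : D.adm D' 1 (i, β)
    · have := D.dd_ext D' (xx := xx) (ww := ww) (s := s) a0 ![1] (q := (i, β)) (by simpa using h)
      refine this.trans ?_
      simp [h1 _ h]
      rfl
    · exact (D.cm_iff D' 1 _).1 hdw _ h
  · rintro ⟨v, hv, h⟩
    have : 0 - (D.mf xx ww s).τ = (-1 : ℤ) • ww 0 := by simp [mf]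
    rw [this] at hv
    have hv0 : v = 0 := by
      funext i β
      refine (D.cm_iff D' (-1) _).1 hv (i, β) fun hq => ?_
      have := hq.1
      generalize (i, β).1.1 = j at this
      fin_cases j <;> simp [lv] at this
    have h2 := congrFun (congrFun h q0.1) q0.2
    rw [hv0, D.dd_apply D'] at h2
    have h3 : ext ![q0] ![(1 : k)] q0.1 q0.2 = 1 := by simp [ext]
    rw [h3] at h2
    exact one_ne_zero (h2.trans (Finset.sum_eq_zero fun _ _ => mul_zero _))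

end FD

end Pool.Agent.MP_9d3c7b_al
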